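import Pool.Agent.H918R3.TA4a

/-! Sections of families of conics `A x² + B x y + C y² = u²` over the affine line. -/

namespace Pool.Agent.L0h9.Rat

open Polynomial

/-- The equation of the conic. -/
def OnConic {R : Type*} [CommRing R] (A B C x y u : R) : Prop :=
  A * x ^ 2 + B * (x * y) + C * y ^ 2 = u ^ 2

/-- Tsen's theorem for the conic over `k(t)`. -/
theorem conic_ratFunc {k : Type*} [Field k] [IsAlgClosed k] [CharZero k] (A B C : RatFunc k) :
    ∃ x y u : RatFunc k, (x ≠ 0 ∨ y ≠ 0 ∨ u ≠ 0) ∧ OnConic A B C x y u := by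
  have h20 : (2 : RatFunc k) ≠ 0 := by
    have : CharZero (RatFunc k) := charZero_of_injective_algebraMap
      (FaithfulSMul.algebraMap_injective k (RatFunc k))
    exact two_ne_zero
  by_cases hA : A = 0
  · exact ⟨1, 0, 0, Or.inl one_ne_zero, by simp [OnConic, hA]⟩
  · obtain ⟨u, x, y, hne, h⟩ := Pool.Agent.H918R3.tsen_conic (k := k) (L := RatFunc k) A
      (C - B ^ 2 / (4 * A))
    have h40 : (4 : RatFunc k) ≠ 0 := by
      have : (4 : RatFunc k) = 2 * 2 := by norm_num
      rw [this]; exact mul_ne_zero h20 h20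
    refine ⟨x - B / (2 * A) * y, y, u, ?_, ?_⟩
    · by_contra hcon
      push Not at hcon
      obtain ⟨h1, h2, h3⟩ := hcon
      rw [h2, mul_zero, sub_zero] at h1
      rcases hne with h4 | h4 | h4
      · exact h4 h3
      · exact h4 h1
      · exact h4 h2
    · rw [OnConic]
      have e : A * (x - B / (2 * A) * y) ^ 2 + B * ((x - B / (2 * A) * y) * y) + C * y ^ 2 =
          A * x ^ 2 + (C - B ^ 2 / (4 * A)) * y ^ 2 := by
        field_simp
        ring
      rw [e]
      linear_combination -h

/-- The same with polynomials. -/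
theorem conic_poly {k : Type*} [Field k] [IsAlgClosed k] [CharZero k] (A B C : k[X]) :
    ∃ x y u : k[X], (x ≠ 0 ∨ y ≠ 0 ∨ u ≠ 0) ∧ OnConic A B C x y u := by
  obtain ⟨x, y, u, hne, h⟩ := conic_ratFunc (algebraMap k[X] (RatFunc k) A)
    (algebraMap k[X] (RatFunc k) B) (algebraMap k[X] (RatFunc k) C)
  obtain ⟨D, hD⟩ := IsLocalization.exist_integer_multiples_of_finite (nonZeroDivisors k[X])
    (S := RatFunc k) (![x, y, u] : Fin 3 → RatFunc k)
  have hDne : (algebraMap k[X] (RatFunc k) D) ≠ 0 := by
    rw [Ne, map_eq_zero_iff _ (IsFractionRing.injective k[X] (RatFunc k))]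
    exact nonZeroDivisors.ne_zero D.2
  obtain ⟨x', hx⟩ := hD 0
  obtain ⟨y', hy⟩ := hD 1
  obtain ⟨u', hu⟩ := hD 2
  have hx' : algebraMap k[X] (RatFunc k) x' = algebraMap k[X] (RatFunc k) D * x := by
    rw [hx, Algebra.smul_def]; rfl
  have hy' : algebraMap k[X] (RatFunc k) y' = algebraMap k[X] (RatFunc k) D * y := by
    rw [hy, Algebra.smul_def]; rfl
  have hu' : algebraMap k[X] (RatFunc k) u' = algebraMap k[X] (RatFunc k) D * u := by
    rw [hu, Algebra.smul_def]; rfl
  refine ⟨x', y', u', ?_, ?_⟩
  · have key : ∀ (z : RatFunc k) (z' : k[X]),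
        algebraMap k[X] (RatFunc k) z' = algebraMap k[X] (RatFunc k) D * z → z ≠ 0 → z' ≠ 0 := by
      intro z z' h1 h2 h3
      rw [h3, map_zero] at h1
      exact mul_ne_zero hDne h2 h1.symm
    rcases hne with h1 | h1 | h1
    · exact Or.inl (key _ _ hx' h1)
    · exact Or.inr (Or.inl (key _ _ hy' h1))
    · exact Or.inr (Or.inr (key _ _ hu' h1))
  · apply IsFractionRing.injective k[X] (RatFunc k)
    simp only [map_add, map_mul, map_pow, hx', hy', hu']
    have h := h
    rw [OnConic] at h
    linear_combination (algebraMap k[X] (RatFunc k) D) ^ 2 * h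

/-- A section which does not vanish at `t`. -/
theorem conic_prim {k : Type*} [Field k] [IsAlgClosed k] [CharZero k] (A B C : k[X]) (t : k) :
    ∃ x y u : k[X], (x.eval t ≠ 0 ∨ y.eval t ≠ 0 ∨ u.eval t ≠ 0) ∧ OnConic A B C x y u := by
  have key : ∀ n : ℕ, ∀ x y u : k[X], x.natDegree + y.natDegree + u.natDegree ≤ n →
      (x ≠ 0 ∨ y ≠ 0 ∨ u ≠ 0) → OnConic A B C x y u →
      ∃ x y u : k[X], (x.eval t ≠ 0 ∨ y.eval t ≠ 0 ∨ u.eval t ≠ 0) ∧ OnConic A B C x y u := by
    intro n
    induction n with
    | zero =>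
      intro x y u hd hne h
      refine ⟨x, y, u, ?_, h⟩
      have c : ∀ z : k[X], z.natDegree = 0 → z ≠ 0 → z.eval t ≠ 0 := by
        intro z hz hz0 h0
        rw [Polynomial.eq_C_of_natDegree_eq_zero hz, Polynomial.eval_C] at h0
        apply hz0
        rw [Polynomial.eq_C_of_natDegree_eq_zero hz, h0, C_0]
      rcases hne with h1 | h1 | h1
      · exact Or.inl (c x (by omega) h1)
      · exact Or.inr (Or.inl (c y (by omega) h1))
      · exact Or.inr (Or.inr (c u (by omega) h1))
    | succ n ih =>
      intro x y u hd hne h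
      by_cases h0 : x.eval t ≠ 0 ∨ y.eval t ≠ 0 ∨ u.eval t ≠ 0
      · exact ⟨x, y, u, h0, h⟩
      · push Not at h0
        obtain ⟨hx, hy, hu⟩ := h0
        obtain ⟨x', rfl⟩ := Polynomial.dvd_iff_isRoot.mpr hx
        obtain ⟨y', rfl⟩ := Polynomial.dvd_iff_isRoot.mpr hy
        obtain ⟨u', rfl⟩ := Polynomial.dvd_iff_isRoot.mpr hu
        have hX : (X - Polynomial.C t : k[X]) ≠ 0 := X_sub_C_ne_zero t
        have hdeg : ∀ z : k[X], z ≠ 0 → ((X - Polynomial.C t) * z).natDegree = z.natDegree + 1 := by
          intro z hz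
          rw [natDegree_mul hX hz, natDegree_X_sub_C, add_comm]
        have hdeg' : ∀ z : k[X], z.natDegree ≤ ((X - Polynomial.C t) * z).natDegree := by
          intro z
          by_cases hz : z = 0
          · rw [hz]; simp
          · rw [hdeg z hz]; omega
        refine ih x' y' u' ?_ ?_ ?_
        · have e1 := hdeg' x'
          have e2 := hdeg' y'
          have e3 := hdeg' u'
          rcases hne with h1 | h1 | h1
          · have := hdeg x' (right_ne_zero_of_mul h1); omega
          · have := hdeg y' (right_ne_zero_of_mul h1); omega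
          · have := hdeg u' (right_ne_zero_of_mul h1); omega
        · rcases hne with h1 | h1 | h1
          · exact Or.inl (right_ne_zero_of_mul h1)
          · exact Or.inr (Or.inl (right_ne_zero_of_mul h1))
          · exact Or.inr (Or.inr (right_ne_zero_of_mul h1))
        · rw [OnConic] at h ⊢
          apply mul_left_cancel₀ (pow_ne_zero 2 hX)
          linear_combination h
  obtain ⟨x, y, u, hne, h⟩ := conic_poly A B C
  exact key _ x y u le_rfl hne h

/-- A section whose second coordinate does not vanish at a point `t` where `A` vanishes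
and `B` does not. -/
theorem conic_sect {k : Type*} [Field k] [IsAlgClosed k] [CharZero k] (A B C : k[X]) (t : k)
    (hA : A.eval t = 0) (hB : B.eval t ≠ 0) :
    ∃ x y u : k[X], y.eval t ≠ 0 ∧ OnConic A B C x y u := by
  obtain ⟨x, y, u, hne, h⟩ := conic_prim A B C t
  by_cases hy : y.eval t = 0
  · have hu : u.eval t = 0 := by
      have := congrArg (Polynomial.eval t) h
      simp only [eval_add, eval_mul, eval_pow, hA, hy] at this
      have h2 : (u.eval t) ^ 2 = 0 := by rw [← this]; ring
      exact pow_eq_zero_iff two_ne_zero |>.mp h2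
    have hx : x.eval t ≠ 0 := by
      rcases hne with h1 | h1 | h1
      · exact h1
      · exact absurd hy h1
      · exact absurd hu h1
    refine ⟨C * x, -(B * x) - C * y, C * u, ?_, ?_⟩
    · simp only [eval_sub, eval_neg, eval_mul, hy, mul_zero, sub_zero]
      exact neg_ne_zero.mpr (mul_ne_zero hB hx)
    · rw [OnConic] at h ⊢
      linear_combination C ^ 2 * h
  · exact ⟨x, y, u, hy, h⟩

/-- The section is defined over a finite extension. -/
theorem conic_descend {K Ω : Type*} [Field K] [Field Ω] [CharZero Ω] [Algebra K Ω]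
    [Algebra.IsAlgebraic K Ω] [IsAlgClosed Ω] (A B C : K[X]) (t : K)
    (hA : A.eval t = 0) (hB : B.eval t ≠ 0) :
    ∃ L : IntermediateField K Ω, FiniteDimensional K L ∧ ∃ x y u : Polynomial L,
      y.eval (algebraMap K L t) ≠ 0 ∧
      OnConic (A.map (algebraMap K L)) (B.map (algebraMap K L)) (C.map (algebraMap K L)) x y u := by
  classical
  obtain ⟨x, y, u, hy, h⟩ := conic_sect (A.map (algebraMap K Ω)) (B.map (algebraMap K Ω))
    (C.map (algebraMap K Ω)) (algebraMap K Ω t)
    (by rw [eval_map, eval₂_at_apply, hA, map_zero])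
    (by rw [eval_map, eval₂_at_apply]; exact (_root_.map_ne_zero _).mpr hB)
  set S0 : Finset Ω := x.coeffs ∪ y.coeffs ∪ u.coeffs with hS0
  set S : Set Ω := (S0 : Set Ω) with hS
  have hSfin : Finite S := by rw [hS]; infer_instance
  set L := IntermediateField.adjoin K S with hL
  have hfin : FiniteDimensional K L := IntermediateField.finiteDimensional_adjoin
    fun x _ => (Algebra.IsAlgebraic.isAlgebraic x).isIntegral
  have lift : ∀ z : Polynomial Ω, z.coeffs ⊆ S0 →
      ∃ z' : Polynomial L, z'.map (algebraMap L Ω) = z := by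
    intro z hz
    have : z ∈ Polynomial.lifts (algebraMap L Ω) := by
      rw [Polynomial.lifts_iff_coeff_lifts]
      intro n
      by_cases h0 : z.coeff n = 0
      · exact ⟨0, by rw [h0, map_zero]⟩
      · have h1 : z.coeff n ∈ S := hz (Polynomial.coeff_mem_coeffs h0)
        exact ⟨⟨z.coeff n, IntermediateField.subset_adjoin K S h1⟩, rfl⟩
    exact (Polynomial.mem_lifts z).mp this
  obtain ⟨x', hx'⟩ := lift x (by
    intro a ha; rw [hS0]; simp only [Finset.mem_union]; exact Or.inl (Or.inl ha))
  obtain ⟨y', hy'⟩ := lift y (by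
    intro a ha; rw [hS0]; simp only [Finset.mem_union]; exact Or.inl (Or.inr ha))
  obtain ⟨u', hu'⟩ := lift u (by
    intro a ha; rw [hS0]; simp only [Finset.mem_union]; exact Or.inr ha)
  refine ⟨L, hfin, x', y', u', ?_, ?_⟩
  · intro h0
    apply hy
    rw [← hy', IsScalarTower.algebraMap_apply K L Ω, eval_map, eval₂_at_apply, h0, map_zero]
  · rw [OnConic] at h ⊢
    apply Polynomial.map_injective (algebraMap L Ω) (algebraMap L Ω).injective
    simp only [Polynomial.map_add, Polynomial.map_mul, Polynomial.map_pow, hx', hy', hu',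
      Polynomial.map_map, ← IsScalarTower.algebraMap_eq]
    exact h

end Pool.Agent.L0h9.Rat
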