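import Pool.Agent.H952R2.Sextic.Defs
import Pool.Agent.L0h9.Tri.Final

/-! Sextic hypersurfaces containing a rational curve: the definition. -/

namespace Pool.Agent.L0h9.Rat

open MvPolynomial Pool.Agent.H952R2.SexticDefs Pool.Agent.L0h9.Tri

/-- For a point `p` of the hypersurface `{F = 0}` and a tangent direction `b` at `p`: the
hypersurface is smooth at `p`, and `D` is an asymptotic tangent direction at `p` of contact order
exactly `3` with the hypersurface, not conjugate to `b`: `F(p + σ D)` has order exactly `3` at
`σ = 0`, and the coefficients of `σ ^ 2` in `F(p + σ (D + b))` and in `F(p + σ b)` are different. -/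
def GoodPoint {K Ω : Type} [Field K] [Field Ω] [Algebra K Ω] {n : ℕ}
    (F : MvPolynomial (Fin (n + 1)) K) (p b D : Fin (n + 1) → Ω) : Prop :=
  (∃ j, aeval p (pderiv j F) ≠ 0) ∧
    (along F p D).coeff 1 = 0 ∧ (along F p D).coeff 2 = 0 ∧ (along F p D).coeff 3 ≠ 0 ∧
    (along F p (fun j => D j + b j)).coeff 2 ≠ (along F p b).coeff 2

/-- The curve `c` in `ℙⁿ`, given by `n + 1` polynomials `c j` in `t` over a field `Ω`, lies on the
hypersurface `{F = 0}`, and for some point `p = c(t)` of it and `b = c'(t)` there is a direction `D`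
as in `GoodPoint`. -/
def GoodCurve {K Ω : Type} [Field K] [Field Ω] [Algebra K Ω] {n : ℕ}
    (F : MvPolynomial (Fin (n + 1)) K) (c : Fin (n + 1) → Polynomial Ω) : Prop :=
  aeval c F = 0 ∧
    ∃ (t : Ω) (D : Fin (n + 1) → Ω),
      GoodPoint F (fun j => (c j).eval t) (fun j => (Polynomial.derivative (c j)).eval t) D

/-- For some finite extension `L` of `K` the `L`-rational points of `w² = F(x)` are dense. -/
def PotentiallyDense {K : Type} [Field K] {r : ℕ} (F : MvPolynomial (Fin r) K) : Prop :=
  ∃ L : IntermediateField K (AlgebraicClosure K), FiniteDimensional K L ∧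
    CoverDense (map (algebraMap K L) F)

/-- The exponents of the monomials of degree six in `n + 1` variables. -/
abbrev Exponents (n : ℕ) : Type := {d : Fin (n + 1) →₀ ℕ // d ∈ Finset.finsuppAntidiag Finset.univ 6}

/-- The rational normal curve of degree `e` in the subspace `x_{e + 1} = … = x_n = 0` of `ℙⁿ`,
`t ↦ (1, t, …, t ^ e, 0, …, 0)`. -/
noncomputable def normalCurve (n e : ℕ) (K : Type) [Field K] : Fin (n + 1) → Polynomial K :=
  fun j => if (j : ℕ) ≤ e then Polynomial.X ^ (j : ℕ) else 0

/-- `F` is a form of degree six which vanishes on the rational normal curve of degree `e`. -/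
def HasNormalCurve {K : Type} [Field K] {n : ℕ} (e : ℕ) (F : MvPolynomial (Fin (n + 1)) K) : Prop :=
  F.IsHomogeneous 6 ∧ aeval (normalCurve n e K) F = 0

/-- The coefficients of a form of degree six. -/
noncomputable def coeffs {K : Type} [Field K] {n : ℕ} (F : MvPolynomial (Fin (n + 1)) K) :
    Exponents n → K := fun d => coeff d.1 F

end Pool.Agent.L0h9.Rat
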