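import Pool.Agent.L0h9.Rat.Defs

/-! Sextic hypersurfaces containing a curve of genus at most one: the definitions. -/

namespace Pool.Agent.L0h9.Rat

open MvPolynomial Pool.Agent.H952R2.SexticDefs Pool.Agent.L0h9.Tri

/-- The image of the curve `w² = s g(s)`, with `g` a polynomial of degree at most `3` and
`g(0) ≠ 0`, under the map given by `n + 1` polynomials `c j` in `s` and `w` (`s` is the variable `0`
and `w` the variable `1`) lies on the hypersurface `{F = 0}`, and for the point `p = c(0, 0)` and the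
tangent direction `b = ∂c/∂w (0, 0)` there is a direction `D` as in `GoodPoint`. -/
def GoodGenusOneCurve {K Ω : Type} [Field K] [Field Ω] [Algebra K Ω] {n : ℕ}
    (F : MvPolynomial (Fin (n + 1)) K) (g : Polynomial Ω)
    (c : Fin (n + 1) → MvPolynomial (Fin 2) Ω) : Prop :=
  g.natDegree ≤ 3 ∧ g.eval 0 ≠ 0 ∧
    (∀ s w : Ω, w ^ 2 = s * g.eval s → aeval (fun j => eval ![s, w] (c j)) F = 0) ∧
    ∃ D : Fin (n + 1) → Ω,
      GoodPoint F (fun j => eval ![0, 0] (c j)) (fun j => eval ![0, 0] (pderiv 1 (c j))) D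

/-- The point `(1, s, w, s ^ 2, s w, s ^ 3, s ^ 2 w, …, 0, …, 0)` of the subspace
`x_{e + 1} = … = x_n = 0` of `ℙⁿ`. On the curve `w² = s g(s)` with `g` of degree two the first
`e + 1` coordinates are the functions with a pole of order at most `e + 1` at infinity. -/
def ellPoint {A : Type} [CommRing A] (n e : ℕ) (s w : A) : Fin (n + 1) → A :=
  fun j => if e < (j : ℕ) then 0 else if (j : ℕ) = 0 then 1 else
    if (j : ℕ) % 2 = 0 then s ^ ((j : ℕ) / 2 - 1) * w else s ^ (((j : ℕ) + 1) / 2)

/-- `F` is a form of degree six which vanishes on the elliptic normal curve of degree `e + 1` given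
by `w² = s g(s)`. -/
def HasEllipticCurve {K : Type} [Field K] {n : ℕ} (e : ℕ) (g : Polynomial K)
    (F : MvPolynomial (Fin (n + 1)) K) : Prop :=
  F.IsHomogeneous 6 ∧ ∀ s w : AlgebraicClosure K, w ^ 2 = s * Polynomial.aeval s g →
    aeval (ellPoint n e s w) F = 0

end Pool.Agent.L0h9.Rat
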