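import Pool.Agent.L0h9.Rat.Par

/-! Density. -/

namespace Pool.Agent.L0h9.Rat

open MvPolynomial Pool.Agent.H952R2.Sextic

variable {K : Type*} [Field K] {ι : Type*} [Fintype ι]

/-- `T(x) = hs(x, v)² - 4 u₀² q(x)`. -/
noncomputable def TT {R : Type*} [CommRing R] [Algebra K R] (F : MvPolynomial ι K)
    (p v x : ι → R) (u0 : R) : R :=
  hs F p x v ^ 2 - 2 * u0 ^ 2 * hs F p x x

theorem map_TT {R : Type*} [CommRing R] [Algebra K R] {R' : Type*} [CommRing R'] [Algebra K R']
    (φ : R →ₐ[K] R') (F : MvPolynomial ι K) (p v x : ι → R) (u0 : R) :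
    φ (TT F p v x u0) = TT F (fun j => φ (p j)) (fun j => φ (v j)) (fun j => φ (x j)) (φ u0) := by
  simp only [TT, map_sub, map_mul, map_pow, map_hs, map_ofNat]

omit [Fintype ι] in
theorem ev_eq {R : Type*} [CommRing R] [Algebra K R] (t : R) (c : ι → Polynomial K) :
    (fun j => (Polynomial.aeval t : Polynomial K →ₐ[K] R) (c j)) = ev c t := rfl

/-- Additivity in the form used below. -/
theorem hs_line {R : Type*} [CommRing R] [Algebra K R] (F : MvPolynomial ι K) (p x y z : ι → R)
    (l : R) : hs F p (fun j => x j + y j * l) z = hs F p x z + l * hs F p y z := by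
  rw [hs_add_left F p x (fun j => y j * l), ← hs_smul_left]
  congr 2
  funext j
  ring

theorem density1 [CharZero K] [Algebra.IsAlgebraic ℚ K] {M : Type*} [Field M] [Algebra K M]
    [IsAlgClosed M] {F : MvPolynomial ι K} (hF : F.IsHomogeneous 6) {d : Dat K ι} (h : Sound F d)
    (t1 : K) (D1 : ι → K) (ha : (lp F (ev d.c t1) d.a).coeff 1 ≠ 0)
    (hD1 : (lp F (ev d.c t1) D1).coeff 1 = 0) (hD2 : (lp F (ev d.c t1) D1).coeff 2 = 0)
    (hD3 : (lp F (ev d.c t1) D1).coeff 3 ≠ 0) (hW : hs F (ev d.c t1) D1 (ev d.V t1) ≠ 0)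
    (hc' : hs F (ev d.c t1) D1 (ev (fun j => Polynomial.derivative (d.c j)) t1) ≠ 0)
    (N : MvPolynomial ι M)
    (hN : ∀ (x : ι → K) (w : K), w ^ 2 = aeval x F →
      aeval (fun j => algebraMap K M (x j)) N = 0) : N = 0 := by
  classical
  have : Infinite M := IsAlgClosed.instInfinite
  have : CharZero M := charZero_of_injective_algebraMap (algebraMap K M).injective
  have pv := param_vanish1 hF h t1 D1 ha hD1 hD2 hD3 hW N hN
  -- step 1
  have s1 : ∀ (t : M) (x : ι → M), (lp F (ev d.c t) (cst M d.a)).coeff 1 ≠ 0 →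
      (lp F (ev d.c t) x).coeff 1 = 0 →
      TT F (ev d.c t) (ev d.V t) x (Polynomial.aeval t d.U) ≠ 0 → aeval x N = 0 := by
    intro t x hk hx hT
    set κ := (lp F (ev d.c t) (cst M d.a)).coeff 1 with hκ
    obtain ⟨u, hu⟩ := IsAlgClosed.exists_pow_nat_eq ((lp F (ev d.c t) x).coeff 2)
      (n := 2) (by norm_num)
    set W := hs F (ev d.c t) x (ev d.V t) - 2 * (Polynomial.aeval t d.U * u) with hWdef
    have hW0 : W ≠ 0 := by
      intro h0
      apply hT
      rw [TT, hs_self, ← hu]
      have : hs F (ev d.c t) x (ev d.V t) ^ 2 - 2 * (Polynomial.aeval t d.U) ^ 2 * (u ^ 2 * 2) =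
          W * (hs F (ev d.c t) x (ev d.V t) + 2 * (Polynomial.aeval t d.U * u)) := by
        rw [hWdef]; ring
      rw [this, h0, zero_mul]
    set v : M → Prm1 ι → M := fun l => Sum.elim ![l, t, κ * u] x with hv
    have hy : ∀ l, yy F d (v l) = fun j => κ * x j := by
      intro l
      change Dp F (ev d.c t) (cst M d.a) x = _
      funext j
      simp [Dp, hx, hκ]
    have hq : ∀ l, qd F (ev d.c t) (yy F d (v l)) (κ * u) = 0 := by
      intro l
      rw [hy, qd, lp_smul_coeff, ← hu]
      ring
    have hw : ∀ l, wt F (ev d.c t) (ev d.V t) (yy F d (v l)) (Polynomial.aeval t d.U) (κ * u) =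
        κ * W := by
      intro l
      rw [hy, wt, hs_smul_left, hWdef]
      ring
    have hDD : ∀ l, DD1 F d (v l) = fun j => κ * W * κ * x j := by
      intro l
      change Sec F (ev d.c t) (ev d.V t) (yy F d (v l)) (Polynomial.aeval t d.U) (κ * u) = _
      funext j
      rw [Sec, hw, hq, hy]
      ring
    have key : ∀ l : M, l ≠ 0 → (lp N x (ev d.c t)).eval l = 0 := by
      intro l hl
      have h1 := pv (v l) (l * (κ * W * κ))⁻¹
      rw [hDD] at h1
      rw [lp_eval, ← h1]
      congr 2
      funext j
      change x j + ev d.c t j * l = l * (ev d.c t j + κ * W * κ * x j * (l * (κ * W * κ))⁻¹)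
      field_simp
      ring
    have hz : lp N x (ev d.c t) = 0 := eq_zero_of_infinite (S := {0}) (fun l hl =>
      key l (by simpa using hl))
    rw [← lp_coeff_zero N x (ev d.c t), hz, Polynomial.coeff_zero]
  -- step 2
  have s2 : ∀ (t : M) (y : ι → M), (lp F (ev d.c t) (cst M d.a)).coeff 1 ≠ 0 →
      (lp F (ev d.c t) y).coeff 1 = 0 →
      TT F (ev d.c t) (ev d.V t) y (Polynomial.aeval t d.U) ≠ 0 →
      ∀ x : ι → M, (lp F (ev d.c t) x).coeff 1 = 0 → aeval x N = 0 := by
    intro t y hk hy hTy x hx
    set u0 := Polynomial.aeval t d.U with hu0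
    set p := ev d.c t with hp
    set v := ev d.V t with hv
    set Tp : Polynomial M :=
      (Polynomial.C (hs F p x v) + Polynomial.C (hs F p y v) * Polynomial.X) ^ 2 -
        Polynomial.C (2 * u0 ^ 2) * (Polynomial.C (hs F p x x) +
          Polynomial.C (2 * hs F p x y) * Polynomial.X +
          Polynomial.C (hs F p y y) * Polynomial.X ^ 2) with hTp
    have hTe : ∀ l, Tp.eval l = TT F p v (fun j => x j + y j * l) u0 := by
      intro l
      have e1 : hs F p (fun j => x j + y j * l) (fun j => x j + y j * l) =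
          hs F p x x + 2 * l * hs F p x y + l ^ 2 * hs F p y y := by
        rw [hs_line, hs_comm F p x, hs_line, hs_comm F p y (fun j => x j + y j * l), hs_line,
          hs_comm F p y x]
        ring
      rw [TT, e1, hs_line, hTp]
      simp only [Polynomial.eval_sub, Polynomial.eval_pow, Polynomial.eval_add,
        Polynomial.eval_mul, Polynomial.eval_C, Polynomial.eval_X]
      ring
    have hT2 : Tp.coeff 2 = TT F p v y u0 := by
      have : Tp = Polynomial.C (hs F p x v ^ 2 - 2 * u0 ^ 2 * hs F p x x) +
          Polynomial.C (2 * hs F p x v * hs F p y v - 2 * u0 ^ 2 * (2 * hs F p x y)) *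
            Polynomial.X +
          Polynomial.C (hs F p y v ^ 2 - 2 * u0 ^ 2 * hs F p y y) * Polynomial.X ^ 2 := by
        rw [hTp]
        simp only [Polynomial.C_mul, Polynomial.C_sub, Polynomial.C_pow, map_ofNat]
        ring
      rw [this, TT, Polynomial.coeff_add, Polynomial.coeff_add, Polynomial.coeff_C,
        Polynomial.coeff_C_mul, Polynomial.coeff_X, Polynomial.coeff_C_mul, Polynomial.coeff_X_pow]
      norm_num
    have hTne : Tp ≠ 0 := by
      intro h0
      rw [h0, Polynomial.coeff_zero] at hT2
      exact hTy hT2.symm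
    have hz : lp N x y = 0 := by
      refine eq_zero_of_infinite (S := Tp.roots.toFinset) (fun l hl => ?_)
      rw [lp_eval]
      refine s1 t _ hk ?_ ?_
      · have := lp_coeff_one_add F p x y 1 l
        simp only [one_mul, hx, hy, mul_zero, add_zero] at this
        rw [← this]
        congr 3
        funext j
        ring
      · rw [← hTe]
        intro h0
        apply hl
        rw [Multiset.mem_toFinset, Polynomial.mem_roots hTne]
        exact h0
    rw [← lp_coeff_zero N x y, hz, Polynomial.coeff_zero]
  -- the good parameters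
  set e : K →+* M := algebraMap K M with he
  set YP : ι → Polynomial K := Dp F d.c (cst (Polynomial K) d.a) (cst (Polynomial K) D1) with hYP
  set κP : Polynomial K := (lp F d.c (cst (Polynomial K) d.a)).coeff 1 with hκP
  set mP : Polynomial K := κP * TT F d.c d.V YP d.U with hmP
  have hκe : ∀ t : M, Polynomial.aeval t κP = (lp F (ev d.c t) (cst M d.a)).coeff 1 := by
    intro t
    rw [hκP, lp_coeff_map, map_cst, ev_eq]
  have hκe1 : Polynomial.aeval t1 κP = (lp F (ev d.c t1) d.a).coeff 1 := by
    rw [hκP, lp_coeff_map, map_cst, ev_eq]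
    rfl
  have hYe : ∀ t : M, (fun j => Polynomial.aeval t (YP j)) =
      Dp F (ev d.c t) (cst M d.a) (cst M D1) := by
    intro t
    rw [hYP, map_Dp, map_cst, map_cst, ev_eq]
  have hYe1 : (fun j => Polynomial.aeval t1 (YP j)) =
      fun j => (lp F (ev d.c t1) d.a).coeff 1 * D1 j := by
    rw [hYP, map_Dp, map_cst, map_cst, ev_eq]
    funext j
    change (lp F (ev d.c t1) d.a).coeff 1 * D1 j - (lp F (ev d.c t1) D1).coeff 1 * d.a j = _
    rw [hD1]
    ring
  have hTe : ∀ t : M, Polynomial.aeval t (TT F d.c d.V YP d.U) =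
      TT F (ev d.c t) (ev d.V t) (Dp F (ev d.c t) (cst M d.a) (cst M D1))
        (Polynomial.aeval t d.U) := by
    intro t
    rw [map_TT, hYe, ev_eq, ev_eq]
  have hm1 : Polynomial.aeval t1 mP ≠ 0 := by
    rw [hmP, map_mul, hκe1, map_TT, hYe1, ev_eq, ev_eq]
    refine mul_ne_zero ha ?_
    have e1 : hs F (ev d.c t1) (fun j => (lp F (ev d.c t1) d.a).coeff 1 * D1 j)
        (fun j => (lp F (ev d.c t1) d.a).coeff 1 * D1 j) = 0 := by
      rw [hs_self, lp_smul_coeff, hD2]
      ring
    rw [TT, e1, mul_zero, sub_zero, hs_smul_left]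
    exact pow_ne_zero 2 (mul_ne_zero ha hW)
  have good : ∀ t : M, Polynomial.aeval t mP ≠ 0 →
      ∀ x : ι → M, (lp F (ev d.c t) x).coeff 1 = 0 → aeval x N = 0 := by
    intro t ht
    rw [hmP, map_mul, hκe, hTe] at ht
    exact s2 t _ (left_ne_zero_of_mul ht) (Dp_coeff_one F _ _ _) (right_ne_zero_of_mul ht)
  -- the linear forms
  set Gp : ι → Polynomial M := fun j => (aeval d.c (pderiv j F)).map e with hGp
  have evG : ∀ j (t : M), (Gp j).eval t = aeval (ev d.c t) (pderiv j F) := by
    intro j t
    rw [hGp]
    simp only [Polynomial.eval_map]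
    change Polynomial.aeval t (aeval d.c (pderiv j F)) = _
    rw [MvPolynomial.comp_aeval_apply (f := d.c) (Polynomial.aeval t : Polynomial K →ₐ[K] M)]
    rfl
  set pi : (ι → M) → Polynomial M := fun x => ∑ j, Polynomial.C (x j) * Gp j with hpi
  have hpi_ev : ∀ x (t : M), (pi x).eval t = (lp F (ev d.c t) x).coeff 1 := by
    intro x t
    rw [lp_coeff_one, hpi]
    simp [Polynomial.eval_finsetSum, evG]
  -- `π_{D₁}` is not zero
  have hcm : ∀ c : ι → Polynomial K, ev c (e t1) = cst M (ev c t1) := by
    intro c
    rw [← map_cst (Algebra.ofId K M) (ev c t1)]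
    change _ = fun j => Algebra.ofId K M (ev c t1 j)
    rw [map_ev]
    rfl
  have hz0 : pi (cst M D1) ≠ 0 := by
    intro h0
    -- over `K`
    have h1 : ∑ j, Polynomial.C (D1 j) * aeval d.c (pderiv j F) = 0 := by
      apply Polynomial.map_injective e e.injective
      rw [Polynomial.map_zero, ← h0, hpi, Polynomial.map_sum]
      refine Finset.sum_congr rfl fun j _ => ?_
      rw [Polynomial.map_mul, Polynomial.map_C]
      rfl
    have h2 := congrArg Polynomial.derivative h1
    rw [Polynomial.derivative_zero, Polynomial.derivative_sum] at h2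
    have h3 := congrArg (Polynomial.aeval t1) h2
    rw [map_sum, map_zero] at h3
    apply hc'
    rw [← h3, hs]
    refine Finset.sum_congr rfl fun j _ => ?_
    rw [Polynomial.derivative_mul, Polynomial.derivative_C, zero_mul, zero_add, map_mul,
      derivative_aeval, map_sum]
    congr 1
    · simp
    · refine Finset.sum_congr rfl fun k _ => ?_
      rw [map_mul, mul_comm]
      congr 1
      exact (MvPolynomial.comp_aeval_apply (f := d.c)
        (Polynomial.aeval t1 : Polynomial K →ₐ[K] K) (pderiv k (pderiv j F))).symm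
  -- step 3
  have s3 : ∀ x : ι → M, (pi x).eval (e t1) ≠ 0 → aeval x N = 0 := by
    intro x hx
    set z : ι → M := cst M D1 with hz
    have hzt : (pi z).eval (e t1) = 0 := by
      rw [hpi_ev, hcm, hz]
      have := lp_coeff_map (Algebra.ofId K M) F (ev d.c t1) D1 1
      rw [hD1, map_zero] at this
      exact this.symm
    set T : Set M := {t | (mP.map e * pi z).eval t ≠ 0} with hT
    have hne : mP.map e * pi z ≠ 0 := by
      refine mul_ne_zero ?_ hz0
      intro h0
      apply hm1
      have := (Polynomial.map_eq_zero_iff e.injective).mp h0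
      rw [this, map_zero]
    have hTinf : T.Infinite := by
      have h1 : Tᶜ ⊆ ((mP.map e * pi z).roots.toFinset : Set M) := by
        intro t ht
        rw [Finset.mem_coe, Multiset.mem_toFinset, Polynomial.mem_roots hne]
        by_contra h2
        exact ht h2
      have h2 : (Tᶜ).Finite := (Finset.finite_toSet _).subset h1
      exact fun h3 => Set.infinite_univ (by
        have := h3.union h2
        rwa [Set.union_compl_self] at this)
    set g : M → M := fun t => -((pi x).eval t / (pi z).eval t) with hg
    have himg : (g '' T).Infinite := by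
      intro hfin
      -- a fibre is infinite
      obtain ⟨s, -, hs⟩ : ∃ s ∈ g '' T, {t ∈ T | g t = s}.Infinite := by
        by_contra hcon
        push Not at hcon
        apply hTinf
        have : T = ⋃ s ∈ g '' T, {t ∈ T | g t = s} := by
          ext t
          simp only [Set.mem_iUnion, Set.mem_sep_iff, exists_prop]
          exact ⟨fun ht => ⟨g t, ⟨t, ht, rfl⟩, ht, rfl⟩, fun ⟨_, _, ht, _⟩ => ht⟩
        rw [this]
        exact hfin.biUnion hcon
      have h1 : pi x + Polynomial.C s * pi z = 0 := by
        apply Polynomial.eq_zero_of_infinite_isRoot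
        refine hs.mono ?_
        rintro t ⟨ht, hgt⟩
        rw [Set.mem_ofPred_eq, Polynomial.IsRoot.def, Polynomial.eval_add, Polynomial.eval_mul,
          Polynomial.eval_C, ← hgt, hg]
        have hzt : (pi z).eval t ≠ 0 := by
          intro h0
          apply ht
          rw [Polynomial.eval_mul, h0, mul_zero]
        field_simp
        ring
      have h2 := congrArg (Polynomial.eval (e t1)) h1
      rw [Polynomial.eval_add, Polynomial.eval_mul, hzt, mul_zero, add_zero,
        Polynomial.eval_zero] at h2
      exact hx h2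
    have hz1 : lp N x z = 0 := by
      apply Polynomial.eq_zero_of_infinite_isRoot
      refine himg.mono ?_
      rintro _ ⟨t, ht, rfl⟩
      rw [Set.mem_ofPred_eq, Polynomial.IsRoot.def, lp_eval]
      have ht1 : Polynomial.aeval t mP ≠ 0 := by
        intro h0
        apply ht
        rw [Polynomial.eval_mul, Polynomial.eval_map]
        change Polynomial.aeval t mP * _ = 0
        rw [h0, zero_mul]
      have hzt : (pi z).eval t ≠ 0 := by
        intro h0
        apply ht
        rw [Polynomial.eval_mul, h0, mul_zero]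
      refine good t ht1 _ ?_
      have := lp_coeff_one_add F (ev d.c t) x z 1 (g t)
      simp only [one_mul] at this
      have e1 : (fun j => x j + z j * g t) = fun j => x j + g t * z j := by
        funext j; ring
      rw [e1, this, ← hpi_ev, ← hpi_ev, hg]
      field_simp
      ring
    rw [← lp_coeff_zero N x z, hz1, Polynomial.coeff_zero]
  -- step 4
  have hlin : lin (fun j => (Gp j).eval (e t1)) ≠ 0 := by
    have : ∃ j, (Gp j).eval (e t1) ≠ 0 := by
      by_contra hcon
      push Not at hcon
      apply ha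
      rw [lp_coeff_one]
      refine Finset.sum_eq_zero fun j _ => ?_
      have h1 := hcon j
      rw [evG, hcm] at h1
      have h2 : e (aeval (ev d.c t1) (pderiv j F)) = 0 := by
        rw [← h1]
        exact MvPolynomial.comp_aeval_apply (f := ev d.c t1) (Algebra.ofId K M) (pderiv j F)
      rw [(map_eq_zero e).mp h2, mul_zero]
    obtain ⟨j, hj⟩ := this
    exact lin_ne_zero hj
  by_contra hN0
  apply mul_ne_zero hN0 hlin
  apply MvPolynomial.funext
  intro x
  rw [map_mul, map_zero, eval_lin]
  by_cases hx : (pi x).eval (e t1) = 0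
  · have : ∑ j, x j * (Gp j).eval (e t1) = (pi x).eval (e t1) := by
      rw [hpi]
      simp [Polynomial.eval_finsetSum]
    rw [this, hx, mul_zero]
  · have := s3 x hx
    rw [aeval_eval] at this
    rw [this, zero_mul]

end Pool.Agent.L0h9.Rat
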