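import Pool.Agent.L0h9.Rat.Conic

/-! Sections of families of conics over a curve `w² = f(s)`, near a simple zero of `f`. -/

namespace Pool.Agent.L0h9.Rat

open Polynomial

section

variable {Ω : Type*} [Field Ω]

theorem not_square {g : (Polynomial Ω)} (hg : g.eval 0 ≠ 0) {a b : (Polynomial Ω)} (h : a ^ 2 = b ^ 2 * (X * g)) :
    a = 0 ∧ b = 0 := by
  have hg0 : g ≠ 0 := by rintro rfl; simp at hg
  by_cases hb : b = 0
  · rw [hb] at h
    have : a ^ 2 = 0 := by rw [h]; ring
    exact ⟨pow_eq_zero_iff two_ne_zero |>.mp this, hb⟩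
  · exfalso
    have hXg : (X * g : (Polynomial Ω)) ≠ 0 := mul_ne_zero X_ne_zero hg0
    have ha : a ≠ 0 := by
      rintro rfl
      have : b ^ 2 * (X * g) = 0 := by rw [← h]; ring
      exact mul_ne_zero (pow_ne_zero 2 hb) hXg this
    have h1 := congrArg (rootMultiplicity 0) h
    have hX : rootMultiplicity 0 (X : (Polynomial Ω)) = 1 := by
      have := rootMultiplicity_X_sub_C_self (R := Ω) (x := 0)
      rwa [C_0, sub_zero] at this
    rw [pow_two, pow_two, rootMultiplicity_mul (mul_ne_zero ha ha),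
      rootMultiplicity_mul (mul_ne_zero (mul_ne_zero hb hb) hXg),
      rootMultiplicity_mul (mul_ne_zero hb hb), rootMultiplicity_mul hXg, hX,
      rootMultiplicity_eq_zero hg] at h1
    omega

/-- Normal forms modulo `w² - f`. -/
theorem normal_form (f : (Polynomial Ω)) (h : Polynomial (Polynomial Ω)) :
    ∃ (a b : (Polynomial Ω)) (q : Polynomial (Polynomial Ω)), h = C a + C b * X + (X ^ 2 - C f) * q := by
  set Q : Polynomial (Polynomial Ω) := X ^ 2 - C f with hQ
  have hQm : Q.Monic := monic_X_pow_sub_C _ (by norm_num)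
  have hQd : Q.natDegree = 2 := natDegree_X_pow_sub_C
  have hrd : (h %ₘ Q).natDegree < 2 := by
    have := natDegree_modByMonic_lt h hQm (by
      intro h1
      rw [h1] at hQd
      simp at hQd)
    rwa [hQd] at this
  refine ⟨(h %ₘ Q).coeff 0, (h %ₘ Q).coeff 1, h /ₘ Q, ?_⟩
  have h1 : h = h %ₘ Q + Q * (h /ₘ Q) := (modByMonic_add_div h Q).symm
  conv_lhs => rw [h1]
  congr 1
  ext1 k
  rcases Nat.lt_or_ge k 2 with hk | hk
  · interval_cases k
    · simp
    · simp [coeff_C]
  · rw [coeff_eq_zero_of_natDegree_lt (by omega)]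
    rw [coeff_add, coeff_C, coeff_C_mul, coeff_X, if_neg (by omega), if_neg (by omega)]
    simp

end

section abs

variable {Ω : Type*} [Field Ω] [IsAlgClosed Ω] [CharZero Ω] {L : Type*} [Field L]
  [Algebra (RatFunc Ω) L]

/-- Tsen's theorem for conics. -/
theorem conic_field [FiniteDimensional (RatFunc Ω) L] (A B C : L) :
    ∃ x y u : L, (x ≠ 0 ∨ y ≠ 0 ∨ u ≠ 0) ∧ OnConic A B C x y u := by
  have hc1 : CharZero (RatFunc Ω) := charZero_of_injective_algebraMap
      (FaithfulSMul.algebraMap_injective Ω (RatFunc Ω))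
  have hc2 : CharZero L := charZero_of_injective_algebraMap
      (algebraMap (RatFunc Ω) L).injective
  have h20 : (2 : L) ≠ 0 := two_ne_zero
  by_cases hA : A = 0
  · exact ⟨1, 0, 0, Or.inl one_ne_zero, by simp [OnConic, hA]⟩
  · obtain ⟨u, x, y, hne, h⟩ := Pool.Agent.H918R3.tsen_conic (k := Ω) (L := L) A
      (C - B ^ 2 / (4 * A))
    have h40 : (4 : L) ≠ 0 := by norm_num
    refine ⟨x - B / (2 * A) * y, y, u, ?_, ?_⟩
    · by_contra hcon
      push Not at hcon
      obtain ⟨h1, h2, h3⟩ := hcon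
      rw [h2, mul_zero, sub_zero] at h1
      rcases hne with h4 | h4 | h4
      · exact h4 h3
      · exact h4 h1
      · exact h4 h2
    · rw [OnConic]
      have e : A * (x - B / (2 * A) * y) ^ 2 + B * ((x - B / (2 * A) * y) * y) + C * y ^ 2 =
          A * x ^ 2 + (C - B ^ 2 / (4 * A)) * y ^ 2 := by
        field_simp
        ring
      rw [e]
      linear_combination -h

/-- The inclusion of the polynomials. -/
noncomputable def jj (Ω L : Type*) [Field Ω] [Field L] [Algebra (RatFunc Ω) L] : (Polynomial Ω) →+* L :=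
  (algebraMap (RatFunc Ω) L).comp (algebraMap (Polynomial Ω) (RatFunc Ω))

omit [IsAlgClosed Ω] [CharZero Ω] in
theorem jj_injective : Function.Injective (jj Ω L) :=
  (algebraMap (RatFunc Ω) L).injective.comp (IsFractionRing.injective (Polynomial Ω) (RatFunc Ω))

variable {g : (Polynomial Ω)} {ρ : L}

omit [IsAlgClosed Ω] [CharZero Ω] in
theorem descent (hg : g.eval 0 ≠ 0) (hρ : ρ ^ 2 = jj Ω L (X * g)) (A B C : L) :
    ∀ n : ℕ, ∀ (a b : Fin 3 → (Polynomial Ω)) (i : Fin 3) (h : (Polynomial Ω)),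
      OnConic A B C (jj Ω L (a 0) + jj Ω L (b 0) * ρ) (jj Ω L (a 1) + jj Ω L (b 1) * ρ)
        (jj Ω L (a 2) + jj Ω L (b 2) * ρ) →
      a i ^ 2 - b i ^ 2 * (X * g) = X ^ n * h → h.eval 0 ≠ 0 →
      ∃ (a b : Fin 3 → (Polynomial Ω)) (i : Fin 3),
        OnConic A B C (jj Ω L (a 0) + jj Ω L (b 0) * ρ) (jj Ω L (a 1) + jj Ω L (b 1) * ρ)
          (jj Ω L (a 2) + jj Ω L (b 2) * ρ) ∧ (a i).eval 0 ≠ 0 := by
  have hg0 : g ≠ 0 := by rintro rfl; simp at hg
  have hXg : (X * g : (Polynomial Ω)) ≠ 0 := mul_ne_zero X_ne_zero hg0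
  have hρ0 : ρ ≠ 0 := by
    rintro rfl
    apply hXg
    apply jj_injective (L := L)
    rw [← hρ, map_zero]
    ring
  intro n
  induction n with
  | zero =>
    intro a b i h hC hN h0
    refine ⟨a, b, i, hC, ?_⟩
    intro ha
    apply h0
    have := congrArg (eval 0) hN
    simp only [eval_sub, eval_mul, eval_pow, eval_X, ha, pow_zero, one_mul] at this
    rw [← this]
    ring
  | succ n ih =>
    intro a b i h hC hN h0
    by_cases hall : ∃ i, (a i).eval 0 ≠ 0
    · obtain ⟨i, hi⟩ := hall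
      exact ⟨a, b, i, hC, hi⟩
    · push Not at hall
      have hdiv : ∀ i, ∃ a1 : (Polynomial Ω), a i = X * a1 := by
        intro i
        obtain ⟨a1, h1⟩ := Polynomial.dvd_iff_isRoot.mpr (hall i)
        exact ⟨a1, by rw [h1, C_0, sub_zero]⟩
      choose a1 ha1 using hdiv
      have key : ∀ i, ρ * (jj Ω L (b i * g) + jj Ω L (a1 i) * ρ) =
          jj Ω L g * (jj Ω L (a i) + jj Ω L (b i) * ρ) := by
        intro i
        rw [ha1 i]
        simp only [map_mul] at hρ ⊢
        linear_combination (jj Ω L (a1 i)) * hρ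
      refine ih (fun i => b i * g) a1 i (-g * h) ?_ ?_ ?_
      · rw [OnConic] at hC ⊢
        apply mul_left_cancel₀ (pow_ne_zero 2 hρ0)
        have k0 := key 0
        have k1 := key 1
        have k2 := key 2
        set z0 := jj Ω L (b 0 * g) + jj Ω L (a1 0) * ρ
        set z1 := jj Ω L (b 1 * g) + jj Ω L (a1 1) * ρ
        set z2 := jj Ω L (b 2 * g) + jj Ω L (a1 2) * ρ
        have e : ρ ^ 2 * (A * z0 ^ 2 + B * (z0 * z1) + C * z1 ^ 2) =
            A * (ρ * z0) ^ 2 + B * ((ρ * z0) * (ρ * z1)) + C * (ρ * z1) ^ 2 := by ring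
        have e' : ρ ^ 2 * z2 ^ 2 = (ρ * z2) ^ 2 := by ring
        rw [e, e', k0, k1, k2]
        linear_combination (jj Ω L g) ^ 2 * hC
      · have hX : (X : (Polynomial Ω)) ≠ 0 := X_ne_zero
        apply mul_left_cancel₀ hX
        rw [ha1 i] at hN
        linear_combination (-g) * hN
      · rw [eval_mul, eval_neg]
        exact mul_ne_zero (neg_ne_zero.mpr hg) h0

/-- The section over `L`. -/
theorem sect_abs [FiniteDimensional (RatFunc Ω) L] (hg : g.eval 0 ≠ 0)
    (hρ : ρ ^ 2 = jj Ω L (X * g))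
    (hspan : ∀ z : L, ∃ α β : RatFunc Ω,
      z = algebraMap (RatFunc Ω) L α + algebraMap (RatFunc Ω) L β * ρ)
    (A B C' : Polynomial (Polynomial Ω)) (hA : evalEval 0 0 A = 0) (hB : evalEval 0 0 B ≠ 0) :
    ∃ x y u : Polynomial (Polynomial Ω), evalEval 0 0 y ≠ 0 ∧ ∀ s w : Ω, w ^ 2 = (X * g).eval s →
      OnConic (evalEval s w A) (evalEval s w B) (evalEval s w C') (evalEval s w x)
        (evalEval s w y) (evalEval s w u) := by
  classical
  have hg0 : g ≠ 0 := by rintro rfl; simp at hg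
  set j := jj Ω L with hj
  have jinj : Function.Injective j := jj_injective
  set Λ : Polynomial (Polynomial Ω) →+* L := eval₂RingHom j ρ with hΛ
  have Λl : ∀ a b : (Polynomial Ω), Λ (C a + C b * X) = j a + j b * ρ := by
    intro a b
    rw [hΛ]
    simp
  have ΛQ : Λ (X ^ 2 - C (X * g)) = 0 := by
    rw [hΛ, coe_eval₂RingHom, eval₂_sub, eval₂_pow, eval₂_X, eval₂_C, hρ, sub_self]
  -- the kernel
  have K1 : ∀ h : Polynomial (Polynomial Ω), Λ h = 0 → ∀ s w : Ω, w ^ 2 = (X * g).eval s →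
      evalEval s w h = 0 := by
    intro h hh s w hw
    obtain ⟨a, b, q, rfl⟩ := normal_form (X * g) h
    rw [map_add, map_mul Λ (X ^ 2 - C (X * g)), ΛQ, zero_mul, add_zero, Λl] at hh
    have h1 : a ^ 2 = b ^ 2 * (X * g) := by
      apply jinj
      rw [map_pow, map_mul j, map_pow, ← hρ]
      linear_combination (j a - j b * ρ) * hh
    obtain ⟨rfl, rfl⟩ := not_square hg h1
    have h2 : evalEval s w (X ^ 2 - C (X * g)) = 0 := by
      rw [evalEval, eval_sub, eval_pow, eval_X, eval_C, eval_sub, eval_pow, eval_C, hw, sub_self]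
    rw [evalEval_add, evalEval_mul, h2]
    simp [evalEval]
  -- clearing denominators
  have K2 : ∀ z : L, ∃ D a b : (Polynomial Ω), D ≠ 0 ∧ j D * z = j a + j b * ρ := by
    intro z
    obtain ⟨α, β, rfl⟩ := hspan z
    refine ⟨α.denom * β.denom, α.num * β.denom, β.num * α.denom,
      mul_ne_zero α.denom_ne_zero β.denom_ne_zero, ?_⟩
    have e1 : algebraMap (Polynomial Ω) (RatFunc Ω) α.denom * α = algebraMap (Polynomial Ω) (RatFunc Ω) α.num := by
      have h0 : algebraMap (Polynomial Ω) (RatFunc Ω) α.denom ≠ 0 := by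
        rw [Ne, map_eq_zero_iff _ (IsFractionRing.injective (Polynomial Ω) (RatFunc Ω))]
        exact α.denom_ne_zero
      have := RatFunc.num_div_denom α
      rw [div_eq_iff h0] at this
      rw [this, mul_comm]
    have e2 : algebraMap (Polynomial Ω) (RatFunc Ω) β.denom * β = algebraMap (Polynomial Ω) (RatFunc Ω) β.num := by
      have h0 : algebraMap (Polynomial Ω) (RatFunc Ω) β.denom ≠ 0 := by
        rw [Ne, map_eq_zero_iff _ (IsFractionRing.injective (Polynomial Ω) (RatFunc Ω))]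
        exact β.denom_ne_zero
      have := RatFunc.num_div_denom β
      rw [div_eq_iff h0] at this
      rw [this, mul_comm]
    have f1 := congrArg (algebraMap (RatFunc Ω) L) e1
    have f2 := congrArg (algebraMap (RatFunc Ω) L) e2
    rw [map_mul] at f1 f2
    change j α.denom * _ = j α.num at f1
    change j β.denom * _ = j β.num at f2
    rw [map_mul, map_mul, map_mul]
    linear_combination (j β.denom) * f1 + (j α.denom * ρ) * f2
  -- Tsen
  obtain ⟨x, y, u, hne, hC⟩ := conic_field (Ω := Ω) (L := L) (Λ A) (Λ B) (Λ C')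
  obtain ⟨D0, a0, b0, hD0, h0⟩ := K2 x
  obtain ⟨D1, a1, b1, hD1, h1⟩ := K2 y
  obtain ⟨D2, a2, b2, hD2, h2⟩ := K2 u
  set a : Fin 3 → (Polynomial Ω) := ![a0 * (D1 * D2), a1 * (D0 * D2), a2 * (D0 * D1)] with ha
  set b : Fin 3 → (Polynomial Ω) := ![b0 * (D1 * D2), b1 * (D0 * D2), b2 * (D0 * D1)] with hb
  have hD : j (D0 * D1 * D2) ≠ 0 := by
    rw [Ne, map_eq_zero_iff _ jinj]
    exact mul_ne_zero (mul_ne_zero hD0 hD1) hD2
  have v0 : j (a 0) + j (b 0) * ρ = j (D0 * D1 * D2) * x := by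
    change j (a0 * (D1 * D2)) + j (b0 * (D1 * D2)) * ρ = _
    simp only [map_mul]
    linear_combination (-(j D1 * j D2)) * h0
  have v1 : j (a 1) + j (b 1) * ρ = j (D0 * D1 * D2) * y := by
    change j (a1 * (D0 * D2)) + j (b1 * (D0 * D2)) * ρ = _
    simp only [map_mul]
    linear_combination (-(j D0 * j D2)) * h1
  have v2 : j (a 2) + j (b 2) * ρ = j (D0 * D1 * D2) * u := by
    change j (a2 * (D0 * D1)) + j (b2 * (D0 * D1)) * ρ = _
    simp only [map_mul]
    linear_combination (-(j D0 * j D1)) * h2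
  have hC1 : OnConic (Λ A) (Λ B) (Λ C') (j (a 0) + j (b 0) * ρ) (j (a 1) + j (b 1) * ρ)
      (j (a 2) + j (b 2) * ρ) := by
    rw [v0, v1, v2, OnConic]
    rw [OnConic] at hC
    linear_combination (j (D0 * D1 * D2)) ^ 2 * hC
  obtain ⟨i, hi⟩ : ∃ i : Fin 3, j (a i) + j (b i) * ρ ≠ 0 := by
    rcases hne with hx | hx | hx
    · exact ⟨0, by rw [v0]; exact mul_ne_zero hD hx⟩
    · exact ⟨1, by rw [v1]; exact mul_ne_zero hD hx⟩
    · exact ⟨2, by rw [v2]; exact mul_ne_zero hD hx⟩
  have hN0 : a i ^ 2 - b i ^ 2 * (X * g) ≠ 0 := by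
    intro h3
    obtain ⟨h4, h5⟩ := not_square hg (sub_eq_zero.mp h3)
    apply hi
    rw [h4, h5]
    simp
  obtain ⟨h, hh1, hh2⟩ := Polynomial.exists_eq_pow_rootMultiplicity_mul_and_not_dvd _ hN0 0
  rw [C_0, sub_zero] at hh1 hh2
  have hh0 : h.eval 0 ≠ 0 := by
    intro h6
    apply hh2
    have := Polynomial.dvd_iff_isRoot.mpr h6
    rwa [C_0, sub_zero] at this
  obtain ⟨a', b', i', hC2, hi'⟩ := descent hg hρ (Λ A) (Λ B) (Λ C') _ a b i h hC1 hh1 hh0
  -- the polynomials
  set x' : Fin 3 → Polynomial (Polynomial Ω) := fun i => C (a' i) + C (b' i) * X with hx'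
  have hx0 : ∀ i, evalEval 0 0 (x' i) = (a' i).eval 0 := by
    intro i
    simp [hx', evalEval]
  have hpt : ∀ s w : Ω, w ^ 2 = (X * g).eval s →
      OnConic (evalEval s w A) (evalEval s w B) (evalEval s w C') (evalEval s w (x' 0))
        (evalEval s w (x' 1)) (evalEval s w (x' 2)) := by
    intro s w hw
    have h3 := K1 (A * x' 0 ^ 2 + B * (x' 0 * x' 1) + C' * x' 1 ^ 2 - x' 2 ^ 2) (by
      simp only [map_sub, map_add, map_mul, map_pow]
      rw [hx', Λl, Λl, Λl]
      exact sub_eq_zero.mpr hC2) s w hw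
    rw [← coe_evalEvalRingHom] at h3 ⊢
    simp only [map_sub, map_add, map_mul, map_pow] at h3
    exact sub_eq_zero.mp h3
  by_cases hy : evalEval 0 0 (x' 1) = 0
  · have h00 : (0 : Ω) ^ 2 = (X * g).eval 0 := by simp
    have hp0 := hpt 0 0 h00
    rw [OnConic, hA, hy] at hp0
    have hu : evalEval 0 0 (x' 2) = 0 := by
      have : (evalEval 0 0 (x' 2)) ^ 2 = 0 := by rw [← hp0]; ring
      exact pow_eq_zero_iff two_ne_zero |>.mp this
    have hx : evalEval 0 0 (x' 0) ≠ 0 := by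
      rw [hx0] at hy hu ⊢
      fin_cases i'
      · exact hi'
      · exact absurd hy hi'
      · exact absurd hu hi'
    refine ⟨C' * x' 0, -(B * x' 0) - C' * x' 1, C' * x' 2, ?_, ?_⟩
    · rw [← coe_evalEvalRingHom] at hy hx hB ⊢
      rw [map_sub, map_neg, map_mul, map_mul, hy, mul_zero, sub_zero]
      exact neg_ne_zero.mpr (mul_ne_zero hB hx)
    · intro s w hw
      have h3 := hpt s w hw
      rw [← coe_evalEvalRingHom] at h3 ⊢
      rw [OnConic] at h3 ⊢
      simp only [map_sub, map_neg, map_mul]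
      linear_combination (evalEvalRingHom s w C') ^ 2 * h3
  · exact ⟨x' 0, x' 1, x' 2, hy, hpt⟩

end abs

/-- The section over the curve `w² = X g`. -/
theorem sect_curve {Ω : Type*} [Field Ω] [IsAlgClosed Ω] [CharZero Ω] {g : (Polynomial Ω)}
    (hg : g.eval 0 ≠ 0) (A B C' : Polynomial (Polynomial Ω)) (hA : evalEval 0 0 A = 0)
    (hB : evalEval 0 0 B ≠ 0) :
    ∃ x y u : Polynomial (Polynomial Ω), evalEval 0 0 y ≠ 0 ∧ ∀ s w : Ω, w ^ 2 = (X * g).eval s →
      OnConic (evalEval s w A) (evalEval s w B) (evalEval s w C') (evalEval s w x)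
        (evalEval s w y) (evalEval s w u) := by
  set φ : RatFunc Ω := algebraMap (Polynomial Ω) (RatFunc Ω) (X * g) with hφ
  have hirr : Irreducible (X ^ 2 - C φ : (RatFunc Ω)[X]) := by
    refine X_pow_sub_C_irreducible_of_prime Nat.prime_two ?_
    intro b hb
    have h0 : algebraMap (Polynomial Ω) (RatFunc Ω) b.denom ≠ 0 := by
      rw [Ne, map_eq_zero_iff _ (IsFractionRing.injective (Polynomial Ω) (RatFunc Ω))]
      exact b.denom_ne_zero
    have h1 := RatFunc.num_div_denom b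
    rw [← h1, div_pow, div_eq_iff (pow_ne_zero 2 h0), hφ] at hb
    have h2 : b.num ^ 2 = b.denom ^ 2 * (X * g) := by
      apply IsFractionRing.injective (Polynomial Ω) (RatFunc Ω)
      rw [map_pow, map_mul, map_pow, hb]
      ring
    exact b.denom_ne_zero (not_square hg h2).2
  have : Fact (Irreducible (X ^ 2 - C φ : (RatFunc Ω)[X])) := ⟨hirr⟩
  have hm : (X ^ 2 - C φ : (RatFunc Ω)[X]).Monic := monic_X_pow_sub_C _ (by norm_num)
  have hfin : FiniteDimensional (RatFunc Ω) (AdjoinRoot (X ^ 2 - C φ : (RatFunc Ω)[X])) :=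
    hm.finite_adjoinRoot
  refine sect_abs (L := AdjoinRoot (X ^ 2 - C φ : (RatFunc Ω)[X])) (ρ := AdjoinRoot.root _) hg
    ?_ ?_ A B C' hA hB
  · have h1 := AdjoinRoot.eval₂_root (X ^ 2 - C φ : (RatFunc Ω)[X])
    rw [eval₂_sub, eval₂_pow, eval₂_X, eval₂_C, sub_eq_zero] at h1
    rw [h1]
    rfl
  · intro z
    obtain ⟨p, rfl⟩ := AdjoinRoot.mk_surjective z
    set Q : (RatFunc Ω)[X] := X ^ 2 - C φ with hQ
    have hQd : Q.natDegree = 2 := natDegree_X_pow_sub_C
    have hrd : (p %ₘ Q).natDegree < 2 := by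
      have := natDegree_modByMonic_lt p hm (by
        intro h1
        rw [h1] at hQd
        simp at hQd)
      rwa [hQd] at this
    refine ⟨(p %ₘ Q).coeff 0, (p %ₘ Q).coeff 1, ?_⟩
    have h1 : p = p %ₘ Q + Q * (p /ₘ Q) := (modByMonic_add_div p Q).symm
    have h2 : p %ₘ Q = C ((p %ₘ Q).coeff 0) + C ((p %ₘ Q).coeff 1) * X := by
      ext1 k
      rcases Nat.lt_or_ge k 2 with hk | hk
      · interval_cases k
        · simp
        · simp [coeff_C]
      · rw [coeff_eq_zero_of_natDegree_lt (by omega)]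
        rw [coeff_add, coeff_C, coeff_C_mul, coeff_X, if_neg (by omega), if_neg (by omega)]
        simp
    conv_lhs => rw [h1, map_add, map_mul, AdjoinRoot.mk_self, zero_mul, add_zero, h2]
    rw [map_add, map_mul, AdjoinRoot.mk_X, AdjoinRoot.mk_C, AdjoinRoot.mk_C]
    rfl

end Pool.Agent.L0h9.Rat
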