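import Pool.Agent.L0h9.Rat.EP
import Pool.Agent.L0h9.Rat.ET

/-! Functions on the curve `w² = f(s)`, and density. -/

namespace Pool.Agent.L0h9.Rat

open MvPolynomial Pool.Agent.H952R2 Pool.Agent.H952R2.Sextic

section

variable {Ω : Type*} [Field Ω]

/-- The equation of the curve. -/
noncomputable def eqn (f : Polynomial Ω) : MvPolynomial (Fin 2) Ω :=
  X 1 ^ 2 - Polynomial.aeval (X 0) f

theorem nf2 (f : Polynomial Ω) (h : MvPolynomial (Fin 2) Ω) :
    ∃ (a b : Polynomial Ω) (k : MvPolynomial (Fin 2) Ω),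
      h = Polynomial.aeval (X 0) a + Polynomial.aeval (X 0) b * X 1 + eqn f * k := by
  unfold eqn
  induction h using MvPolynomial.induction_on with
  | C a => exact ⟨Polynomial.C a, 0, 0, by simp [MvPolynomial.algebraMap_eq]⟩
  | add p q hp hq =>
    obtain ⟨a, b, k, rfl⟩ := hp
    obtain ⟨a', b', k', rfl⟩ := hq
    exact ⟨a + a', b + b', k + k', by simp only [map_add]; ring⟩
  | mul_X p i hp =>
    obtain ⟨a, b, k, rfl⟩ := hp
    fin_cases i
    · exact ⟨a * Polynomial.X, b * Polynomial.X, k * X 0, by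
        simp only [map_mul, Polynomial.aeval_X, Fin.zero_eta]; ring⟩
    · exact ⟨b * f, a, k * X 1 + Polynomial.aeval (X 0) b, by
        simp only [map_mul, Fin.mk_one]; ring⟩

theorem eval_inner (t : Fin 2 → Ω) (a : Polynomial Ω) :
    eval t (Polynomial.aeval (X 0) a) = a.eval (t 0) := by
  have h := Polynomial.aeval_algHom_apply (aeval t : MvPolynomial (Fin 2) Ω →ₐ[Ω] Ω) (X 0) a
  rw [aeval_X, Polynomial.coe_aeval_eq_eval] at h
  rw [h]
  exact (aeval_eval t _).symm

theorem eval_eqn (t : Fin 2 → Ω) (f : Polynomial Ω) :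
    eval t (eqn f) = t 1 ^ 2 - f.eval (t 0) := by
  rw [eqn, map_sub, map_pow, eval_X, eval_inner]

/-- A function on the curve with infinitely many zeros. -/
theorem vanish_inf {g : Polynomial Ω} (hg : g.eval 0 ≠ 0) (h : MvPolynomial (Fin 2) Ω)
    {S : Set Ω} (hS : S.Infinite) (ω : Ω → Ω)
    (hω : ∀ s ∈ S, (ω s) ^ 2 = (Polynomial.X * g).eval s)
    (hv : ∀ s ∈ S, eval ![s, ω s] h = 0) :
    ∃ k, h = eqn (Polynomial.X * g) * k := by
  obtain ⟨a, b, k, rfl⟩ := nf2 (Polynomial.X * g) h
  have h1 : a ^ 2 - b ^ 2 * (Polynomial.X * g) = 0 := by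
    apply Polynomial.eq_zero_of_infinite_isRoot
    refine hS.mono ?_
    intro s hs
    have h2 := hv s hs
    have h3 := hω s hs
    rw [map_add, map_mul (eval ![s, ω s]) (eqn _), eval_eqn, map_add, map_mul, eval_X, eval_inner,
      eval_inner] at h2
    simp only [Matrix.cons_val_zero, Matrix.cons_val_one] at h2
    rw [h3, sub_self, zero_mul, add_zero] at h2
    rw [Set.mem_ofPred_eq, Polynomial.IsRoot.def, Polynomial.eval_sub, Polynomial.eval_pow,
      Polynomial.eval_mul (p := b ^ 2), Polynomial.eval_pow, ← h3]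
    linear_combination (a.eval s - b.eval s * ω s) * h2
  obtain ⟨rfl, rfl⟩ := not_square hg (sub_eq_zero.mp h1)
  exact ⟨k, by simp⟩

theorem eval_eqn_mul (f : Polynomial Ω) (k : MvPolynomial (Fin 2) Ω) {s w : Ω}
    (h : w ^ 2 = f.eval s) : eval ![s, w] (eqn f * k) = 0 := by
  rw [map_mul, eval_eqn]
  simp [h]

theorem pderiv_eqn_mul (g : Polynomial Ω) (k : MvPolynomial (Fin 2) Ω) :
    eval ![0, 0] (pderiv 1 (eqn (Polynomial.X * g) * k)) = 0 := by
  have h1 : eval (![0, 0] : Fin 2 → Ω) (eqn (Polynomial.X * g)) = 0 := by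
    rw [eval_eqn]
    simp
  have h2 : pderiv 1 (eqn (Polynomial.X * g)) = 2 * X 1 := by
    rw [eqn, map_sub, Derivation.map_aeval, pderiv_X_of_ne (by decide), smul_zero, sub_zero,
      Derivation.leibniz_pow, pderiv_X_self]
    simp
  rw [Derivation.leibniz, map_add, smul_eq_mul, smul_eq_mul, map_mul, map_mul, h1, h2]
  simp

end

/-- The chain rule. -/
theorem der_aeval {K A ι : Type*} [Field K] [CommRing A] [Algebra K A] [Fintype ι]
    (D : Derivation K A A) (c : ι → A) (F : MvPolynomial ι K) :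
    D (aeval c F) = ∑ j, aeval c (pderiv j F) * D (c j) := by
  induction F using MvPolynomial.induction_on with
  | C a =>
    simp
  | add p q hp hq =>
    simp only [map_add, hp, hq, add_mul, Finset.sum_add_distrib]
  | mul_X p i hp =>
    classical
    have h1 : ∀ x : ι, (aeval c) (pderiv x (p * X i)) * D (c x) =
        (if i = x then aeval c p * D (c i) else 0) +
          (aeval c (pderiv x p) * D (c x)) * c i := by
      intro x
      simp only [Derivation.leibniz, smul_eq_mul, pderiv_X, map_add, map_mul, aeval_X,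
        Pi.single_apply]
      split_ifs with h
      · subst h
        simp; ring
      · simp; ring
    simp only [h1, Finset.sum_add_distrib, Finset.sum_ite_eq, Finset.mem_univ, if_true,
      ← Finset.sum_mul, ← hp]
    rw [map_mul, aeval_X, Derivation.leibniz, smul_eq_mul, smul_eq_mul]
    ring

section density

variable {K : Type*} [Field K] {ι : Type*} [Fintype ι] {Ω : Type*} [Field Ω] [CharZero Ω]
  [Algebra K Ω] [IsAlgClosed Ω]

/-- The final step: a polynomial which vanishes on the tangent hyperplanes at infinitely many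
points of the curve vanishes. -/
theorem density_E {F : MvPolynomial ι K} {g : Polynomial Ω} (hg : g.eval 0 ≠ 0)
    (c : ι → MvPolynomial (Fin 2) Ω) (D1 a : ι → Ω)
    (ha : (lp F (fun j => eval ![0, 0] (c j)) a).coeff 1 ≠ 0)
    (hD1 : (lp F (fun j => eval ![0, 0] (c j)) D1).coeff 1 = 0)
    (hb : hs F (fun j => eval ![0, 0] (c j)) D1 (fun j => eval ![0, 0] (pderiv 1 (c j))) ≠ 0)
    {S : Set Ω} (hS : S.Infinite) (ω : Ω → Ω)
    (hω : ∀ s ∈ S, (ω s) ^ 2 = (Polynomial.X * g).eval s) (N : MvPolynomial ι Ω)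
    (hN : ∀ s ∈ S, ∀ x : ι → Ω, (lp F (fun j => eval ![s, ω s] (c j)) x).coeff 1 = 0 →
      aeval x N = 0) : N = 0 := by
  classical
  -- the linear forms
  set ψ : (Fin 2 → Ω) → (MvPolynomial (Fin 2) Ω →ₐ[K] Ω) := fun t =>
    (aeval t : MvPolynomial (Fin 2) Ω →ₐ[Ω] Ω).restrictScalars K with hψ
  have ψe : ∀ t z, ψ t z = eval t z := fun t z => aeval_eval t z
  set pi : (ι → Ω) → MvPolynomial (Fin 2) Ω := fun x => (lp F c (fun j => C (x j))).coeff 1 with hpi
  have hpi_ev : ∀ x t, eval t (pi x) = (lp F (fun j => eval t (c j)) x).coeff 1 := by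
    intro x t
    have h := lp_coeff_map (ψ t) F c (fun j => C (x j)) 1
    simp only [ψe, eval_C] at h
    exact h
  have hz1 : eval ![0, 0] (pderiv 1 (pi D1)) ≠ 0 := by
    intro h0
    apply hb
    refine Eq.trans ?_ h0
    rw [hpi]
    simp only [lp_coeff_one, map_sum, Derivation.leibniz, pderiv_C, add_zero,
      smul_eq_mul, map_mul, eval_C, mul_zero]
    rw [hs]
    refine Finset.sum_congr rfl fun j _ => ?_
    congr 1
    have h1 := der_aeval ((pderiv 1 : Derivation Ω (MvPolynomial (Fin 2) Ω)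
      (MvPolynomial (Fin 2) Ω)).restrictScalars K) c (pderiv j F)
    rw [Derivation.restrictScalars_apply] at h1
    rw [h1, map_sum]
    refine Finset.sum_congr rfl fun k _ => ?_
    have h2 := MvPolynomial.comp_aeval_apply (f := c) (ψ ![0, 0]) (pderiv k (pderiv j F))
    simp only [ψe] at h2
    rw [map_mul, h2, mul_comm]
    rfl
  -- the good points
  set S' : Set Ω := {s ∈ S | eval ![s, ω s] (pi D1) ≠ 0} with hS'
  have hS'inf : S'.Infinite := by
    have h1 : {s ∈ S | eval ![s, ω s] (pi D1) = 0}.Finite := by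
      by_contra hcon
      obtain ⟨k, hk⟩ := vanish_inf hg (pi D1) (S := {s ∈ S | eval ![s, ω s] (pi D1) = 0}) hcon ω
        (fun s hs => hω s hs.1) (fun s hs => hs.2)
      apply hz1
      rw [hk]
      exact pderiv_eqn_mul g k
    intro h2
    apply hS
    refine (h1.union h2).subset ?_
    intro s hs
    by_cases h3 : eval ![s, ω s] (pi D1) = 0
    · exact Or.inl ⟨hs, h3⟩
    · exact Or.inr ⟨hs, h3⟩
  have s3 : ∀ x : ι → Ω, eval ![0, 0] (pi x) ≠ 0 → aeval x N = 0 := by
    intro x hx
    have hzt : eval ![0, 0] (pi D1) = 0 := by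
      rw [hpi_ev]
      exact hD1
    set q : Ω → Ω := fun s => -(eval ![s, ω s] (pi x) / eval ![s, ω s] (pi D1)) with hq
    have himg : (q '' S').Infinite := by
      intro hfin
      obtain ⟨r, -, hr⟩ : ∃ r ∈ q '' S', {s ∈ S' | q s = r}.Infinite := by
        by_contra hcon
        push Not at hcon
        apply hS'inf
        have : S' = ⋃ r ∈ q '' S', {s ∈ S' | q s = r} := by
          ext s
          simp only [Set.mem_iUnion, Set.mem_sep_iff, exists_prop]
          exact ⟨fun ht => ⟨q s, ⟨s, ht, rfl⟩, ht, rfl⟩, fun ⟨_, _, ht, _⟩ => ht⟩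
        rw [this]
        exact hfin.biUnion hcon
      obtain ⟨k, hk⟩ := vanish_inf hg (pi x + C r * pi D1) hr ω (fun s hs => hω s hs.1.1) (by
        rintro s ⟨hs, hqs⟩
        rw [map_add, map_mul, eval_C, ← hqs, hq]
        have hzs : eval ![s, ω s] (pi D1) ≠ 0 := hs.2
        field_simp
        ring)
      have h2 := congrArg (eval (![0, 0] : Fin 2 → Ω)) hk
      rw [eval_eqn_mul _ _ (by simp), map_add, map_mul, hzt, mul_zero, add_zero] at h2
      exact hx h2
    have hz1 : lp N x D1 = 0 := by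
      apply Polynomial.eq_zero_of_infinite_isRoot
      refine himg.mono ?_
      rintro _ ⟨s, hs, rfl⟩
      rw [Set.mem_ofPred_eq, Polynomial.IsRoot.def, lp_eval]
      have hzs : eval ![s, ω s] (pi D1) ≠ 0 := hs.2
      refine hN s hs.1 _ ?_
      have := lp_coeff_one_add F (fun j => eval ![s, ω s] (c j)) x D1 1 (q s)
      simp only [one_mul] at this
      have e1 : (fun j => x j + D1 j * q s) = fun j => x j + q s * D1 j := by
        funext j; ring
      rw [e1, this, ← hpi_ev, ← hpi_ev, hq]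
      field_simp
      ring
    rw [← lp_coeff_zero N x D1, hz1, Polynomial.coeff_zero]
  -- the last step
  have : Infinite Ω := IsAlgClosed.instInfinite
  set G : ι → Ω := fun j => aeval (fun j => eval ![0, 0] (c j)) (pderiv j F) with hG
  have hlin : lin G ≠ 0 := by
    have : ∃ j, G j ≠ 0 := by
      by_contra hcon
      push Not at hcon
      apply ha
      rw [lp_coeff_one]
      refine Finset.sum_eq_zero fun j _ => ?_
      have h1 : aeval (fun j => eval ![0, 0] (c j)) (pderiv j F) = 0 := hcon j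
      rw [h1, mul_zero]
    obtain ⟨j, hj⟩ := this
    exact lin_ne_zero hj
  by_contra hN0
  apply mul_ne_zero hN0 hlin
  apply MvPolynomial.funext
  intro x
  rw [map_mul, map_zero, eval_lin]
  by_cases hx : eval ![0, 0] (pi x) = 0
  · rw [hpi_ev, lp_coeff_one] at hx
    rw [hG, hx, mul_zero]
  · have := s3 x hx
    rw [aeval_eval] at this
    rw [this, zero_mul]

end density

end Pool.Agent.L0h9.Rat
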