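import Pool.Agent.L0h9.Rat.Psi

/-! The general sextic which contains a rational normal curve. -/

namespace Pool.Agent.L0h9.Rat

open MvPolynomial Pool.Agent.H952R2 Pool.Agent.H952R2.Sextic Pool.Agent.H952R2.SexticDefs
  Pool.Agent.L0h9.Tri

/-- The vector with the entries `1` at the indices in `s`. -/
def vec (n : ℕ) (s : Finset ℕ) (A : Type*) [Zero A] [One A] : Fin (n + 1) → A :=
  fun j => if (j : ℕ) ∈ s then 1 else 0

theorem map_vec {A B : Type*} [CommRing A] [CommRing B] (φ : A →+* B) (n : ℕ) (s : Finset ℕ) :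
    (fun j => φ (vec n s A j)) = vec n s B := by
  funext j
  unfold vec
  split_ifs
  · exact map_one φ
  · exact map_zero φ

section special

variable (n : ℕ) (hn : 3 ≤ n)

/-- the index `k` -/
def ix (k : ℕ) (hk : k ≤ n) : Fin (n + 1) := ⟨k, Nat.lt_succ_of_le hk⟩

/-- The special form. -/
noncomputable def F0 : MvPolynomial (Fin (n + 1)) ℚ :=
  X (ix n 0 (by omega)) ^ 4 * (X (ix n 0 (by omega)) * X (ix n 2 (by omega)) -
    X (ix n 1 (by omega)) ^ 2) +
  (X (ix n 0 (by omega)) ^ 3 * X (ix n 3 hn) + X (ix n 0 (by omega)) ^ 2 * X (ix n 3 hn) ^ 2) *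
    (X (ix n 0 (by omega)) * X (ix n 3 hn) - X (ix n 1 (by omega)) * X (ix n 2 (by omega)))

theorem F0_homog : (F0 n hn).IsHomogeneous 6 := by
  have hX : ∀ i : Fin (n + 1), (X i : MvPolynomial (Fin (n + 1)) ℚ).IsHomogeneous 1 :=
    fun i => isHomogeneous_X ℚ i
  have h2 : ∀ i j k l : Fin (n + 1), (X i * X j - X k * X l : MvPolynomial (Fin (n + 1)) ℚ).IsHomogeneous 2 :=
    fun i j k l => ((hX i).mul (hX j)).sub ((hX k).mul (hX l))
  have e1 : (X (ix n 0 (by omega)) ^ 4 * (X (ix n 0 (by omega)) * X (ix n 2 (by omega)) -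
      X (ix n 1 (by omega)) ^ 2) : MvPolynomial (Fin (n + 1)) ℚ).IsHomogeneous 6 := by
    have := ((hX (ix n 0 (by omega))).pow 4).mul (h2 (ix n 0 (by omega)) (ix n 2 (by omega))
      (ix n 1 (by omega)) (ix n 1 (by omega)))
    rw [← pow_two] at this
    exact this
  have e2 : (X (ix n 0 (by omega)) ^ 3 * X (ix n 3 hn) + X (ix n 0 (by omega)) ^ 2 *
      X (ix n 3 hn) ^ 2 : MvPolynomial (Fin (n + 1)) ℚ).IsHomogeneous 4 :=
    (((hX _).pow 3).mul (hX _)).add (((hX _).pow 2).mul ((hX _).pow 2))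
  exact e1.add (e2.mul (h2 _ _ _ _))

theorem F0_curve {e : ℕ} (he : 2 ≤ e) : aeval (normalCurve n e ℚ) (F0 n hn) = 0 := by
  have h0 : normalCurve n e ℚ (ix n 0 (by omega)) = 1 := by
    simp [normalCurve, ix]
  have h1 : normalCurve n e ℚ (ix n 1 (by omega)) = Polynomial.X := by
    have : 1 ≤ e := by omega
    simp [normalCurve, ix, this]
  have h2 : normalCurve n e ℚ (ix n 2 (by omega)) = Polynomial.X ^ 2 := by
    simp [normalCurve, ix, he]
  rw [F0]
  simp only [map_add, map_sub, map_mul, map_pow, aeval_X, h0, h1, h2]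
  by_cases h3 : 3 ≤ e
  · have : normalCurve n e ℚ (ix n 3 hn) = Polynomial.X ^ 3 := by
      simp [normalCurve, ix, h3]
    rw [this]
    ring
  · have : normalCurve n e ℚ (ix n 3 hn) = 0 := by
      simp [normalCurve, ix, h3]
    rw [this]
    ring

/-- `F₀(p + σ x)` for `p = e₀` and `x₀ = 0`. -/
theorem lp_F0 (x : Fin (n + 1) → ℚ) (hx : x (ix n 0 (by omega)) = 0) :
    lp (F0 n hn) (vec n {0} ℚ) x =
      Polynomial.C (x (ix n 2 (by omega))) * Polynomial.X +
      Polynomial.C (x (ix n 3 hn) ^ 2 - x (ix n 1 (by omega)) ^ 2) * Polynomial.X ^ 2 +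
      Polynomial.C (x (ix n 3 hn) ^ 3 - x (ix n 1 (by omega)) * x (ix n 2 (by omega)) *
        x (ix n 3 hn)) * Polynomial.X ^ 3 -
      Polynomial.C (x (ix n 1 (by omega)) * x (ix n 2 (by omega)) * x (ix n 3 hn) ^ 2) *
        Polynomial.X ^ 4 := by
  have h0 : vec n {0} ℚ (ix n 0 (by omega)) = 1 := by simp [vec, ix]
  have h1 : vec n {0} ℚ (ix n 1 (by omega)) = 0 := by simp [vec, ix]
  have h2 : vec n {0} ℚ (ix n 2 (by omega)) = 0 := by simp [vec, ix]
  have h3 : vec n {0} ℚ (ix n 3 hn) = 0 := by simp [vec, ix]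
  rw [Sextic.lp, F0]
  simp only [map_add, map_sub, map_mul, map_pow, aeval_X, h0, h1, h2, h3, hx, Polynomial.C_1,
    Polynomial.C_0, zero_mul, add_zero, zero_add]
  ring

theorem coeff_F0 (x : Fin (n + 1) → ℚ) (hx : x (ix n 0 (by omega)) = 0) :
    (lp (F0 n hn) (vec n {0} ℚ) x).coeff 1 = x (ix n 2 (by omega)) ∧
    (lp (F0 n hn) (vec n {0} ℚ) x).coeff 2 = x (ix n 3 hn) ^ 2 - x (ix n 1 (by omega)) ^ 2 ∧
    (lp (F0 n hn) (vec n {0} ℚ) x).coeff 3 = x (ix n 3 hn) ^ 3 - x (ix n 1 (by omega)) *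
      x (ix n 2 (by omega)) * x (ix n 3 hn) := by
  rw [lp_F0 n hn x hx]
  refine ⟨?_, ?_, ?_⟩ <;>
    simp only [Polynomial.coeff_sub, Polynomial.coeff_add, Polynomial.coeff_C_mul,
      Polynomial.coeff_X_pow, Polynomial.coeff_X] <;> norm_num

theorem Psi_F0 : Psi (F0 n hn) (vec n {0} ℚ) (vec n {2} ℚ) (vec n {1} ℚ) (vec n {1, 3} ℚ) ≠ 0 := by
  obtain ⟨a1, a2, a3⟩ := coeff_F0 n hn (vec n {2} ℚ) (by simp [vec, ix])
  obtain ⟨b1, b2, b3⟩ := coeff_F0 n hn (vec n {1} ℚ) (by simp [vec, ix])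
  obtain ⟨d1, d2, d3⟩ := coeff_F0 n hn (vec n {1, 3} ℚ) (by simp [vec, ix])
  obtain ⟨e1, e2, e3⟩ := coeff_F0 n hn (fun j => vec n {1, 3} ℚ j + vec n {1} ℚ j)
    (by simp [vec, ix])
  refine Psi_ne_zero _ _ _ _ _ ?_ ?_ ?_ ?_ ?_ ?_
  · rw [a1]; simp [vec, ix]
  · rw [d1]; simp [vec, ix]
  · rw [d2]; simp [vec, ix]
  · rw [d3]; simp [vec, ix]
  · intro h0
    have h1 := hs_add_smul (F0 n hn) (vec n {0} ℚ) (vec n {1, 3} ℚ) (vec n {1} ℚ) 1 1
    simp only [one_mul] at h1
    rw [hs_self, hs_self, hs_self, h0, d2, b2, e2] at h1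
    simp [vec, ix] at h1
    norm_num at h1
  · rw [b2]; simp [vec, ix]

end special

/-- The generic sextic form. -/
noncomputable def Fgen (n : ℕ) : MvPolynomial (Fin (n + 1)) (MvPolynomial (Exponents n) ℚ) :=
  ∑ d : Exponents n, monomial d.1 (X d)

theorem mem_exponents {n : ℕ} (d : Fin (n + 1) →₀ ℕ) :
    d ∈ Finset.finsuppAntidiag (Finset.univ : Finset (Fin (n + 1))) 6 ↔ Finsupp.degree d = 6 := by
  rw [Finset.mem_finsuppAntidiag]
  constructor
  · rintro ⟨h, -⟩
    rw [Finsupp.degree_eq_sum]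
    exact h
  · intro h
    rw [Finsupp.degree_eq_sum] at h
    exact ⟨h, Finset.subset_univ _⟩

theorem map_Fgen {n : ℕ} {K : Type} [Field K] (F : MvPolynomial (Fin (n + 1)) K)
    (hF : F.IsHomogeneous 6) (φ : MvPolynomial (Exponents n) ℚ →+* K)
    (hφ : ∀ d : Exponents n, φ (X d) = coeff d.1 F) : map φ (Fgen n) = F := by
  classical
  ext m
  rw [Fgen, map_sum, coeff_sum]
  simp only [map_monomial, hφ, coeff_monomial]
  by_cases hm : m ∈ Finset.finsuppAntidiag (Finset.univ : Finset (Fin (n + 1))) 6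
  · rw [Finset.sum_eq_single (⟨m, hm⟩ : Exponents n)]
    · rw [if_pos rfl]
    · intro d _ hd
      rw [if_neg]
      intro h
      exact hd (Subtype.ext h)
    · intro h
      exact absurd (Finset.mem_univ _) h
  · rw [Finset.sum_eq_zero]
    · by_contra h
      apply hm
      rw [mem_exponents, Finsupp.degree_eq_weight_one]
      exact hF (Ne.symm h)
    · intro d _
      rw [if_neg]
      rintro rfl
      exact hm d.2

theorem tangent_curve {K Ω : Type*} [Field K] [Field Ω] [Algebra K Ω] {ι : Type*} [Fintype ι]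
    (F : MvPolynomial ι K) (c : ι → Polynomial Ω) (hc : aeval c F = 0) (t : Ω) :
    (lp F (fun j => (c j).eval t) (fun j => (Polynomial.derivative (c j)).eval t)).coeff 1 = 0 := by
  rw [lp_coeff_one]
  have h := derivative_aeval F c
  rw [hc, Polynomial.derivative_zero] at h
  have h2 := congrArg (Polynomial.eval t) h
  rw [Polynomial.eval_zero, Polynomial.eval_finsetSum] at h2
  rw [h2]
  refine Finset.sum_congr rfl fun j _ => ?_
  rw [Polynomial.eval_mul, mul_comm]
  congr 1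
  have h3 := MvPolynomial.comp_aeval_apply (f := c)
    ((Polynomial.aeval t : Polynomial Ω →ₐ[Ω] Ω).restrictScalars K) (pderiv j F)
  simp only [AlgHom.coe_restrictScalars', Polynomial.coe_aeval_eq_eval] at h3
  exact h3.symm

/-- Good directions over an algebraically closed field. -/
theorem exists_good {K Ω : Type} [Field K] [Field Ω] [CharZero Ω] [Algebra K Ω] [IsAlgClosed Ω]
    {n e : ℕ} (he : 2 ≤ e) (F : MvPolynomial (Fin (n + 1)) K)
    (hc : aeval (normalCurve n e K) F = 0)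
    (hgen : Psi F (vec n {0} K) (vec n {2} K) (vec n {1} K) (vec n {1, 3} K) ≠ 0) :
    aeval (normalCurve n e Ω) F = 0 ∧
    (fun j => (normalCurve n e Ω j).eval 0) = vec n {0} Ω ∧
    (fun j => (Polynomial.derivative (normalCurve n e Ω j)).eval 0) = vec n {1} Ω ∧
    (∃ j, aeval (vec n {0} Ω) (pderiv j F) ≠ 0) ∧
    ∃ x : Fin (n + 1) → Ω, (lp F (vec n {0} Ω) x).coeff 1 = 0 ∧
      (lp F (vec n {0} Ω) x).coeff 2 = 0 ∧ (lp F (vec n {0} Ω) x).coeff 3 ≠ 0 ∧
      (lp F (vec n {0} Ω) (fun j => x j + vec n {1} Ω j)).coeff 2 ≠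
        (lp F (vec n {0} Ω) (vec n {1} Ω)).coeff 2 := by
  have hgen2 : Psi (map (algebraMap K Ω) F) (vec n {0} Ω) (vec n {2} Ω) (vec n {1} Ω)
      (vec n {1, 3} Ω) ≠ 0 := by
    have h := map_Psi (algebraMap K Ω) F (vec n {0} K) (vec n {2} K) (vec n {1} K)
      (vec n {1, 3} K)
    rw [map_vec, map_vec, map_vec, map_vec] at h
    rw [← h]
    exact (map_ne_zero _).mpr hgen
  have hlp : ∀ p x : Fin (n + 1) → Ω, lp (map (algebraMap K Ω) F) p x = lp F p x :=
    fun p x => lp_map_algebraMap F p x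
  have hcΩ : aeval (normalCurve n e Ω) F = 0 := by
    have h := MvPolynomial.comp_aeval_apply (f := normalCurve n e K)
      (Polynomial.mapAlgHom (Algebra.ofId K Ω)) F
    rw [hc, map_zero] at h
    rw [h]
    congr 2
    funext j
    unfold normalCurve
    split_ifs
    · simp
    · simp
  have hp : (fun j => (normalCurve n e Ω j).eval 0) = vec n {0} Ω := by
    funext j
    unfold normalCurve vec
    by_cases h0 : (j : ℕ) = 0
    · simp [h0]
    · rw [if_neg (show ¬ (j : ℕ) ∈ ({0} : Finset ℕ) by simpa using h0)]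
      split_ifs
      · simp [h0]
      · simp
  have hb : (fun j => (Polynomial.derivative (normalCurve n e Ω j)).eval 0) = vec n {1} Ω := by
    funext j
    unfold normalCurve vec
    by_cases h1 : (j : ℕ) = 1
    · rw [if_pos (show (j : ℕ) ≤ e by omega),
        if_pos (show (j : ℕ) ∈ ({1} : Finset ℕ) by simpa using h1), h1]
      simp
    · rw [if_neg (show ¬ (j : ℕ) ∈ ({1} : Finset ℕ) by simpa using h1)]
      split_ifs
      · rw [Polynomial.derivative_X_pow]
        by_cases h0 : (j : ℕ) = 0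
        · simp [h0]
        · have : (j : ℕ) - 1 ≠ 0 := by omega
          simp [this]
      · simp
  have hb1 : (lp (map (algebraMap K Ω) F) (vec n {0} Ω) (vec n {1} Ω)).coeff 1 = 0 := by
    rw [hlp, ← hp, ← hb]
    exact tangent_curve F _ hcΩ 0
  obtain ⟨ha, x, h1, h2, h3, h4⟩ := Psi_good _ _ _ _ _ hb1 hgen2
  refine ⟨hcΩ, hp, hb, ?_, x, ?_, ?_, ?_, ?_⟩
  · by_contra hcon
    push Not at hcon
    apply ha
    rw [hlp, lp_coeff_one]
    exact Finset.sum_eq_zero fun j _ => by rw [hcon j, mul_zero]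
  · rw [← hlp]; exact h1
  · rw [← hlp]; exact h2
  · rw [← hlp]; exact h3
  · rw [← hlp, ← hlp]
    intro h5
    apply h4
    have h6 := hs_add_smul (map (algebraMap K Ω) F) (vec n {0} Ω) x (vec n {1} Ω) 1 1
    simp only [one_mul] at h6
    rw [hs_self, hs_self, hs_self, h2, h5] at h6
    have h7 : 2 * hs (map (algebraMap K Ω) F) (vec n {0} Ω) x (vec n {1} Ω) = 0 := by
      linear_combination -h6
    exact (mul_eq_zero.mp h7).resolve_left two_ne_zero

/-- The open condition. -/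
noncomputable def PhiGen (n : ℕ) : MvPolynomial (Exponents n) ℚ :=
  Psi (Fgen n) (vec n {0} _) (vec n {2} _) (vec n {1} _) (vec n {1, 3} _)

theorem PhiGen_spec {n : ℕ} {K : Type} [Field K] (F : MvPolynomial (Fin (n + 1)) K)
    (hF : F.IsHomogeneous 6) (φ : MvPolynomial (Exponents n) ℚ →+* K)
    (hφ : ∀ d : Exponents n, φ (X d) = coeff d.1 F) : φ (PhiGen n) =
      Psi F (vec n {0} K) (vec n {2} K) (vec n {1} K) (vec n {1, 3} K) := by
  rw [PhiGen, map_Psi, map_vec, map_vec, map_vec, map_vec, map_Fgen F hF φ hφ]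

theorem general (n e : ℕ) (hn : 3 ≤ n) (he : 2 ≤ e) :
    ∃ Φ : MvPolynomial (Exponents n) ℚ,
      (∃ G : MvPolynomial (Fin (n + 1)) ℚ, HasNormalCurve e G ∧ eval (coeffs G) Φ ≠ 0) ∧
      ∀ (K : Type) [Field K] [NumberField K] (F : MvPolynomial (Fin (n + 1)) K),
        HasNormalCurve e F → aeval (coeffs F) Φ ≠ 0 → PotentiallyDense F := by
  refine ⟨PhiGen n, ⟨F0 n hn, ⟨F0_homog n hn, F0_curve n hn he⟩, ?_⟩, ?_⟩
  · rw [PhiGen_spec (F0 n hn) (F0_homog n hn) (eval (coeffs (F0 n hn))) (fun d => eval_X _)]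
    exact Psi_F0 n hn
  · rintro K _ _ F ⟨hF, hc⟩ hgen
    have h := PhiGen_spec F hF ((aeval (coeffs F) :
      MvPolynomial (Exponents n) ℚ →ₐ[ℚ] K) : MvPolynomial (Exponents n) ℚ →+* K)
      (fun d => aeval_X _ _)
    rw [RingHom.coe_coe] at h
    rw [h] at hgen
    have : CharZero (AlgebraicClosure K) :=
      charZero_of_injective_algebraMap (algebraMap K (AlgebraicClosure K)).injective
    obtain ⟨hcΩ, hp, hb, hj, x, h1, h2, h3, h4⟩ :=
      exists_good (Ω := AlgebraicClosure K) he F hc hgen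
    refine potential F hF (normalCurve n e (AlgebraicClosure K)) ⟨hcΩ, 0, x, ?_⟩
    rw [hp, hb]
    exact ⟨hj, h1, h2, h3, h4⟩

end Pool.Agent.L0h9.Rat
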