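import Pool.Agent.L0h9.Rat.EZ
import Pool.Agent.L0h9.Rat.General
import Pool.Agent.L0h9.Rat.DefsE

/-! The general sextic which contains an elliptic normal curve. -/

namespace Pool.Agent.L0h9.Rat

open MvPolynomial Pool.Agent.H952R2 Pool.Agent.H952R2.Sextic Pool.Agent.H952R2.SexticDefs
  Pool.Agent.L0h9.Tri

/-- Potential density for a good curve of genus at most one. -/
theorem potential_genus_one {K : Type} [Field K] [NumberField K] {n : ℕ}
    (F : MvPolynomial (Fin (n + 1)) K) (hF : F.IsHomogeneous 6)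
    (g : Polynomial (AlgebraicClosure K))
    (c : Fin (n + 1) → MvPolynomial (Fin 2) (AlgebraicClosure K))
    (h : GoodGenusOneCurve F g c) : PotentiallyDense F := by
  obtain ⟨h1, h2, h3, D, h4⟩ := h
  exact potential_gen F hF g h2 h1 c (fun s w hw => h3 s w (by
    rw [Polynomial.eval_mul, Polynomial.eval_X] at hw; exact hw)) D h4

theorem map_ellPoint {A B : Type} [CommRing A] [CommRing B] (φ : A →+* B) (n e : ℕ) (s w : A)
    (j : Fin (n + 1)) : φ (ellPoint n e s w j) = ellPoint n e (φ s) (φ w) j := by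
  unfold ellPoint
  split_ifs <;> simp

theorem ellPoint_zero {A : Type} [CommRing A] (n e : ℕ) :
    ellPoint n e (0 : A) 0 = vec n {0} A := by
  funext j
  unfold ellPoint vec
  by_cases h0 : (j : ℕ) = 0
  · simp [h0]
  · rw [if_neg h0, if_neg (show ¬ (j : ℕ) ∈ ({0} : Finset ℕ) by simpa using h0)]
    split_ifs
    · rfl
    · rw [mul_zero]
    · exact zero_pow (by omega)

theorem pderiv_ellPoint {Ω : Type} [Field Ω] (n e : ℕ) (he : 2 ≤ e) :
    (fun j => eval ![0, 0] (pderiv 1 (ellPoint n e (X 0 : MvPolynomial (Fin 2) Ω) (X 1) j))) =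
      vec n {2} Ω := by
  funext j
  unfold ellPoint vec
  by_cases h2 : (j : ℕ) = 2
  · rw [if_neg (by omega), if_neg (by omega), if_pos (by omega),
      if_pos (show (j : ℕ) ∈ ({2} : Finset ℕ) by simpa using h2), h2]
    simp
  · rw [if_neg (show ¬ (j : ℕ) ∈ ({2} : Finset ℕ) by simpa using h2)]
    split_ifs with h3 h4 h5
    · simp
    · simp
    · have h6 : (j : ℕ) / 2 - 1 ≠ 0 := by omega
      rw [Derivation.leibniz, Derivation.leibniz_pow, pderiv_X_self, pderiv_X_of_ne (by decide)]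
      simp [h6]
    · rw [Derivation.leibniz_pow, pderiv_X_of_ne (by decide)]
      simp

/-- The derivative of a curve on the hypersurface is a tangent vector. -/
theorem tangent_E {K Ω ι : Type*} [Field K] [Field Ω] [Algebra K Ω] [IsAlgClosed Ω] [Fintype ι]
    (F : MvPolynomial ι K) {g : Polynomial Ω} (hg : g.eval 0 ≠ 0)
    (c : ι → MvPolynomial (Fin 2) Ω)
    (hc : ∀ s w : Ω, w ^ 2 = (Polynomial.X * g).eval s →
      aeval (fun j => eval ![s, w] (c j)) F = 0) :
    (lp F (fun j => eval ![0, 0] (c j)) (fun j => eval ![0, 0] (pderiv 1 (c j)))).coeff 1 = 0 := by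
  set ψ : (Fin 2 → Ω) → (MvPolynomial (Fin 2) Ω →ₐ[K] Ω) := fun t =>
    (aeval t : MvPolynomial (Fin 2) Ω →ₐ[Ω] Ω).restrictScalars K with hψ
  have ψe : ∀ t z, ψ t z = eval t z := fun t z => aeval_eval t z
  set f : Polynomial Ω := Polynomial.X * g with hf
  obtain ⟨k, hk⟩ : ∃ k, aeval c F = eqn f * k := by
    choose ω hω using fun s : Ω => IsAlgClosed.exists_pow_nat_eq (f.eval s) (n := 2) (by norm_num)
    have : Infinite Ω := IsAlgClosed.instInfinite
    refine vanish_inf hg (aeval c F) Set.infinite_univ ω (fun s _ => hω s) (fun s _ => ?_)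
    rw [← hc s (ω s) (hω s)]
    have h2 := MvPolynomial.comp_aeval_apply (f := c) (ψ ![s, ω s]) F
    simp only [ψe] at h2
    exact h2
  have h6 := der_aeval ((pderiv 1 : Derivation Ω (MvPolynomial (Fin 2) Ω)
      (MvPolynomial (Fin 2) Ω)).restrictScalars K) c F
  rw [hk] at h6
  have h7 := congrArg (eval ![0, 0]) h6
  have h8 : eval ![0, 0] (((pderiv 1 : Derivation Ω (MvPolynomial (Fin 2) Ω)
      (MvPolynomial (Fin 2) Ω)).restrictScalars K) (eqn f * k)) = 0 := pderiv_eqn_mul g k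
  rw [h8] at h7
  rw [lp_coeff_one]
  refine Eq.trans ?_ h7.symm
  rw [map_sum]
  refine Finset.sum_congr rfl fun j _ => ?_
  have h9 := MvPolynomial.comp_aeval_apply (f := c) (ψ ![0, 0]) (pderiv j F)
  simp only [ψe] at h9
  rw [map_mul, h9, mul_comm]
  rfl

/-- Good directions over an algebraically closed field. -/
theorem good_of_Psi {K Ω : Type} [Field K] [Field Ω] [CharZero Ω] [Algebra K Ω] [IsAlgClosed Ω]
    {n : ℕ} (F : MvPolynomial (Fin (n + 1)) K) (A B D : Finset ℕ)
    (hb : (lp F (vec n {0} Ω) (vec n B Ω)).coeff 1 = 0)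
    (hgen : Psi F (vec n {0} K) (vec n A K) (vec n B K) (vec n D K) ≠ 0) :
    ∃ x : Fin (n + 1) → Ω, GoodPoint F (vec n {0} Ω) (vec n B Ω) x := by
  have hgen2 : Psi (map (algebraMap K Ω) F) (vec n {0} Ω) (vec n A Ω) (vec n B Ω)
      (vec n D Ω) ≠ 0 := by
    have h := map_Psi (algebraMap K Ω) F (vec n {0} K) (vec n A K) (vec n B K) (vec n D K)
    rw [map_vec, map_vec, map_vec, map_vec] at h
    rw [← h]
    exact (map_ne_zero _).mpr hgen
  have hlp : ∀ p x : Fin (n + 1) → Ω, lp (map (algebraMap K Ω) F) p x = lp F p x :=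
    fun p x => lp_map_algebraMap F p x
  have hb1 : (lp (map (algebraMap K Ω) F) (vec n {0} Ω) (vec n B Ω)).coeff 1 = 0 := by
    rw [hlp]
    exact hb
  obtain ⟨ha, x, h1, h2, h3, h4⟩ := Psi_good _ _ _ _ _ hb1 hgen2
  have g1 : ∃ j, aeval (vec n {0} Ω) (pderiv j F) ≠ 0 := by
    by_contra hcon
    push Not at hcon
    apply ha
    rw [hlp, lp_coeff_one]
    exact Finset.sum_eq_zero fun j _ => by rw [hcon j, mul_zero]
  have g2 : (lp F (vec n {0} Ω) x).coeff 1 = 0 := by rw [← hlp]; exact h1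
  have g3 : (lp F (vec n {0} Ω) x).coeff 2 = 0 := by rw [← hlp]; exact h2
  have g4 : (lp F (vec n {0} Ω) x).coeff 3 ≠ 0 := by rw [← hlp]; exact h3
  have g5 : (lp F (vec n {0} Ω) (fun j => x j + vec n B Ω j)).coeff 2 ≠
      (lp F (vec n {0} Ω) (vec n B Ω)).coeff 2 := by
    rw [← hlp, ← hlp]
    intro h5
    apply h4
    have h6 := hs_add_smul (map (algebraMap K Ω) F) (vec n {0} Ω) x (vec n B Ω) 1 1
    simp only [one_mul] at h6
    rw [hs_self, hs_self, hs_self, h2, h5] at h6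
    have h7 : 2 * hs (map (algebraMap K Ω) F) (vec n {0} Ω) x (vec n B Ω) = 0 := by
      linear_combination -h6
    exact (mul_eq_zero.mp h7).resolve_left two_ne_zero
  exact ⟨x, g1, g2, g3, g4, g5⟩

section special

variable {K : Type} [Field K] (n : ℕ) (hn : 3 ≤ n) (α β γ : K)

/-- The special form. -/
noncomputable def FE : MvPolynomial (Fin (n + 1)) K :=
  X (ix n 0 (by omega)) ^ 3 * (C α * (X (ix n 0 (by omega)) ^ 2 * X (ix n 1 (by omega))) +
    C β * (X (ix n 0 (by omega)) * X (ix n 1 (by omega)) ^ 2) +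
    C γ * X (ix n 1 (by omega)) ^ 3 - X (ix n 0 (by omega)) * X (ix n 2 (by omega)) ^ 2) +
  (X (ix n 0 (by omega)) ^ 3 * X (ix n 3 hn) + X (ix n 0 (by omega)) ^ 2 * X (ix n 3 hn) ^ 2) *
    (X (ix n 0 (by omega)) * X (ix n 3 hn) - X (ix n 1 (by omega)) ^ 2)

theorem FE_homog : (FE n hn α β γ).IsHomogeneous 6 := by
  have hX : ∀ i : Fin (n + 1), (X i : MvPolynomial (Fin (n + 1)) K).IsHomogeneous 1 :=
    fun i => isHomogeneous_X K i
  have hC : ∀ (a : K) (P : MvPolynomial (Fin (n + 1)) K), P.IsHomogeneous 3 →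
      (C a * P).IsHomogeneous 3 := by
    intro a P hP
    have := (isHomogeneous_C (Fin (n + 1)) a).mul hP
    rwa [zero_add] at this
  have e1 : (C α * (X (ix n 0 (by omega)) ^ 2 * X (ix n 1 (by omega))) +
    C β * (X (ix n 0 (by omega)) * X (ix n 1 (by omega)) ^ 2) +
    C γ * X (ix n 1 (by omega)) ^ 3 - X (ix n 0 (by omega)) * X (ix n 2 (by omega)) ^ 2 :
    MvPolynomial (Fin (n + 1)) K).IsHomogeneous 3 :=
    (((hC _ _ (((hX _).pow 2).mul (hX _))).add (hC _ _ ((hX _).mul ((hX _).pow 2)))).add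
      (hC _ _ ((hX _).pow 3))).sub ((hX _).mul ((hX _).pow 2))
  have e2 : (X (ix n 0 (by omega)) ^ 3 * X (ix n 3 hn) + X (ix n 0 (by omega)) ^ 2 *
      X (ix n 3 hn) ^ 2 : MvPolynomial (Fin (n + 1)) K).IsHomogeneous 4 :=
    (((hX _).pow 3).mul (hX _)).add (((hX _).pow 2).mul ((hX _).pow 2))
  have e3 : (X (ix n 0 (by omega)) * X (ix n 3 hn) - X (ix n 1 (by omega)) ^ 2 :
      MvPolynomial (Fin (n + 1)) K).IsHomogeneous 2 :=
    ((hX _).mul (hX _)).sub ((hX _).pow 2)
  exact (((hX _).pow 3).mul e1).add (e2.mul e3)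

theorem FE_curve {Ω : Type} [Field Ω] [Algebra K Ω] {e : ℕ} (he : 2 ≤ e) (s w : Ω)
    (h : w ^ 2 = s * (algebraMap K Ω α + algebraMap K Ω β * s + algebraMap K Ω γ * s ^ 2)) :
    aeval (ellPoint n e s w) (FE n hn α β γ) = 0 := by
  have h0 : ellPoint n e s w (ix n 0 (by omega)) = 1 := by
    simp [ellPoint, ix]
  have h1 : ellPoint n e s w (ix n 1 (by omega)) = s := by
    have : ¬ e < 1 := by omega
    simp [ellPoint, ix, this]
  have h2 : ellPoint n e s w (ix n 2 (by omega)) = w := by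
    have : ¬ e < 2 := by omega
    simp [ellPoint, ix, this]
  rw [FE]
  simp only [map_add, map_sub, map_mul, map_pow, aeval_X, h0, h1, h2, aeval_C]
  by_cases h3 : e < 3
  · have : ellPoint n e s w (ix n 3 hn) = 0 := by
      simp [ellPoint, ix, h3]
    rw [this]
    linear_combination -h
  · have : ellPoint n e s w (ix n 3 hn) = s ^ 2 := by
      simp [ellPoint, ix, h3]
    rw [this]
    linear_combination -h

/-- `F(p + σ x)` for `p = e₀` and `x₀ = 0`. -/
theorem lp_FE (x : Fin (n + 1) → K) (hx : x (ix n 0 (by omega)) = 0) :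
    lp (FE n hn α β γ) (vec n {0} K) x =
      Polynomial.C (α * x (ix n 1 (by omega))) * Polynomial.X +
      Polynomial.C (x (ix n 3 hn) ^ 2 - x (ix n 2 (by omega)) ^ 2 +
        β * x (ix n 1 (by omega)) ^ 2) * Polynomial.X ^ 2 +
      Polynomial.C (x (ix n 3 hn) ^ 3 - x (ix n 1 (by omega)) ^ 2 * x (ix n 3 hn) +
        γ * x (ix n 1 (by omega)) ^ 3) * Polynomial.X ^ 3 -
      Polynomial.C (x (ix n 1 (by omega)) ^ 2 * x (ix n 3 hn) ^ 2) *
        Polynomial.X ^ 4 := by
  have h0 : vec n {0} K (ix n 0 (by omega)) = 1 := by simp [vec, ix]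
  have h1 : vec n {0} K (ix n 1 (by omega)) = 0 := by simp [vec, ix]
  have h2 : vec n {0} K (ix n 2 (by omega)) = 0 := by simp [vec, ix]
  have h3 : vec n {0} K (ix n 3 hn) = 0 := by simp [vec, ix]
  rw [Sextic.lp, FE]
  simp only [map_add, map_sub, map_mul, map_pow, aeval_X, aeval_C, Polynomial.algebraMap_eq,
    h0, h1, h2, h3, hx, Polynomial.C_1, Polynomial.C_0, zero_mul, add_zero, zero_add]
  ring

theorem coeff_FE (x : Fin (n + 1) → K) (hx : x (ix n 0 (by omega)) = 0) :
    (lp (FE n hn α β γ) (vec n {0} K) x).coeff 1 = α * x (ix n 1 (by omega)) ∧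
    (lp (FE n hn α β γ) (vec n {0} K) x).coeff 2 = x (ix n 3 hn) ^ 2 -
      x (ix n 2 (by omega)) ^ 2 + β * x (ix n 1 (by omega)) ^ 2 ∧
    (lp (FE n hn α β γ) (vec n {0} K) x).coeff 3 = x (ix n 3 hn) ^ 3 -
      x (ix n 1 (by omega)) ^ 2 * x (ix n 3 hn) + γ * x (ix n 1 (by omega)) ^ 3 := by
  rw [lp_FE n hn α β γ x hx]
  refine ⟨?_, ?_, ?_⟩ <;>
    simp only [Polynomial.coeff_sub, Polynomial.coeff_add, Polynomial.coeff_C_mul,
      Polynomial.coeff_X_pow, Polynomial.coeff_X] <;> norm_num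

theorem Psi_FE [CharZero K] (hα : α ≠ 0) :
    Psi (FE n hn α β γ) (vec n {0} K) (vec n {1} K) (vec n {2} K) (vec n {2, 3} K) ≠ 0 := by
  obtain ⟨a1, a2, a3⟩ := coeff_FE n hn α β γ (vec n {1} K) (by simp [vec, ix])
  obtain ⟨b1, b2, b3⟩ := coeff_FE n hn α β γ (vec n {2} K) (by simp [vec, ix])
  obtain ⟨d1, d2, d3⟩ := coeff_FE n hn α β γ (vec n {2, 3} K) (by simp [vec, ix])
  obtain ⟨e1, e2, e3⟩ := coeff_FE n hn α β γ (fun j => vec n {2, 3} K j + vec n {2} K j)
    (by simp [vec, ix])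
  have b2' : (lp (FE n hn α β γ) (vec n {0} K) (vec n {2} K)).coeff 2 = -1 := by
    rw [b2]; simp [vec, ix]
  have d2' : (lp (FE n hn α β γ) (vec n {0} K) (vec n {2, 3} K)).coeff 2 = 0 := by
    rw [d2]; simp [vec, ix]
  have e2' : (lp (FE n hn α β γ) (vec n {0} K) (fun j => vec n {2, 3} K j +
      vec n {2} K j)).coeff 2 = -3 := by
    rw [e2]; simp [vec, ix]; norm_num
  refine Psi_ne_zero _ _ _ _ _ ?_ ?_ ?_ ?_ ?_ ?_
  · rw [a1]; simpa [vec, ix] using hα
  · rw [d1]; simp [vec, ix]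
  · exact d2'
  · rw [d3]; simp [vec, ix]
  · intro h0
    have h1 := hs_add_smul (FE n hn α β γ) (vec n {0} K) (vec n {2, 3} K) (vec n {2} K) 1 1
    simp only [one_mul] at h1
    rw [hs_self, hs_self, hs_self, h0, d2', b2', e2'] at h1
    norm_num at h1
  · rw [b2']
    norm_num

end special

/-- The open condition. -/
noncomputable def PhiE (n : ℕ) : MvPolynomial (Exponents n) ℚ :=
  Psi (Fgen n) (vec n {0} _) (vec n {1} _) (vec n {2} _) (vec n {2, 3} _)

theorem PhiE_spec {n : ℕ} {K : Type} [Field K] [Algebra ℚ K] (F : MvPolynomial (Fin (n + 1)) K)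
    (hF : F.IsHomogeneous 6) : aeval (coeffs F) (PhiE n) =
      Psi F (vec n {0} K) (vec n {1} K) (vec n {2} K) (vec n {2, 3} K) := by
  have h : ((aeval (coeffs F) : MvPolynomial (Exponents n) ℚ →ₐ[ℚ] K) :
      MvPolynomial (Exponents n) ℚ →+* K) (PhiE n) =
      Psi F (vec n {0} K) (vec n {1} K) (vec n {2} K) (vec n {2, 3} K) := by
    rw [PhiE, map_Psi, map_vec, map_vec, map_vec, map_vec, map_Fgen F hF
      ((aeval (coeffs F) : MvPolynomial (Exponents n) ℚ →ₐ[ℚ] K) :
        MvPolynomial (Exponents n) ℚ →+* K) (fun d => aeval_X _ _)]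
  exact h

theorem general_elliptic (n e : ℕ) (hn : 3 ≤ n) (he : 2 ≤ e) :
    ∃ Φ : MvPolynomial (Exponents n) ℚ,
      ∀ (K : Type) [Field K] [NumberField K] (g : Polynomial K), g.natDegree ≤ 2 → g.eval 0 ≠ 0 →
        (∃ G : MvPolynomial (Fin (n + 1)) K, HasEllipticCurve e g G ∧
          aeval (coeffs G) Φ ≠ 0) ∧
        ∀ F : MvPolynomial (Fin (n + 1)) K, HasEllipticCurve e g F → aeval (coeffs F) Φ ≠ 0 →
          PotentiallyDense F := by
  refine ⟨PhiE n, fun K _ _ g hg hg0 => ⟨⟨FE n hn (g.coeff 0) (g.coeff 1) (g.coeff 2),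
    ⟨FE_homog n hn _ _ _, fun s w hw => FE_curve n hn _ _ _ he s w ?_⟩, ?_⟩, ?_⟩⟩
  · rw [hw, Polynomial.aeval_eq_sum_range' (n := 3) (by omega)]
    simp only [Finset.sum_range_succ, Finset.sum_range_zero, Algebra.smul_def]
    ring
  · rw [PhiE_spec _ (FE_homog n hn _ _ _)]
    apply Psi_FE
    rwa [Polynomial.coeff_zero_eq_eval_zero]
  · rintro F ⟨hF, hc⟩ hgen
    rw [PhiE_spec F hF] at hgen
    have : CharZero (AlgebraicClosure K) :=
      charZero_of_injective_algebraMap (algebraMap K (AlgebraicClosure K)).injective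
    have hg1 : (g.map (algebraMap K (AlgebraicClosure K))).eval 0 ≠ 0 := by
      rw [Polynomial.eval_map, ← map_zero (algebraMap K (AlgebraicClosure K)),
        Polynomial.eval₂_at_apply]
      exact fun h => hg0 ((algebraMap K (AlgebraicClosure K)).injective h)
    have hcE : ∀ s w : AlgebraicClosure K,
        w ^ 2 = s * (g.map (algebraMap K (AlgebraicClosure K))).eval s →
        aeval (fun j => eval ![s, w] (ellPoint n e (X 0 : MvPolynomial (Fin 2)
          (AlgebraicClosure K)) (X 1) j)) F = 0 := by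
      intro s w hw
      rw [Polynomial.eval_map] at hw
      have h1 := hc s w hw
      have h2 : (fun j => eval ![s, w] (ellPoint n e (X 0 : MvPolynomial (Fin 2)
          (AlgebraicClosure K)) (X 1) j)) = ellPoint n e s w := by
        funext j
        rw [map_ellPoint, eval_X, eval_X]
        rfl
      rw [h2]
      exact h1
    have hp : (fun j => eval ![0, 0] (ellPoint n e (X 0 : MvPolynomial (Fin 2)
        (AlgebraicClosure K)) (X 1) j)) = vec n {0} (AlgebraicClosure K) := by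
      rw [← ellPoint_zero n e]
      funext j
      rw [map_ellPoint, eval_X, eval_X]
      rfl
    have hb := pderiv_ellPoint (Ω := AlgebraicClosure K) n e he
    have ht := tangent_E F hg1 (fun j => ellPoint n e (X 0 : MvPolynomial (Fin 2)
        (AlgebraicClosure K)) (X 1) j) (fun s w hw => hcE s w (by
          rw [Polynomial.eval_mul, Polynomial.eval_X] at hw; exact hw))
    rw [hp, hb] at ht
    obtain ⟨x, hx⟩ := good_of_Psi (Ω := AlgebraicClosure K) F {1} {2} {2, 3} ht hgen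
    refine potential_genus_one F hF (g.map (algebraMap K (AlgebraicClosure K)))
      (fun j => ellPoint n e (X 0 : MvPolynomial (Fin 2) (AlgebraicClosure K)) (X 1) j)
      ⟨?_, hg1, hcE, x, ?_⟩
    · rw [Polynomial.natDegree_map]
      omega
    · rw [hp, hb]
      exact hx

end Pool.Agent.L0h9.Rat
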