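import Pool.Agent.L0h9.Rat.EO

/-! Density over a field over which everything is defined. -/

namespace Pool.Agent.L0h9.Rat

open MvPolynomial Pool.Agent.H952R2 Pool.Agent.H952R2.Sextic Pool.Agent.H952R2.SexticDefs Pool.Agent.L0h9.Tri Topology Filter

section base

variable {A : Type*} [Field A] {R : Type*} [Field R] [Algebra A R] {S : Type*} [Field S]
  [Algebra A S] [Algebra R S] [IsScalarTower A R S] {ι : Type*} [Fintype ι]

omit [Fintype ι] in
theorem Dp_base (F : MvPolynomial ι A) (p a D : ι → S) :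
    Dp (map (algebraMap A R) F) p a D = Dp F p a D := by
  funext j
  simp only [Dp, lp_base1]

theorem TT_base (F : MvPolynomial ι A) (p v y : ι → S) (u0 : S) :
    TT (map (algebraMap A R) F) p v y u0 = TT F p v y u0 := by
  simp only [TT, hs_base]

theorem Sec_base (F : MvPolynomial ι A) (p v y : ι → S) (u0 η : S) :
    Sec (map (algebraMap A R) F) p v y u0 η = Sec F p v y u0 η := by
  funext j
  simp only [Sec, wt, qd, hs_base, lp_base1]

theorem Lst_base (F : MvPolynomial ι A) (p v y : ι → S) (u0 η : S) :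
    Lst (map (algebraMap A R) F) p v y u0 η = Lst F p v y u0 η := by
  simp only [Lst, wt, qd, hs_base, lp_base1]

end base

theorem ev2 {L Ω : Type*} [Field L] [Field Ω] [Algebra L Ω] (z : MvPolynomial (Fin 2) L)
    (s w : L) : algebraMap L Ω (eval ![s, w] z) =
      eval ![algebraMap L Ω s, algebraMap L Ω w] (map (algebraMap L Ω) z) := by
  have h := eval_map_eq (algebraMap L Ω) z ![s, w]
  rw [← h]
  congr 2
  funext j
  fin_cases j <;> simp

theorem dense_E {K L Ω : Type*} [Field K] [NontriviallyNormedField L] [IsUltrametricDist L]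
    [NormedField Ω] [Algebra K L] [Algebra L Ω] [Algebra K Ω] [IsScalarTower K L Ω]
    [IsAlgClosed Ω] [CharZero L] [CharZero Ω] (hn : ∀ x : L, ‖algebraMap L Ω x‖ = ‖x‖)
    (h2n : ‖(2 : L)‖ < 1) {r : ℕ} (F : MvPolynomial (Fin r) K) (hF : F.IsHomogeneous 6)
    {g : Polynomial Ω} (hg : g.eval 0 ≠ 0)
    (c V : Fin r → MvPolynomial (Fin 2) Ω) (U : MvPolynomial (Fin 2) Ω) (D p b a : Fin r → Ω)
    (hc : ∀ s w : Ω, w ^ 2 = (Polynomial.X * g).eval s →
      aeval (fun j => eval ![s, w] (c j)) F = 0)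
    (hp : p = fun j => eval ![0, 0] (c j)) (hb : b = fun j => eval ![0, 0] (pderiv 1 (c j)))
    (ha : (lp F p a).coeff 1 ≠ 0) (h1 : (lp F p D).coeff 1 = 0)
    (h3 : (lp F p D).coeff 3 ≠ 0) (h4 : hs F p D b ≠ 0)
    (hV : ∀ s w : Ω, w ^ 2 = (Polynomial.X * g).eval s →
        (lp F (fun j => eval ![s, w] (c j)) (fun j => eval ![s, w] (V j))).coeff 1 = 0 ∧
        (lp F (fun j => eval ![s, w] (c j)) (fun j => eval ![s, w] (V j))).coeff 2 =
          (eval ![s, w] U) ^ 2)
    {R ε : ℝ} (hR : 1 ≤ R) (hcond : ∀ s w : Ω, ‖s‖ < ε → ‖w‖ < ε →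
      Cond F R (fun j => eval ![s, w] (c j)) a (fun j => eval ![s, w] (V j)) D
        (eval ![s, w] U))
    (c' V' : Fin r → MvPolynomial (Fin 2) L) (U' : MvPolynomial (Fin 2) L) (D' a' : Fin r → L)
    (hc' : ∀ j, map (algebraMap L Ω) (c' j) = c j)
    (hV' : ∀ j, map (algebraMap L Ω) (V' j) = V j)
    (hU' : map (algebraMap L Ω) U' = U) (hD' : (fun j => algebraMap L Ω (D' j)) = D)
    (ha' : (fun j => algebraMap L Ω (a' j)) = a)
    (hinf : {s : L | ∃ w : L, (algebraMap L Ω w) ^ 2 =
      (Polynomial.X * g).eval (algebraMap L Ω s) ∧ ‖s‖ < ε ∧ ‖w‖ < ε}.Infinite) :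
    CoverDense (map (algebraMap K L) F) := by
  set F' := map (algebraMap K L) F with hF'
  have hF6 : F'.IsHomogeneous 6 := hF.map _
  have e_lp : ∀ (x y : Fin r → L) i, algebraMap L Ω ((lp F' x y).coeff i) =
      (lp F (fun j => algebraMap L Ω (x j)) (fun j => algebraMap L Ω (y j))).coeff i := by
    intro x y i
    have h := lp_coeff_map (Algebra.ofId L Ω) F' x y i
    simp only [Algebra.ofId_apply] at h
    rw [h, hF', lp_base1]
  have e_hs : ∀ (x y z : Fin r → L), algebraMap L Ω (hs F' x y z) =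
      hs F (fun j => algebraMap L Ω (x j)) (fun j => algebraMap L Ω (y j))
        (fun j => algebraMap L Ω (z j)) := by
    intro x y z
    have h := map_hs (Algebra.ofId L Ω) F' x y z
    simp only [Algebra.ofId_apply] at h
    rw [h, hF', hs_base]
  have e_Dp : ∀ (x y z : Fin r → L), (fun j => algebraMap L Ω (Dp F' x y z j)) =
      Dp F (fun j => algebraMap L Ω (x j)) (fun j => algebraMap L Ω (y j))
        (fun j => algebraMap L Ω (z j)) := by
    intro x y z
    have h := map_Dp (Algebra.ofId L Ω) F' x y z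
    simp only [Algebra.ofId_apply] at h
    rw [h, hF', Dp_base]
  have e_TT : ∀ (x y z : Fin r → L) (u : L), algebraMap L Ω (TT F' x y z u) =
      TT F (fun j => algebraMap L Ω (x j)) (fun j => algebraMap L Ω (y j))
        (fun j => algebraMap L Ω (z j)) (algebraMap L Ω u) := by
    intro x y z u
    have h := map_TT (Algebra.ofId L Ω) F' x y z u
    simp only [Algebra.ofId_apply] at h
    rw [h, hF', TT_base]
  have e_Lst : ∀ (x y z : Fin r → L) (u : L), algebraMap L Ω (Lst F' x y z u 0) =
      Lst F (fun j => algebraMap L Ω (x j)) (fun j => algebraMap L Ω (y j))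
        (fun j => algebraMap L Ω (z j)) (algebraMap L Ω u) 0 := by
    intro x y z u
    have h := map_Lst (Algebra.ofId L Ω) F' x y z u 0
    simp only [Algebra.ofId_apply, map_zero] at h
    rw [h, hF', Lst_base]
  have e_Sec : ∀ (x y z : Fin r → L) (u : L), (fun j => algebraMap L Ω (Sec F' x y z u 0 j)) =
      Sec F (fun j => algebraMap L Ω (x j)) (fun j => algebraMap L Ω (y j))
        (fun j => algebraMap L Ω (z j)) (algebraMap L Ω u) 0 := by
    intro x y z u
    have h := map_Sec (Algebra.ofId L Ω) F' x y z u 0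
    simp only [Algebra.ofId_apply, map_zero] at h
    rw [h, hF', Sec_base]
  have inj := (algebraMap L Ω).injective
  have hF'0 : F' ≠ 0 := by
    intro h0
    apply h3
    have h5 : map (algebraMap K Ω) F = 0 := by
      rw [IsScalarTower.algebraMap_eq K L Ω, ← MvPolynomial.map_map]
      change map (algebraMap L Ω) F' = 0
      rw [h0, map_zero]
    have h6 : F = 0 := MvPolynomial.map_injective _ (algebraMap K Ω).injective (by
      rw [h5, map_zero])
    rw [h6, Sextic.lp, map_zero, Polynomial.coeff_zero]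
  refine coverDense_of F' fun G hG => ?_
  set N : MvPolynomial (Fin r) Ω := map (algebraMap L Ω) (G * F') with hN
  have hNv : ∀ (x : Fin r → L) (w : L), w ^ 2 = aeval x F' →
      aeval (fun j => algebraMap L Ω (x j)) N = 0 := by
    intro x w hw
    rw [aeval_eval] at hw
    have e1 : aeval (fun j => algebraMap L Ω (x j)) N = algebraMap L Ω (eval x (G * F')) := by
      rw [aeval_eval]
      exact eval_map_eq (algebraMap L Ω) (G * F') x
    rw [e1, map_mul]
    by_cases hw0 : w = 0
    · rw [← hw, hw0]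
      simp
    · rw [hG x ⟨w, hw0, hw⟩, zero_mul, map_zero]
  -- the points
  have hex : ∀ s ∈ (algebraMap L Ω) '' {s : L | ∃ w : L, (algebraMap L Ω w) ^ 2 =
      (Polynomial.X * g).eval (algebraMap L Ω s) ∧ ‖s‖ < ε ∧ ‖w‖ < ε},
      ∃ w : Ω, w ^ 2 = (Polynomial.X * g).eval s ∧ ∃ s' w' : L, algebraMap L Ω s' = s ∧
        algebraMap L Ω w' = w ∧ ‖s'‖ < ε ∧ ‖w'‖ < ε := by
    rintro _ ⟨s, ⟨w, hw, hs1, hw1⟩, rfl⟩
    exact ⟨algebraMap L Ω w, hw, s, w, rfl, rfl, hs1, hw1⟩
  choose! ω hω using hex
  have hNz : N = 0 := by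
    refine density_E (F := F) hg c D a (by rw [← hp]; exact ha) (by rw [← hp]; exact h1)
      (by rw [← hp, ← hb]; exact h4) (hinf.image inj.injOn) ω (fun s hs => (hω s hs).1) N ?_
    intro s hs x hx
    obtain ⟨hE, s', w', hs', hw', ns, nw⟩ := hω s hs
    have qp : (fun j => algebraMap L Ω (eval ![s', w'] (c' j))) =
        fun j => eval ![s, ω s] (c j) := by
      funext j
      rw [ev2, hc', hs', hw']
    have qv : (fun j => algebraMap L Ω (eval ![s', w'] (V' j))) =
        fun j => eval ![s, ω s] (V j) := by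
      funext j
      rw [ev2, hV', hs', hw']
    have qu : algebraMap L Ω (eval ![s', w'] U') = eval ![s, ω s] U := by
      rw [ev2, hU', hs', hw']
    have H0 := hcond s (ω s) (by rw [← hs', hn]; exact ns) (by rw [← hw', hn]; exact nw)
    have H : Cond F' R (fun j => eval ![s', w'] (c' j)) a' (fun j => eval ![s', w'] (V' j)) D'
        (eval ![s', w'] U') := by
      apply SCond.descend hn
      rw [e_lp, e_hs, e_TT, e_Lst, e_lp, e_lp, e_lp, e_lp, e_Sec, e_Dp, qp, qv, qu, ha', hD']
      exact H0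
    obtain ⟨hV1, hV2⟩ := hV s (ω s) hE
    refine point_vanish (K := L) h2n hF6 (fun j => eval ![s', w'] (c' j)) a'
      (fun j => eval ![s', w'] (V' j)) D' (eval ![s', w'] U') ?_ ?_ ?_ H.hk H.hh H.hT R hR
      H.n2 H.nB H.nC H.nQ N hNv x ?_
    · apply inj
      have h := MvPolynomial.comp_aeval_apply (f := fun j => eval ![s', w'] (c' j))
        (Algebra.ofId L Ω) F'
      simp only [Algebra.ofId_apply] at h
      rw [map_zero, h, qp, hF', aeval_base1]
      exact hc s (ω s) hE
    · apply inj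
      rw [e_lp, qp, qv, map_zero]
      exact hV1
    · apply inj
      rw [e_lp, qp, qv, map_pow, qu]
      exact hV2
    · change (lp F' (fun j => algebraMap L Ω (eval ![s', w'] (c' j))) x).coeff 1 = 0
      rw [qp, hF', lp_base1]
      exact hx
  have hz : G * F' = 0 := by
    apply MvPolynomial.map_injective (algebraMap L Ω) inj
    rw [map_zero]
    exact hNz
  exact (mul_eq_zero.mp hz).resolve_right hF'0

end Pool.Agent.L0h9.Rat
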