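import Pool.Agent.L0h9.Tri.Local

/-! Points of `w² = f(s)` near a simple zero of `f`. -/

namespace Pool.Agent.L0h9.Rat

open Topology Filter Polynomial Pool.Agent.L0h9.Tri Pool.Agent.H952R2.Sextic

theorem taylor_exp {Ω : Type*} [Field Ω] (f : Polynomial Ω) (hf : f.natDegree ≤ 4) (a s : Ω) :
    f.eval (a + s) = (hasseDeriv 0 f).eval a + (hasseDeriv 1 f).eval a * s +
      (hasseDeriv 2 f).eval a * s ^ 2 + (hasseDeriv 3 f).eval a * s ^ 3 +
      (hasseDeriv 4 f).eval a * s ^ 4 := by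
  have h1 := taylor_eval a f s
  rw [add_comm a s, ← h1, Polynomial.eval_eq_sum_range' (n := 5)
    (by rw [natDegree_taylor]; omega)]
  simp only [Finset.sum_range_succ, Finset.sum_range_zero, zero_add, pow_zero, mul_one, pow_one,
    taylor_coeff]

theorem inf_points {L Ω : Type*} [NontriviallyNormedField L] [IsUltrametricDist L]
    [NontriviallyNormedField Ω] [Algebra L Ω]
    (h20 : (2 : L) ≠ 0) (h2 : ‖(2 : L)‖ < 1) (f : Polynomial Ω) (hf : f.natDegree ≤ 4)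
    {R ε : ℝ} (hR : 1 ≤ R) (hε : 0 < ε) (s0 w0 A1 A2 A3 A4 : L)
    (hw : (algebraMap L Ω w0) ^ 2 = f.eval (algebraMap L Ω s0))
    (h1 : algebraMap L Ω A1 = (hasseDeriv 1 f).eval (algebraMap L Ω s0))
    (h2' : algebraMap L Ω A2 = (hasseDeriv 2 f).eval (algebraMap L Ω s0))
    (h3 : algebraMap L Ω A3 = (hasseDeriv 3 f).eval (algebraMap L Ω s0))
    (h4 : algebraMap L Ω A4 = (hasseDeriv 4 f).eval (algebraMap L Ω s0))
    (hw0 : w0 ≠ 0)
    (n2 : ‖A2‖ < R) (nB : ‖A1 * A3 - 4 * w0 ^ 2 * A4‖ < R)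
    (nC : ‖A1 ^ 2 * A4 + w0 ^ 2 * A3 ^ 2 - 4 * w0 ^ 2 * A2 * A4‖ < R)
    (nQ : R * ‖4 * w0 ^ 2‖ < ‖A1 ^ 2‖) (hs0 : ‖s0‖ < ε) (hw1 : ‖w0‖ < ε) :
    {s : L | ∃ w : L, (algebraMap L Ω w) ^ 2 = f.eval (algebraMap L Ω s) ∧
      ‖s‖ < ε ∧ ‖w‖ < ε}.Infinite := by
  have h40 : (4 : L) ≠ 0 := by
    have : (4 : L) = 2 * 2 := by norm_num
    rw [this]; exact mul_ne_zero h20 h20
  have hbig : R < ‖A1 ^ 2 / (4 * w0 ^ 2) - A2‖ := by
    have h1 : R < ‖A1 ^ 2 / (4 * w0 ^ 2)‖ := by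
      rw [norm_div, lt_div_iff₀ (norm_pos_iff.mpr (mul_ne_zero h40 (pow_ne_zero 2 hw0)))]
      exact nQ
    rw [sub_eq_add_neg, norm_add_left (by rw [norm_neg]; exact n2.trans h1)]
    exact h1
  intro hfin
  -- the bound
  have hd : ∀ᶠ s : L in 𝓝 0, s ∉ ((fun x => x - s0) ''
      {s : L | ∃ w : L, (algebraMap L Ω w) ^ 2 = f.eval (algebraMap L Ω s) ∧
      ‖s‖ < ε ∧ ‖w‖ < ε}) \ {0} := by
    have h5 := ((hfin.image (fun x => x - s0)).subset
      (Set.sdiff_subset (t := ({0} : Set L)))).isClosed.isOpen_compl.mem_nhds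
      (x := (0 : L)) (by simp)
    exact h5
  have hc1 : ∀ᶠ s : L in 𝓝 0, ‖s0 + s‖ < ε := by
    have : Continuous fun s : L => ‖s0 + s‖ := by fun_prop
    exact this.continuousAt.eventually_lt continuousAt_const (by simpa using hs0)
  have hc2 : ∀ᶠ s : L in 𝓝 0, ‖w0 ^ 2 + A1 * s + A2 * s ^ 2 + A3 * s ^ 3 + A4 * s ^ 4‖ <
      ε ^ 2 := by
    have : Continuous fun s : L => ‖w0 ^ 2 + A1 * s + A2 * s ^ 2 + A3 * s ^ 3 + A4 * s ^ 4‖ := by
      fun_prop
    refine this.continuousAt.eventually_lt continuousAt_const ?_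
    simp only [ne_eq, OfNat.ofNat_ne_zero, not_false_eq_true, zero_pow, mul_zero, add_zero,
      norm_pow]
    gcongr
  obtain ⟨δ, hδ, hball⟩ := Metric.eventually_nhds_iff.mp (hd.and (hc1.and hc2))
  obtain ⟨s, w, hs, hsδ, hws⟩ := quartic_near h20 h2 hw0 hR n2.le nB.le nC.le hbig hδ
  obtain ⟨g1, g2, g3⟩ := hball (y := s) (by rwa [dist_zero_right])
  apply g1
  refine ⟨⟨s0 + s, ⟨w, ?_, g2, ?_⟩, by ring⟩, hs⟩
  · rw [map_add, taylor_exp f hf, ← h1, ← h2', ← h3, ← h4, hasseDeriv_zero, LinearMap.id_apply,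
      ← hw, ← map_pow, hws]
    simp only [map_add, map_mul, map_pow]
  · rw [← hws, norm_pow] at g3
    exact lt_of_pow_lt_pow_left₀ 2 hε.le g3

theorem exists_s0 {Ω : Type*} [NontriviallyNormedField Ω] (g : Polynomial Ω)
    (hg : g.eval 0 ≠ 0) {ε : ℝ} (hε : 0 < ε) :
    ∃ (R : ℝ) (s0 : Ω), 1 ≤ R ∧ (X * g).eval s0 ≠ 0 ∧ ‖s0‖ < ε ∧ ‖(X * g).eval s0‖ < ε ^ 2 ∧
      ‖(hasseDeriv 2 (X * g)).eval s0‖ < R ∧
      ‖(hasseDeriv 1 (X * g)).eval s0 * (hasseDeriv 3 (X * g)).eval s0 -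
        4 * (X * g).eval s0 * (hasseDeriv 4 (X * g)).eval s0‖ < R ∧
      ‖(hasseDeriv 1 (X * g)).eval s0 ^ 2 * (hasseDeriv 4 (X * g)).eval s0 +
        (X * g).eval s0 * (hasseDeriv 3 (X * g)).eval s0 ^ 2 -
        4 * (X * g).eval s0 * (hasseDeriv 2 (X * g)).eval s0 *
          (hasseDeriv 4 (X * g)).eval s0‖ < R ∧
      R * ‖4 * (X * g).eval s0‖ < ‖(hasseDeriv 1 (X * g)).eval s0 ^ 2‖ := by
  set f : Polynomial Ω := X * g with hf
  set f1 := hasseDeriv 1 f with hf1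
  set f2 := hasseDeriv 2 f with hf2
  set f3 := hasseDeriv 3 f with hf3
  set f4 := hasseDeriv 4 f with hf4
  have hf0 : f.eval 0 = 0 := by simp [hf]
  have hf10 : f1.eval 0 ≠ 0 := by
    rw [hf1, hasseDeriv_one, hf]
    simpa using hg
  set R : ℝ := 1 + ‖f2.eval 0‖ + ‖f1.eval 0 * f3.eval 0‖ + ‖f1.eval 0 ^ 2 * f4.eval 0‖ with hR
  have m2 := norm_nonneg (f2.eval 0)
  have m3 := norm_nonneg (f1.eval 0 * f3.eval 0)
  have m4 := norm_nonneg (f1.eval 0 ^ 2 * f4.eval 0)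
  have e1 : ∀ᶠ s in 𝓝 (0 : Ω), ‖s‖ < ε := by
    refine continuous_norm.continuousAt.eventually_lt continuousAt_const (by simpa using hε)
  have e2 : ∀ᶠ s in 𝓝 (0 : Ω), ‖f.eval s‖ < ε ^ 2 := by
    refine (f.continuous.norm).continuousAt.eventually_lt continuousAt_const ?_
    rw [hf0, norm_zero]
    positivity
  have e3 : ∀ᶠ s in 𝓝 (0 : Ω), ‖f2.eval s‖ < R := by
    refine (f2.continuous.norm).continuousAt.eventually_lt continuousAt_const ?_
    linarith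
  have e4 : ∀ᶠ s in 𝓝 (0 : Ω), ‖f1.eval s * f3.eval s - 4 * f.eval s * f4.eval s‖ < R := by
    have : Continuous fun s => ‖f1.eval s * f3.eval s - 4 * f.eval s * f4.eval s‖ := by
      have c1 := f1.continuous
      have c3 := f3.continuous
      have c4 := f4.continuous
      have c := f.continuous
      fun_prop
    refine this.continuousAt.eventually_lt continuousAt_const ?_
    rw [hf0, mul_zero, zero_mul, sub_zero]
    linarith
  have e5 : ∀ᶠ s in 𝓝 (0 : Ω), ‖f1.eval s ^ 2 * f4.eval s + f.eval s * f3.eval s ^ 2 -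
      4 * f.eval s * f2.eval s * f4.eval s‖ < R := by
    have : Continuous fun s => ‖f1.eval s ^ 2 * f4.eval s + f.eval s * f3.eval s ^ 2 -
      4 * f.eval s * f2.eval s * f4.eval s‖ := by
      have c1 := f1.continuous
      have c2 := f2.continuous
      have c3 := f3.continuous
      have c4 := f4.continuous
      have c := f.continuous
      fun_prop
    refine this.continuousAt.eventually_lt continuousAt_const ?_
    rw [hf0, mul_zero, zero_mul, zero_mul, zero_mul, sub_zero, add_zero]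
    linarith
  have e6 : ∀ᶠ s in 𝓝 (0 : Ω), R * ‖4 * f.eval s‖ < ‖f1.eval s ^ 2‖ := by
    have c1 : Continuous fun s => R * ‖4 * f.eval s‖ := by
      have c := f.continuous
      fun_prop
    have c2 : Continuous fun s => ‖f1.eval s ^ 2‖ := by
      have c := f1.continuous
      fun_prop
    refine c1.continuousAt.eventually_lt c2.continuousAt ?_
    rw [hf0, mul_zero, norm_zero, mul_zero]
    exact norm_pos_iff.mpr (pow_ne_zero 2 hf10)
  have e7 : ∀ᶠ s in 𝓝 (0 : Ω), g.eval s ≠ 0 := g.continuous.continuousAt.eventually_ne hg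
  have e8 : ∀ᶠ s in 𝓝[≠] (0 : Ω), s ≠ 0 := eventually_mem_nhdsWithin
  have hall := (e1.and (e2.and (e3.and (e4.and (e5.and (e6.and e7)))))).filter_mono
    (nhdsWithin_le_nhds (s := {0}ᶜ))
  obtain ⟨s0, ⟨g1, g2, g3, g4, g5, g6, g7⟩, g8⟩ := (hall.and e8).exists
  refine ⟨R, s0, by linarith, ?_, g1, g2, g3, g4, g5, g6⟩
  rw [hf, eval_mul, eval_X]
  exact mul_ne_zero g8 g7

end Pool.Agent.L0h9.Rat
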