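import Pool.Agent.L0h9.Rat.EF
import Pool.Agent.L0h9.Rat.EN

/-! The data over the algebraic closure. -/

namespace Pool.Agent.L0h9.Rat

open MvPolynomial Pool.Agent.H952R2 Pool.Agent.H952R2.Sextic Topology Filter

section

variable {Ω : Type*} [Field Ω]

/-- From two variables to iterated polynomials. -/
noncomputable def tau2 : MvPolynomial (Fin 2) Ω →+* Polynomial (Polynomial Ω) :=
  eval₂Hom (Polynomial.C.comp Polynomial.C) ![Polynomial.C Polynomial.X, Polynomial.X]

theorem evalEval_tau2 (s w : Ω) (h : MvPolynomial (Fin 2) Ω) :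
    Polynomial.evalEval s w (tau2 h) = eval ![s, w] h := by
  have : (Polynomial.evalEvalRingHom s w).comp tau2 = eval ![s, w] := by
    apply MvPolynomial.ringHom_ext
    · intro a
      simp [tau2, Polynomial.evalEval]
    · intro i
      fin_cases i
      · simp [tau2, Polynomial.evalEval]
      · simp [tau2, Polynomial.evalEval]
  exact congrArg (fun φ : MvPolynomial (Fin 2) Ω →+* Ω => φ h) this

/-- The inverse. -/
noncomputable def sig2 : Polynomial (Polynomial Ω) →+* MvPolynomial (Fin 2) Ω :=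
  Polynomial.eval₂RingHom (Polynomial.eval₂RingHom C (X 0)) (X 1)

theorem eval_sig2 (s w : Ω) (h : Polynomial (Polynomial Ω)) :
    eval ![s, w] (sig2 h) = Polynomial.evalEval s w h := by
  have : (eval ![s, w]).comp sig2 = Polynomial.evalEvalRingHom s w := by
    apply Polynomial.ringHom_ext'
    · apply Polynomial.ringHom_ext'
      · apply RingHom.ext
        intro a
        simp [sig2, Polynomial.evalEval]
      · simp [sig2, Polynomial.evalEval]
    · simp [sig2, Polynomial.evalEval]
  exact congrArg (fun φ : Polynomial (Polynomial Ω) →+* Ω => φ h) this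

/-- The section, in two variables. -/
theorem sect2 [IsAlgClosed Ω] [CharZero Ω] {g : Polynomial Ω} (hg : g.eval 0 ≠ 0)
    (A B C' : MvPolynomial (Fin 2) Ω) (hA : eval ![0, 0] A = 0) (hB : eval ![0, 0] B ≠ 0) :
    ∃ x y u : MvPolynomial (Fin 2) Ω, eval ![0, 0] y ≠ 0 ∧
      ∀ s w : Ω, w ^ 2 = (Polynomial.X * g).eval s →
        OnConic (eval ![s, w] A) (eval ![s, w] B) (eval ![s, w] C') (eval ![s, w] x)
          (eval ![s, w] y) (eval ![s, w] u) := by
  rw [← evalEval_tau2] at hA hB
  obtain ⟨x, y, u, hy, h⟩ := sect_curve hg (tau2 A) (tau2 B) (tau2 C') hA hB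
  refine ⟨sig2 x, sig2 y, sig2 u, by rw [eval_sig2]; exact hy, fun s w hw => ?_⟩
  have := h s w hw
  rw [evalEval_tau2, evalEval_tau2, evalEval_tau2] at this
  rw [eval_sig2, eval_sig2, eval_sig2]
  exact this

/-- The derivation along the curve `w² = f(s)`. -/
noncomputable def dE (f : Polynomial Ω) :
    Derivation Ω (MvPolynomial (Fin 2) Ω) (MvPolynomial (Fin 2) Ω) :=
  (2 * X 1 : MvPolynomial (Fin 2) Ω) • pderiv 0 +
    (Polynomial.aeval (X 0) (Polynomial.derivative f) : MvPolynomial (Fin 2) Ω) • pderiv 1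

theorem dE_apply (f : Polynomial Ω) (h : MvPolynomial (Fin 2) Ω) :
    dE f h = 2 * X 1 * pderiv 0 h +
      Polynomial.aeval (X 0) (Polynomial.derivative f) * pderiv 1 h := rfl

theorem dE_eqn (f : Polynomial Ω) : dE f (eqn f) = 0 := by
  have h0 : pderiv 0 (eqn f) = -Polynomial.aeval (X 0) (Polynomial.derivative f) := by
    rw [eqn, map_sub, Derivation.map_aeval, pderiv_X_self, Derivation.leibniz_pow,
      pderiv_X_of_ne (by decide)]
    simp
  have h1 : pderiv 1 (eqn f) = 2 * X 1 := by
    rw [eqn, map_sub, Derivation.map_aeval, pderiv_X_of_ne (by decide), smul_zero, sub_zero,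
      Derivation.leibniz_pow, pderiv_X_self]
    simp
  rw [dE_apply, h0, h1]
  ring

theorem eval_dE_eqn_mul (f : Polynomial Ω) (k : MvPolynomial (Fin 2) Ω) {s w : Ω}
    (h : w ^ 2 = f.eval s) : eval ![s, w] (dE f (eqn f * k)) = 0 := by
  rw [Derivation.leibniz, dE_eqn, smul_zero, add_zero, smul_eq_mul]
  exact eval_eqn_mul f _ h

end

section data

variable {K : Type*} [Field K] {ι : Type*} [Fintype ι] {Ω : Type*} [Field Ω] [Algebra K Ω]
  [IsAlgClosed Ω] [CharZero Ω]

/-- The section over the curve. -/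
theorem exists_data (F : MvPolynomial ι K) {g : Polynomial Ω} (hg : g.eval 0 ≠ 0)
    (c : ι → MvPolynomial (Fin 2) Ω)
    (hc : ∀ s w : Ω, w ^ 2 = (Polynomial.X * g).eval s →
      aeval (fun j => eval ![s, w] (c j)) F = 0)
    (D p b a : ι → Ω) (hp : p = fun j => eval ![0, 0] (c j))
    (hb : b = fun j => eval ![0, 0] (pderiv 1 (c j)))
    (ha : (lp F p a).coeff 1 ≠ 0) (h1 : (lp F p D).coeff 1 = 0) (h2 : (lp F p D).coeff 2 = 0)
    (h4 : hs F p D b ≠ 0) :
    ∃ (V : ι → MvPolynomial (Fin 2) Ω) (U : MvPolynomial (Fin 2) Ω),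
      (∀ s w : Ω, w ^ 2 = (Polynomial.X * g).eval s →
        (lp F (fun j => eval ![s, w] (c j)) (fun j => eval ![s, w] (V j))).coeff 1 = 0 ∧
        (lp F (fun j => eval ![s, w] (c j)) (fun j => eval ![s, w] (V j))).coeff 2 =
          (eval ![s, w] U) ^ 2) ∧
      hs F p D (fun j => eval ![0, 0] (V j)) ≠ 0 := by
  set ψ : (Fin 2 → Ω) → (MvPolynomial (Fin 2) Ω →ₐ[K] Ω) := fun t =>
    (aeval t : MvPolynomial (Fin 2) Ω →ₐ[Ω] Ω).restrictScalars K with hψ
  have ψe : ∀ t z, ψ t z = eval t z := fun t z => aeval_eval t z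
  set f : Polynomial Ω := Polynomial.X * g with hf
  -- the equation
  obtain ⟨k, hk⟩ : ∃ k, aeval c F = eqn f * k := by
    choose ω hω using fun s : Ω => IsAlgClosed.exists_pow_nat_eq (f.eval s) (n := 2) (by norm_num)
    have : Infinite Ω := IsAlgClosed.instInfinite
    refine vanish_inf hg (aeval c F) Set.infinite_univ ω (fun s _ => hω s) (fun s _ => ?_)
    rw [← hc s (ω s) (hω s)]
    have h2 := MvPolynomial.comp_aeval_apply (f := c) (ψ ![s, ω s]) F
    simp only [ψe] at h2
    exact h2
  set Dt : ι → MvPolynomial (Fin 2) Ω := Dp F c (fun j => C (a j)) (fun j => C (D j)) with hDt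
  set e : ι → MvPolynomial (Fin 2) Ω := fun j => dE f (c j) with he
  have hψc : (fun j => ψ ![0, 0] (c j)) = p := by
    rw [hp]; funext j; exact ψe _ _
  have hψe : (fun j => ψ ![0, 0] (e j)) = fun j => g.eval 0 * b j := by
    rw [hb]
    funext j
    rw [ψe, he]
    simp only [dE_apply, map_add, map_mul, eval_X, eval_inner, hf]
    simp
  have hψD : (fun j => ψ ![0, 0] (Dt j)) = fun j => (lp F p a).coeff 1 * D j := by
    have e1 := map_Dp (ψ ![0, 0]) F c (fun j => C (a j)) (fun j => C (D j))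
    have e2 : (fun j => ψ ![0, 0] (C (a j))) = a := by
      funext j; rw [ψe, eval_C]
    have e3 : (fun j => ψ ![0, 0] (C (D j))) = D := by
      funext j; rw [ψe, eval_C]
    rw [e2, e3, hψc] at e1
    rw [hDt, e1]
    funext j
    rw [Dp, h1]
    ring
  have hA : eval ![0, 0] ((lp F c Dt).coeff 2) = 0 := by
    rw [← ψe, lp_coeff_map, hψc, hψD, lp_smul_coeff, h2, mul_zero]
  have hB : eval ![0, 0] (hs F c Dt e) ≠ 0 := by
    rw [← ψe, map_hs, hψc, hψD, hψe, hs_smul_left, hs_comm, hs_smul_left, hs_comm F p b D]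
    exact mul_ne_zero ha (mul_ne_zero hg h4)
  obtain ⟨x, y, u, hy, hC⟩ := sect2 hg ((lp F c Dt).coeff 2) (hs F c Dt e)
    ((lp F c e).coeff 2) hA hB
  have hmap : ∀ t (z : ι → MvPolynomial (Fin 2) Ω) i,
      (lp F (fun j => eval t (c j)) (fun j => eval t (z j))).coeff i =
        eval t ((lp F c z).coeff i) := by
    intro t z i
    have h := lp_coeff_map (ψ t) F c z i
    simp only [ψe] at h
    exact h.symm
  refine ⟨fun j => x * Dt j + y * e j, u, ?_, ?_⟩
  · intro s w hw
    rw [hmap, hmap]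
    refine ⟨?_, ?_⟩
    · have h5 : eval ![s, w] ((lp F c e).coeff 1) = 0 := by
        have h6 := der_aeval ((dE f).restrictScalars K) c F
        rw [hk] at h6
        have h7 := congrArg (eval ![s, w]) h6
        have h8 : eval ![s, w] (((dE f).restrictScalars K) (eqn f * k)) = 0 :=
          eval_dE_eqn_mul f k hw
        rw [h8] at h7
        rw [lp_coeff_one, h7]
        congr 1
        refine Finset.sum_congr rfl fun j _ => ?_
        exact mul_comm _ _
      rw [lp_coeff_one_add, hDt, Dp_coeff_one, mul_zero, zero_add, map_mul, h5, mul_zero]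
    · have h20 : (2 : Ω) ≠ 0 := two_ne_zero
      apply mul_right_cancel₀ h20
      have h6 := congrArg (eval ![s, w]) (hs_self F c (fun j => x * Dt j + y * e j))
      rw [hs_add_smul, hs_self, hs_self] at h6
      have h7 := hC s w hw
      rw [OnConic] at h7
      simp only [map_add, map_mul, map_ofNat, map_pow] at h6 h7 ⊢
      rw [← h6, ← h7]
      ring
  · have e1 : (fun j => eval ![0, 0] (x * Dt j + y * e j)) =
        fun j => (eval ![0, 0] x * (lp F p a).coeff 1) * D j +
          (eval ![0, 0] y * g.eval 0) * b j := by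
      funext j
      have e2 := congrFun hψD j
      have e3 := congrFun hψe j
      simp only [ψe] at e2 e3
      rw [map_add, map_mul, map_mul, e2, e3]
      ring
    rw [e1, hs_comm, hs_add_left F p (fun j => (eval ![0, 0] x * (lp F p a).coeff 1) * D j)
      (fun j => (eval ![0, 0] y * g.eval 0) * b j), hs_smul_left, hs_smul_left, hs_self, h2,
      hs_comm F p b D]
    rw [zero_mul, mul_zero, zero_add]
    exact mul_ne_zero (mul_ne_zero hy hg) h4

end data

end Pool.Agent.L0h9.Rat
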