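import Pool.Agent.L0h9.Rat.EM

/-! The open conditions. -/

namespace Pool.Agent.L0h9.Rat

open MvPolynomial Pool.Agent.H952R2 Pool.Agent.H952R2.Sextic Topology Filter

/-- The scalar conditions. -/
structure SCond {Ω : Type*} [NormedField Ω] (R : ℝ) (k h T q3 q4 q5 q6 l : Ω) : Prop where
  hk : k ≠ 0
  hh : h ≠ 0
  hT : T ≠ 0
  n2 : ‖q4‖ < R
  nB : ‖q3 * q5 - 4 * l ^ 2 * q6‖ < R
  nC : ‖q3 ^ 2 * q6 + l ^ 2 * q5 ^ 2 - 4 * l ^ 2 * q4 * q6‖ < R
  nQ : R * ‖4 * l ^ 2‖ < ‖q3 ^ 2‖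

theorem SCond.descend {L Ω : Type*} [NormedField L] [NormedField Ω] [Algebra L Ω]
    (hn : ∀ x : L, ‖algebraMap L Ω x‖ = ‖x‖) {R : ℝ} {k h T q3 q4 q5 q6 l : L}
    (H : SCond R (algebraMap L Ω k) (algebraMap L Ω h) (algebraMap L Ω T) (algebraMap L Ω q3)
      (algebraMap L Ω q4) (algebraMap L Ω q5) (algebraMap L Ω q6) (algebraMap L Ω l)) :
    SCond R k h T q3 q4 q5 q6 l := by
  refine ⟨?_, ?_, ?_, ?_, ?_, ?_, ?_⟩
  · rintro rfl
    exact H.hk (map_zero _)
  · rintro rfl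
    exact H.hh (map_zero _)
  · rintro rfl
    exact H.hT (map_zero _)
  · rw [← hn]
    exact H.n2
  · rw [← hn]
    simpa only [map_sub, map_mul, map_pow, map_ofNat] using H.nB
  · rw [← hn]
    simpa only [map_sub, map_add, map_mul, map_pow, map_ofNat] using H.nC
  · rw [← hn, ← hn]
    simpa only [map_sub, map_add, map_mul, map_pow, map_ofNat] using H.nQ

theorem SCond.near {σ Ω : Type*} [Fintype σ] [NormedField Ω]
    (k h T q3 q4 q5 q6 l : MvPolynomial σ Ω) (t0 : σ → Ω) (hk : eval t0 k ≠ 0)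
    (hh : eval t0 h ≠ 0) (hT : eval t0 T ≠ 0) (hq : eval t0 q3 ≠ 0) (hl : eval t0 l = 0) :
    ∃ R : ℝ, 1 ≤ R ∧ ∀ᶠ t in 𝓝 t0, SCond R (eval t k) (eval t h) (eval t T) (eval t q3)
      (eval t q4) (eval t q5) (eval t q6) (eval t l) := by
  set R : ℝ := 1 + ‖eval t0 q4‖ + ‖eval t0 q3 * eval t0 q5‖ + ‖eval t0 q3 ^ 2 * eval t0 q6‖ with hR
  have m2 := norm_nonneg (eval t0 q4)
  have m3 := norm_nonneg (eval t0 q3 * eval t0 q5)
  have m4 := norm_nonneg (eval t0 q3 ^ 2 * eval t0 q6)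
  have ck : ∀ p : MvPolynomial σ Ω, Continuous fun t => eval t p := fun p =>
    MvPolynomial.continuous_eval p
  have c3 := ck q3
  have c4 := ck q4
  have c5 := ck q5
  have c6 := ck q6
  have cl := ck l
  have e1 : ∀ᶠ t in 𝓝 t0, eval t k ≠ 0 := (ck k).continuousAt.eventually_ne hk
  have e2 : ∀ᶠ t in 𝓝 t0, eval t h ≠ 0 := (ck h).continuousAt.eventually_ne hh
  have e3 : ∀ᶠ t in 𝓝 t0, eval t T ≠ 0 := (ck T).continuousAt.eventually_ne hT
  have e4 : ∀ᶠ t in 𝓝 t0, ‖eval t q4‖ < R := by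
    refine c4.norm.continuousAt.eventually_lt continuousAt_const ?_
    linarith
  have e5 : ∀ᶠ t in 𝓝 t0, ‖eval t q3 * eval t q5 - 4 * eval t l ^ 2 * eval t q6‖ < R := by
    have : Continuous fun t => ‖eval t q3 * eval t q5 - 4 * eval t l ^ 2 * eval t q6‖ := by
      fun_prop
    refine this.continuousAt.eventually_lt continuousAt_const ?_
    have h0 : eval t0 q3 * eval t0 q5 - 4 * eval t0 l ^ 2 * eval t0 q6 =
        eval t0 q3 * eval t0 q5 := by rw [hl]; ring
    rw [h0]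
    linarith
  have e6 : ∀ᶠ t in 𝓝 t0, ‖eval t q3 ^ 2 * eval t q6 + eval t l ^ 2 * eval t q5 ^ 2 -
      4 * eval t l ^ 2 * eval t q4 * eval t q6‖ < R := by
    have : Continuous fun t => ‖eval t q3 ^ 2 * eval t q6 + eval t l ^ 2 * eval t q5 ^ 2 -
      4 * eval t l ^ 2 * eval t q4 * eval t q6‖ := by
      fun_prop
    refine this.continuousAt.eventually_lt continuousAt_const ?_
    have h0 : eval t0 q3 ^ 2 * eval t0 q6 + eval t0 l ^ 2 * eval t0 q5 ^ 2 -
      4 * eval t0 l ^ 2 * eval t0 q4 * eval t0 q6 = eval t0 q3 ^ 2 * eval t0 q6 := by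
      rw [hl]; ring
    rw [h0]
    linarith
  have e7 : ∀ᶠ t in 𝓝 t0, R * ‖4 * eval t l ^ 2‖ < ‖eval t q3 ^ 2‖ := by
    have c1 : Continuous fun t => R * ‖4 * eval t l ^ 2‖ := by fun_prop
    have c2 : Continuous fun t => ‖eval t q3 ^ 2‖ := by fun_prop
    refine c1.continuousAt.eventually_lt c2.continuousAt ?_
    have h0 : R * ‖4 * eval t0 l ^ 2‖ = 0 := by rw [hl]; simp
    rw [h0]
    exact norm_pos_iff.mpr (pow_ne_zero 2 hq)
  refine ⟨R, by linarith, ?_⟩
  filter_upwards [e1, e2, e3, e4, e5, e6, e7] with t g1 g2 g3 g4 g5 g6 g7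
  exact ⟨g1, g2, g3, g4, g5, g6, g7⟩

/-- The conditions at one point. -/
def Cond {K : Type*} [Field K] {ι : Type*} [Fintype ι] {Ω : Type*} [NormedField Ω] [Algebra K Ω]
    (F : MvPolynomial ι K) (R : ℝ) (p a v D : ι → Ω) (u0 : Ω) : Prop :=
  SCond R ((lp F p a).coeff 1) (hs F p (Dp F p a D) v) (TT F p v (Dp F p a D) u0)
    ((lp F p (Sec F p v (Dp F p a D) u0 0)).coeff 3)
    ((lp F p (Sec F p v (Dp F p a D) u0 0)).coeff 4)
    ((lp F p (Sec F p v (Dp F p a D) u0 0)).coeff 5)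
    ((lp F p (Sec F p v (Dp F p a D) u0 0)).coeff 6)
    (Lst F p v (Dp F p a D) u0 0)

theorem near_data {K : Type*} [Field K] {ι : Type*} [Fintype ι] {Ω : Type*} [NormedField Ω]
    [Algebra K Ω] (F : MvPolynomial ι K) (c V : ι → MvPolynomial (Fin 2) Ω)
    (U : MvPolynomial (Fin 2) Ω) (D p a : ι → Ω) (hp : p = fun j => eval ![0, 0] (c j))
    (ha : (lp F p a).coeff 1 ≠ 0) (h1 : (lp F p D).coeff 1 = 0) (h2 : (lp F p D).coeff 2 = 0)
    (h3 : (lp F p D).coeff 3 ≠ 0) (h5 : hs F p D (fun j => eval ![0, 0] (V j)) ≠ 0) :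
    ∃ R ε : ℝ, 1 ≤ R ∧ 0 < ε ∧ ∀ s w : Ω, ‖s‖ < ε → ‖w‖ < ε →
      Cond F R (fun j => eval ![s, w] (c j)) a (fun j => eval ![s, w] (V j)) D
        (eval ![s, w] U) := by
  set ψ : (Fin 2 → Ω) → (MvPolynomial (Fin 2) Ω →ₐ[K] Ω) := fun t =>
    (aeval t : MvPolynomial (Fin 2) Ω →ₐ[Ω] Ω).restrictScalars K with hψ
  have ψe : ∀ t z, ψ t z = eval t z := fun t z => aeval_eval t z
  set Y : ι → MvPolynomial (Fin 2) Ω := Dp F c (fun j => C (a j)) (fun j => C (D j)) with hY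
  set S : ι → MvPolynomial (Fin 2) Ω := Sec F c V Y U 0 with hS
  have eY : ∀ t, (fun j => eval t (Y j)) = Dp F (fun j => eval t (c j)) a D := by
    intro t
    have h := map_Dp (ψ t) F c (fun j => C (a j)) (fun j => C (D j))
    simp only [ψe, eval_C] at h
    exact h
  have eS : ∀ t, (fun j => eval t (S j)) = Sec F (fun j => eval t (c j)) (fun j => eval t (V j))
      (Dp F (fun j => eval t (c j)) a D) (eval t U) 0 := by
    intro t
    have h := map_Sec (ψ t) F c V Y U 0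
    simp only [ψe, map_zero] at h
    rw [eY] at h
    exact h
  have elp : ∀ t (z : ι → MvPolynomial (Fin 2) Ω) i, eval t ((lp F c z).coeff i) =
      (lp F (fun j => eval t (c j)) (fun j => eval t (z j))).coeff i := by
    intro t z i
    have h := lp_coeff_map (ψ t) F c z i
    simp only [ψe] at h
    exact h
  have ek : ∀ t, eval t ((lp F c (fun j => C (a j))).coeff 1) =
      (lp F (fun j => eval t (c j)) a).coeff 1 := by
    intro t
    rw [elp]
    simp only [eval_C]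
  have eh : ∀ t, eval t (hs F c Y V) = hs F (fun j => eval t (c j))
      (Dp F (fun j => eval t (c j)) a D) (fun j => eval t (V j)) := by
    intro t
    have h := map_hs (ψ t) F c Y V
    simp only [ψe] at h
    rw [eY] at h
    exact h
  have eT : ∀ t, eval t (TT F c V Y U) = TT F (fun j => eval t (c j)) (fun j => eval t (V j))
      (Dp F (fun j => eval t (c j)) a D) (eval t U) := by
    intro t
    have h := map_TT (ψ t) F c V Y U
    simp only [ψe] at h
    rw [eY] at h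
    exact h
  have eL : ∀ t, eval t (Lst F c V Y U 0) = Lst F (fun j => eval t (c j))
      (fun j => eval t (V j)) (Dp F (fun j => eval t (c j)) a D) (eval t U) 0 := by
    intro t
    have h := map_Lst (ψ t) F c V Y U 0
    simp only [ψe, map_zero] at h
    rw [eY] at h
    exact h
  -- the special point
  have hD0 : Dp F p a D = fun j => (lp F p a).coeff 1 * D j := by
    funext j
    rw [Dp, h1]
    ring
  have hq0 : ∀ u0 : Ω, qd F p (Dp F p a D) 0 = 0 := by
    intro u0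
    rw [hD0, qd, lp_smul_coeff, h2]
    ring
  have hp0 : (fun j => eval (![0, 0] : Fin 2 → Ω) (c j)) = p := hp.symm
  obtain ⟨R, hR, hev⟩ := SCond.near ((lp F c (fun j => C (a j))).coeff 1) (hs F c Y V)
    (TT F c V Y U) ((lp F c S).coeff 3) ((lp F c S).coeff 4) ((lp F c S).coeff 5)
    ((lp F c S).coeff 6) (Lst F c V Y U 0) ![0, 0] (by rw [ek, hp0]; exact ha)
    (by
      rw [eh, hp0, hD0, hs_smul_left]
      exact mul_ne_zero ha h5)
    (by
      rw [eT, hp0, hD0, TT, hs_smul_left, hs_self, lp_smul_coeff, h2, mul_zero, zero_mul,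
        mul_zero, sub_zero]
      exact pow_ne_zero 2 (mul_ne_zero ha h5))
    (by
      rw [elp, eS, hp0]
      have hS0 : Sec F p (fun j => eval ![0, 0] (V j)) (Dp F p a D) (eval ![0, 0] U) 0 =
          fun j => ((lp F p a).coeff 1 * hs F p D (fun j => eval ![0, 0] (V j)) *
            (lp F p a).coeff 1) * D j := by
        funext j
        rw [Sec, hq0 0, wt, hD0, hs_smul_left]
        ring
      rw [hS0, lp_smul_coeff]
      exact mul_ne_zero (pow_ne_zero _ (mul_ne_zero (mul_ne_zero ha h5) ha)) h3)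
    (by
      rw [eL, hp0, Lst, hq0 0]
      ring)
  obtain ⟨ε, hε, hball⟩ := Metric.eventually_nhds_iff.mp hev
  refine ⟨R, ε, hR, hε, fun s w hs hw => ?_⟩
  have hd : dist (![s, w] : Fin 2 → Ω) ![0, 0] < ε := by
    rw [dist_pi_lt_iff hε]
    intro i
    fin_cases i
    · simpa using hs
    · simpa using hw
  have h := hball hd
  rw [ek, eh, eT, eL, elp, elp, elp, elp, eS] at h
  exact h

end Pool.Agent.L0h9.Rat
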