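import Pool.Agent.L0h9.Rat.Fin

/-! The families of curves of genus one over one point of the branch divisor. -/

namespace Pool.Agent.L0h9.Rat

open MvPolynomial Pool.Agent.H952R2 Pool.Agent.H952R2.Sextic Topology Filter

/-- The two-adic theorem with a point at which `u` is small. -/
theorem thmP {K : Type*} [NontriviallyNormedField K] [IsUltrametricDist K]
    {σ : Type*} [Fintype σ] (h20 : (2 : K) ≠ 0) (h2 : ‖(2 : K)‖ < 1)
    {M : Type*} [Field M] [Algebra K M]
    (u q1 q2 q3 q4 : MvPolynomial σ K) (t0 : σ → K) (hu : u ≠ 0) (R : ℝ) (hR1 : 1 ≤ R)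
    (n2 : ‖eval t0 q2‖ < R)
    (nB' : ‖eval t0 q1 * eval t0 q3 - 4 * eval t0 u ^ 2 * eval t0 q4‖ < R)
    (nC' : ‖eval t0 q1 ^ 2 * eval t0 q4 + eval t0 u ^ 2 * eval t0 q3 ^ 2 -
      4 * eval t0 u ^ 2 * eval t0 q2 * eval t0 q4‖ < R)
    (nQ' : R * ‖4 * eval t0 u ^ 2‖ < ‖eval t0 q1 ^ 2‖) (P : Polynomial (MvPolynomial σ M))
    (hP : ∀ (t : σ → K) (s : K), (∃ w, w ^ 2 = (eval t u) ^ 2 + eval t q1 * s +
      eval t q2 * s ^ 2 + eval t q3 * s ^ 3 + eval t q4 * s ^ 4) →
      Polynomial.eval (algebraMap K M s) (P.map (eval (fun i => algebraMap K M (t i)))) = 0) :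
    P = 0 := by
  have h40 : (4 : K) ≠ 0 := by
    have : (4 : K) = 2 * 2 := by norm_num
    rw [this]; exact mul_ne_zero h20 h20
  set B : MvPolynomial σ K := q1 * q3 - C 4 * u ^ 2 * q4 with hB
  set C' : MvPolynomial σ K := q1 ^ 2 * q4 + u ^ 2 * q3 ^ 2 - C 4 * u ^ 2 * q2 * q4 with hC
  have cont : ∀ p : MvPolynomial σ K, Continuous fun t => ‖eval t p‖ := fun p =>
    (MvPolynomial.continuous_eval p).norm
  have near : ∀ p : MvPolynomial σ K, ‖eval t0 p‖ < R → ∀ᶠ t in 𝓝 t0, ‖eval t p‖ < R :=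
    fun p hp => (cont p).continuousAt.eventually_lt continuousAt_const hp
  have nA : ∀ᶠ t in 𝓝 t0, ‖eval t q2‖ < R := near _ n2
  have nB : ∀ᶠ t in 𝓝 t0, ‖eval t B‖ < R := near _ (by simpa [hB] using nB')
  have nC : ∀ᶠ t in 𝓝 t0, ‖eval t C'‖ < R := near _ (by simpa [hC] using nC')
  have nQ : ∀ᶠ t in 𝓝 t0, R * ‖eval t (C 4 * u ^ 2)‖ < ‖eval t (q1 ^ 2)‖ := by
    refine ContinuousAt.eventually_lt (continuousAt_const.mul (cont _).continuousAt)
      (cont _).continuousAt ?_
    simpa using nQ'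
  obtain ⟨ε, hε, hball⟩ := Metric.eventually_nhds_iff.mp (nA.and (nB.and (nC.and nQ)))
  -- all coefficients vanish
  have hcoef : ∀ k, P.coeff k * MvPolynomial.map (algebraMap K M) u = 0 := by
    intro k
    have hinf : ∀ i : σ, (algebraMap K M '' Metric.ball (t0 i) ε).Infinite := fun i =>
      (infinite_of_mem_nhds (t0 i) (Metric.ball_mem_nhds _ hε)).image
        (algebraMap K M).injective.injOn
    refine MvPolynomial.funext_set _ hinf ?_
    intro x hx
    have hx' : ∀ i, ∃ y ∈ Metric.ball (t0 i) ε, algebraMap K M y = x i := fun i => hx i trivial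
    choose t ht htx using hx'
    have hxt : x = fun i => algebraMap K M (t i) := funext fun i => (htx i).symm
    have hdist : dist t t0 < ε := (dist_pi_lt_iff hε).mpr fun i => Metric.mem_ball.mp (ht i)
    obtain ⟨gA, gB, gC, gQ⟩ := hball hdist
    rw [map_mul, map_zero]
    have hev : ∀ p : MvPolynomial σ K, eval x (MvPolynomial.map (algebraMap K M) p) =
        algebraMap K M (eval t p) := by
      intro p
      rw [hxt, MvPolynomial.eval_map, ← MvPolynomial.coe_eval₂Hom,
        ← RingHom.comp_apply (algebraMap K M) (eval t)]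
      congr 1
      ext i <;> simp
    rw [hev]
    by_cases hut : eval t u = 0
    · rw [hut, map_zero, mul_zero]
    · have hbig : R < ‖eval t q1 ^ 2 / (4 * eval t u ^ 2) - eval t q2‖ := by
        have h1 : R < ‖eval t q1 ^ 2 / (4 * eval t u ^ 2)‖ := by
          rw [norm_div, lt_div_iff₀ (norm_pos_iff.mpr (mul_ne_zero h40 (pow_ne_zero 2 hut)))]
          simpa using gQ
        rw [sub_eq_add_neg, norm_add_left (by rw [norm_neg]; exact gA.trans h1)]
        exact h1
      have hinf2 := quartic_infinite h20 h2 hut hR1 gA.le (by simpa [hB] using gB.le)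
        (by simpa [hC] using gC.le) hbig
      have hzero : P.map (eval (fun i => algebraMap K M (t i))) = 0 := by
        apply Polynomial.eq_zero_of_infinite_isRoot
        refine (hinf2.image (algebraMap K M).injective.injOn).mono ?_
        rintro _ ⟨s, hs, rfl⟩
        exact hP t s hs
      have := congrArg (fun p => Polynomial.coeff p k) hzero
      simp only [Polynomial.coeff_map, Polynomial.coeff_zero] at this
      rw [hxt, this, zero_mul]
  ext1 k
  have hu' : MvPolynomial.map (algebraMap K M) u ≠ 0 := by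
    intro h
    apply hu
    apply MvPolynomial.map_injective _ (algebraMap K M).injective
    rw [h, map_zero]
  rw [Polynomial.coeff_zero]
  exact (mul_eq_zero.mp (hcoef k)).resolve_right hu'

section

variable {K : Type*} [Field K] {ι : Type*} [Fintype ι]

/-- The key vanishing statement, given the two-adic theorem. -/
theorem param_core [CharZero K] {M : Type*} [Field M] [Algebra K M]
    {F : MvPolynomial ι K} (hF : F.IsHomogeneous 6) {d : Dat K ι} (h : Sound F d)
    (N : MvPolynomial ι M)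
    (hN : ∀ (x : ι → K) (w : K), w ^ 2 = aeval x F →
      aeval (fun j => algebraMap K M (x j)) N = 0)
    (hG : ∀ P : Polynomial (MvPolynomial (Prm1 ι) M),
      (∀ (t : Prm1 ι → K) (s : K), (∃ w, w ^ 2 = (eval t (genU1 F d)) ^ 2 +
        eval t (genQ1 F d 3) * s + eval t (genQ1 F d 4) * s ^ 2 + eval t (genQ1 F d 5) * s ^ 3 +
        eval t (genQ1 F d 6) * s ^ 4) →
      Polynomial.eval (algebraMap K M s) (P.map (eval (fun i => algebraMap K M (t i)))) = 0) →
      P = 0) :
    ∀ (v : Prm1 ι → M) (s : M),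
      aeval (fun j => v (Sum.inl 0) * (ev d.c (v (Sum.inl 1)) j + DD1 F d v j * s)) N = 0 := by
  classical
  set P : Polynomial (MvPolynomial (Prm1 ι) M) :=
    lp N (fun j => X (Sum.inl 0) * ev d.c (X (Sum.inl 1) : MvPolynomial (Prm1 ι) M) j)
      (fun j => X (Sum.inl 0) * DD1 F d X j) with hP
  have evP : ∀ (v : Prm1 ι → M) (s : M), Polynomial.eval s (P.map (eval v)) =
      aeval (fun j => v (Sum.inl 0) * (ev d.c (v (Sum.inl 1)) j + DD1 F d v j * s)) N := by
    intro v s
    have e1 := lp_map (aeval v : MvPolynomial (Prm1 ι) M →ₐ[M] M) N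
      (fun j => X (Sum.inl 0) * ev d.c (X (Sum.inl 1) : MvPolynomial (Prm1 ι) M) j)
      (fun j => X (Sum.inl 0) * DD1 F d X j)
    have e2 : ((aeval v : MvPolynomial (Prm1 ι) M →ₐ[M] M) : MvPolynomial (Prm1 ι) M →+* M) =
        eval v := RingHom.ext fun p => aeval_eval v p
    rw [e2] at e1
    rw [hP, e1, lp_eval]
    congr 2
    funext j
    have e3 := congrFun (map_ev ((aeval v : MvPolynomial (Prm1 ι) M →ₐ[M] M).restrictScalars K)
      d.c (X (Sum.inl 1))) j
    have e4 := congrFun (map_DD1 ((aeval v : MvPolynomial (Prm1 ι) M →ₐ[M] M).restrictScalars K)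
      F d X) j
    simp only [AlgHom.coe_restrictScalars', aeval_X] at e3 e4
    simp only [map_mul, aeval_X, e3, e4]
    ring
  have hPz : P = 0 := by
    refine hG P ?_
    rintro t s ⟨w, hw⟩
    rw [evP]
    have h5 := aeval_curve hF h t (t (Sum.inl 0)) s
    simp only [eval_genU1, eval_genQ1] at hw
    rw [← hw] at h5
    have h6 := hN (fun j => t (Sum.inl 0) * (ev d.c (t (Sum.inl 1)) j + DD1 F d t j * s))
      (t (Sum.inl 0) ^ 3 * s * w) (by rw [h5]; ring)
    rw [← h6]
    congr 2
    funext j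
    have e3 := congrFun (map_ev (Algebra.ofId K M) d.c (t (Sum.inl 1))) j
    have e4 := congrFun (map_DD1 (Algebra.ofId K M) F d t) j
    simp only [Algebra.ofId_apply] at e3 e4
    simp only [map_mul, map_add, e3, e4]
  intro v s
  rw [← evP, hPz]
  simp

/-- The polynomial `N` vanishes on the tangent hyperplane at `c(t)`. -/
theorem tangent_vanish [CharZero K] {M : Type*} [Field M] [Algebra K M]
    [IsAlgClosed M] {F : MvPolynomial ι K} {d : Dat K ι} (N : MvPolynomial ι M)
    (pv : ∀ (v : Prm1 ι → M) (s : M),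
      aeval (fun j => v (Sum.inl 0) * (ev d.c (v (Sum.inl 1)) j + DD1 F d v j * s)) N = 0)
    (t : M) (y : ι → M) (hk : (lp F (ev d.c t) (cst M d.a)).coeff 1 ≠ 0)
    (hy : (lp F (ev d.c t) y).coeff 1 = 0)
    (hTy : TT F (ev d.c t) (ev d.V t) y (Polynomial.aeval t d.U) ≠ 0)
    (x : ι → M) (hx : (lp F (ev d.c t) x).coeff 1 = 0) : aeval x N = 0 := by
  classical
  have : Infinite M := IsAlgClosed.instInfinite
  have : CharZero M := charZero_of_injective_algebraMap (algebraMap K M).injective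
  -- step 1
  have s1 : ∀ (x : ι → M), (lp F (ev d.c t) x).coeff 1 = 0 →
      TT F (ev d.c t) (ev d.V t) x (Polynomial.aeval t d.U) ≠ 0 → aeval x N = 0 := by
    intro x hx hT
    set κ := (lp F (ev d.c t) (cst M d.a)).coeff 1 with hκ
    obtain ⟨u, hu⟩ := IsAlgClosed.exists_pow_nat_eq ((lp F (ev d.c t) x).coeff 2)
      (n := 2) (by norm_num)
    set W := hs F (ev d.c t) x (ev d.V t) - 2 * (Polynomial.aeval t d.U * u) with hWdef
    have hW0 : W ≠ 0 := by
      intro h0
      apply hT
      rw [TT, hs_self, ← hu]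
      have : hs F (ev d.c t) x (ev d.V t) ^ 2 - 2 * (Polynomial.aeval t d.U) ^ 2 * (u ^ 2 * 2) =
          W * (hs F (ev d.c t) x (ev d.V t) + 2 * (Polynomial.aeval t d.U * u)) := by
        rw [hWdef]; ring
      rw [this, h0, zero_mul]
    set v : M → Prm1 ι → M := fun l => Sum.elim ![l, t, κ * u] x with hv
    have hy : ∀ l, yy F d (v l) = fun j => κ * x j := by
      intro l
      change Dp F (ev d.c t) (cst M d.a) x = _
      funext j
      simp [Dp, hx, hκ]
    have hq : ∀ l, qd F (ev d.c t) (yy F d (v l)) (κ * u) = 0 := by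
      intro l
      rw [hy, qd, lp_smul_coeff, ← hu]
      ring
    have hw : ∀ l, wt F (ev d.c t) (ev d.V t) (yy F d (v l)) (Polynomial.aeval t d.U) (κ * u) =
        κ * W := by
      intro l
      rw [hy, wt, hs_smul_left, hWdef]
      ring
    have hDD : ∀ l, DD1 F d (v l) = fun j => κ * W * κ * x j := by
      intro l
      change Sec F (ev d.c t) (ev d.V t) (yy F d (v l)) (Polynomial.aeval t d.U) (κ * u) = _
      funext j
      rw [Sec, hw, hq, hy]
      ring
    have key : ∀ l : M, l ≠ 0 → (lp N x (ev d.c t)).eval l = 0 := by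
      intro l hl
      have h1 := pv (v l) (l * (κ * W * κ))⁻¹
      rw [hDD] at h1
      rw [lp_eval, ← h1]
      congr 2
      funext j
      change x j + ev d.c t j * l = l * (ev d.c t j + κ * W * κ * x j * (l * (κ * W * κ))⁻¹)
      field_simp
      ring
    have hz : lp N x (ev d.c t) = 0 := eq_zero_of_infinite (S := {0}) (fun l hl =>
      key l (by simpa using hl))
    rw [← lp_coeff_zero N x (ev d.c t), hz, Polynomial.coeff_zero]
  -- step 2
  set u0 := Polynomial.aeval t d.U with hu0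
  set p := ev d.c t with hp
  set v := ev d.V t with hv
  set Tp : Polynomial M :=
    (Polynomial.C (hs F p x v) + Polynomial.C (hs F p y v) * Polynomial.X) ^ 2 -
      Polynomial.C (2 * u0 ^ 2) * (Polynomial.C (hs F p x x) +
        Polynomial.C (2 * hs F p x y) * Polynomial.X +
        Polynomial.C (hs F p y y) * Polynomial.X ^ 2) with hTp
  have hTe : ∀ l, Tp.eval l = TT F p v (fun j => x j + y j * l) u0 := by
    intro l
    have e1 : hs F p (fun j => x j + y j * l) (fun j => x j + y j * l) =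
        hs F p x x + 2 * l * hs F p x y + l ^ 2 * hs F p y y := by
      rw [hs_line, hs_comm F p x, hs_line, hs_comm F p y (fun j => x j + y j * l), hs_line,
        hs_comm F p y x]
      ring
    rw [TT, e1, hs_line, hTp]
    simp only [Polynomial.eval_sub, Polynomial.eval_pow, Polynomial.eval_add,
      Polynomial.eval_mul, Polynomial.eval_C, Polynomial.eval_X]
    ring
  have hT2 : Tp.coeff 2 = TT F p v y u0 := by
    have : Tp = Polynomial.C (hs F p x v ^ 2 - 2 * u0 ^ 2 * hs F p x x) +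
        Polynomial.C (2 * hs F p x v * hs F p y v - 2 * u0 ^ 2 * (2 * hs F p x y)) *
          Polynomial.X +
        Polynomial.C (hs F p y v ^ 2 - 2 * u0 ^ 2 * hs F p y y) * Polynomial.X ^ 2 := by
      rw [hTp]
      simp only [Polynomial.C_mul, Polynomial.C_sub, Polynomial.C_pow, map_ofNat]
      ring
    rw [this, TT, Polynomial.coeff_add, Polynomial.coeff_add, Polynomial.coeff_C,
      Polynomial.coeff_C_mul, Polynomial.coeff_X, Polynomial.coeff_C_mul, Polynomial.coeff_X_pow]
    norm_num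
  have hTne : Tp ≠ 0 := by
    intro h0
    rw [h0, Polynomial.coeff_zero] at hT2
    exact hTy hT2.symm
  have hz : lp N x y = 0 := by
    refine eq_zero_of_infinite (S := Tp.roots.toFinset) (fun l hl => ?_)
    rw [lp_eval]
    refine s1 _ ?_ ?_
    · have := lp_coeff_one_add F p x y 1 l
      simp only [one_mul, hx, hy, mul_zero, add_zero] at this
      rw [← this]
      congr 3
      funext j
      ring
    · rw [← hTe]
      intro h0
      apply hl
      rw [Multiset.mem_toFinset, Polynomial.mem_roots hTne]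
      exact h0
  rw [← lp_coeff_zero N x y, hz, Polynomial.coeff_zero]

/-- The data at one point. -/
noncomputable def dat0 (p a v : ι → K) (u0 : K) : Dat K ι :=
  ⟨fun j => Polynomial.C (p j), a, fun j => Polynomial.C (v j), Polynomial.C u0⟩

omit [Fintype ι] in
theorem ev_C {R : Type*} [CommRing R] [Algebra K R] (p : ι → K) (t : R) :
    ev (fun j => Polynomial.C (p j)) t = cst R p := by
  funext j
  simp [ev, cst]

omit [Fintype ι] in
theorem sound0 {F : MvPolynomial ι K} {p a v : ι → K} {u0 : K} (hp : aeval p F = 0)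
    (h1 : (lp F p v).coeff 1 = 0) (h2 : (lp F p v).coeff 2 = u0 ^ 2) :
    Sound F (dat0 p a v u0) := by
  have e := fun i => lp_coeff_map (Polynomial.CAlgHom : K →ₐ[K] Polynomial K) F p v i
  refine ⟨?_, ?_, ?_⟩
  · have := MvPolynomial.comp_aeval_apply (f := p) (Polynomial.CAlgHom : K →ₐ[K] Polynomial K) F
    rw [hp, map_zero] at this
    exact this.symm
  · have := e 1
    rw [h1, map_zero] at this
    exact this.symm
  · have := e 2
    rw [h2, map_pow] at this
    exact this.symm

end

/-- The polynomial `N` vanishes on the tangent hyperplane at one point. -/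
theorem point_vanish {K : Type*} [NontriviallyNormedField K] [IsUltrametricDist K] [CharZero K]
    (h2n : ‖(2 : K)‖ < 1) {ι : Type*} [Fintype ι] {M : Type*} [Field M] [Algebra K M]
    [IsAlgClosed M] {F : MvPolynomial ι K} (hF : F.IsHomogeneous 6) (p a v D : ι → K) (u0 : K)
    (hp : aeval p F = 0) (h1 : (lp F p v).coeff 1 = 0) (h2 : (lp F p v).coeff 2 = u0 ^ 2)
    (hk : (lp F p a).coeff 1 ≠ 0) (hhs : hs F p (Dp F p a D) v ≠ 0)
    (hT : TT F p v (Dp F p a D) u0 ≠ 0) (R : ℝ) (hR : 1 ≤ R)
    (n2 : ‖(lp F p (Sec F p v (Dp F p a D) u0 0)).coeff 4‖ < R)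
    (nB : ‖(lp F p (Sec F p v (Dp F p a D) u0 0)).coeff 3 *
      (lp F p (Sec F p v (Dp F p a D) u0 0)).coeff 5 - 4 * Lst F p v (Dp F p a D) u0 0 ^ 2 *
      (lp F p (Sec F p v (Dp F p a D) u0 0)).coeff 6‖ < R)
    (nC : ‖(lp F p (Sec F p v (Dp F p a D) u0 0)).coeff 3 ^ 2 *
      (lp F p (Sec F p v (Dp F p a D) u0 0)).coeff 6 + Lst F p v (Dp F p a D) u0 0 ^ 2 *
      (lp F p (Sec F p v (Dp F p a D) u0 0)).coeff 5 ^ 2 -
      4 * Lst F p v (Dp F p a D) u0 0 ^ 2 *
      (lp F p (Sec F p v (Dp F p a D) u0 0)).coeff 4 *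
      (lp F p (Sec F p v (Dp F p a D) u0 0)).coeff 6‖ < R)
    (nQ : R * ‖4 * Lst F p v (Dp F p a D) u0 0 ^ 2‖ <
      ‖(lp F p (Sec F p v (Dp F p a D) u0 0)).coeff 3 ^ 2‖)
    (N : MvPolynomial ι M)
    (hN : ∀ (x : ι → K) (w : K), w ^ 2 = aeval x F →
      aeval (fun j => algebraMap K M (x j)) N = 0)
    (x : ι → M) (hx : (lp F (cst M p) x).coeff 1 = 0) : aeval x N = 0 := by
  classical
  set d := dat0 p a v u0 with hd
  have hs0 : Sound F d := sound0 hp h1 h2
  have evc : ∀ t : K, ev d.c t = p := fun t => ev_C p t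
  have evV : ∀ t : K, ev d.V t = v := fun t => ev_C v t
  have evU : ∀ t : K, Polynomial.aeval t d.U = u0 := fun t => by
    change Polynomial.aeval t (Polynomial.C u0) = u0
    simp
  set τ : K → Prm1 ι → K := fun η => Sum.elim ![1, 0, η] D with hτ
  have hyy : ∀ η, yy F d (τ η) = Dp F p a D := by
    intro η
    change Dp F (ev d.c 0) (cst K d.a) D = _
    rw [evc]
    rfl
  have hDD : DD1 F d (τ 0) = Sec F p v (Dp F p a D) u0 0 := by
    change Sec F (ev d.c 0) (ev d.V 0) (yy F d (τ 0)) (Polynomial.aeval 0 d.U) 0 = _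
    rw [evc, evV, evU, hyy]
  have hUU : ∀ η, UU1 F d (τ η) = Lst F p v (Dp F p a D) u0 η := by
    intro η
    change Lst F (ev d.c 0) (ev d.V 0) (yy F d (τ η)) (Polynomial.aeval 0 d.U) η = _
    rw [evc, evV, evU, hyy]
  have hQ : ∀ i, eval (τ 0) (genQ1 F d i) = (lp F p (Sec F p v (Dp F p a D) u0 0)).coeff i := by
    intro i
    rw [eval_genQ1, hDD]
    change (lp F (ev d.c 0) _).coeff i = _
    rw [evc]
  have hU : eval (τ 0) (genU1 F d) = Lst F p v (Dp F p a D) u0 0 := by rw [eval_genU1, hUU]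
  have hUne : genU1 F d ≠ 0 := by
    intro h0
    have e1 := eval_genU1 F d (τ 1)
    have e2 := eval_genU1 F d (τ (-1))
    rw [h0, map_zero, hUU] at e1 e2
    apply hhs
    have : 2 * hs F p (Dp F p a D) v = 0 := by
      rw [Lst, wt, qd] at e1 e2
      linear_combination e2 - e1
    exact (mul_eq_zero.mp this).resolve_left two_ne_zero
  have pv := param_core hF hs0 N hN (fun P hP => thmP two_ne_zero h2n (genU1 F d) (genQ1 F d 3)
    (genQ1 F d 4) (genQ1 F d 5) (genQ1 F d 6) (τ 0) hUne R hR (by rw [hQ]; exact n2)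
    (by rw [hQ, hQ, hQ, hU]; exact nB) (by rw [hQ, hQ, hQ, hQ, hU]; exact nC)
    (by rw [hQ, hU]; exact nQ) P hP)
  have evcM : ev d.c (0 : M) = cst M p := ev_C p 0
  have evVM : ev d.V (0 : M) = cst M v := ev_C v 0
  have evUM : Polynomial.aeval (0 : M) d.U = algebraMap K M u0 := by
    change Polynomial.aeval (0 : M) (Polynomial.C u0) = _
    simp
  have e1 : ∀ (z : ι → K) i, (lp F (cst M p) (cst M z)).coeff i =
      algebraMap K M ((lp F p z).coeff i) := fun z i =>
    (lp_coeff_map (Algebra.ofId K M) F p z i).symm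
  refine tangent_vanish N pv 0 (cst M (Dp F p a D)) ?_ ?_ ?_ x ?_
  · rw [evcM]
    change (lp F (cst M p) (cst M a)).coeff 1 ≠ 0
    rw [e1]
    exact (map_ne_zero _).mpr hk
  · rw [evcM, e1, Dp_coeff_one, map_zero]
  · rw [evcM, evVM, evUM]
    have := map_TT (Algebra.ofId K M) F p v (Dp F p a D) u0
    intro h0
    apply hT
    apply (algebraMap K M).injective
    rw [map_zero, ← h0]
    exact this
  · rw [evcM]
    exact hx

end Pool.Agent.L0h9.Rat
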