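import Pool.Agent.L0h9.Rat.EL

/-! Potential density for sextics which contain a curve of genus at most one. -/

namespace Pool.Agent.L0h9.Rat

open MvPolynomial Pool.Agent.H952R2 Pool.Agent.H952R2.Sextic Pool.Agent.H952R2.SexticDefs Pool.Agent.L0h9.Tri Topology Filter

/-- Density over a field over which everything is defined. -/
theorem dense_abs {K L Ω : Type*} [Field K] [Field L]
    [NontriviallyNormedField Ω] [IsUltrametricDist Ω] [Algebra K L] [Algebra L Ω] [Algebra K Ω]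
    [IsScalarTower K L Ω] [IsAlgClosed Ω] [CharZero L] [CharZero Ω]
    (h2n : ‖(2 : Ω)‖ < 1) {r : ℕ} (F : MvPolynomial (Fin r) K) (hF : F.IsHomogeneous 6)
    {g : Polynomial Ω} (hg : g.eval 0 ≠ 0) (hdeg : g.natDegree ≤ 3)
    (c V : Fin r → MvPolynomial (Fin 2) Ω) (U : MvPolynomial (Fin 2) Ω) (D p b a : Fin r → Ω)
    (hc : ∀ s w : Ω, w ^ 2 = (Polynomial.X * g).eval s →
      aeval (fun j => eval ![s, w] (c j)) F = 0)
    (hp : p = fun j => eval ![0, 0] (c j)) (hb : b = fun j => eval ![0, 0] (pderiv 1 (c j)))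
    (ha : (lp F p a).coeff 1 ≠ 0) (h1 : (lp F p D).coeff 1 = 0)
    (h3 : (lp F p D).coeff 3 ≠ 0) (h4 : hs F p D b ≠ 0)
    (hV : ∀ s w : Ω, w ^ 2 = (Polynomial.X * g).eval s →
        (lp F (fun j => eval ![s, w] (c j)) (fun j => eval ![s, w] (V j))).coeff 1 = 0 ∧
        (lp F (fun j => eval ![s, w] (c j)) (fun j => eval ![s, w] (V j))).coeff 2 =
          (eval ![s, w] U) ^ 2)
    {R ε : ℝ} (hR : 1 ≤ R) (hε : 0 < ε) (hcond : ∀ s w : Ω, ‖s‖ < ε → ‖w‖ < ε →
      Cond F R (fun j => eval ![s, w] (c j)) a (fun j => eval ![s, w] (V j)) D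
        (eval ![s, w] U))
    (c' V' : Fin r → MvPolynomial (Fin 2) L) (U' : MvPolynomial (Fin 2) L) (D' a' : Fin r → L)
    (hc' : ∀ j, map (algebraMap L Ω) (c' j) = c j)
    (hV' : ∀ j, map (algebraMap L Ω) (V' j) = V j)
    (hU' : map (algebraMap L Ω) U' = U) (hD' : (fun j => algebraMap L Ω (D' j)) = D)
    (ha' : (fun j => algebraMap L Ω (a' j)) = a)
    {R1 : ℝ} (hR1 : 1 ≤ R1) (s0 w0 A1 A2 A3 A4 : L)
    (hw : (algebraMap L Ω w0) ^ 2 = (Polynomial.X * g).eval (algebraMap L Ω s0))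
    (k1 : algebraMap L Ω A1 = (Polynomial.hasseDeriv 1 (Polynomial.X * g)).eval
      (algebraMap L Ω s0))
    (k2 : algebraMap L Ω A2 = (Polynomial.hasseDeriv 2 (Polynomial.X * g)).eval
      (algebraMap L Ω s0))
    (k3 : algebraMap L Ω A3 = (Polynomial.hasseDeriv 3 (Polynomial.X * g)).eval
      (algebraMap L Ω s0))
    (k4 : algebraMap L Ω A4 = (Polynomial.hasseDeriv 4 (Polynomial.X * g)).eval
      (algebraMap L Ω s0))
    (hw0 : w0 ≠ 0) (n2 : ‖algebraMap L Ω A2‖ < R1)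
    (nB : ‖algebraMap L Ω (A1 * A3 - 4 * w0 ^ 2 * A4)‖ < R1)
    (nC : ‖algebraMap L Ω (A1 ^ 2 * A4 + w0 ^ 2 * A3 ^ 2 - 4 * w0 ^ 2 * A2 * A4)‖ < R1)
    (nQ : R1 * ‖algebraMap L Ω (4 * w0 ^ 2)‖ < ‖algebraMap L Ω (A1 ^ 2)‖)
    (hs0 : ‖algebraMap L Ω s0‖ < ε) (hw1 : ‖algebraMap L Ω w0‖ < ε) :
    CoverDense (map (algebraMap K L) F) := by
  let inst1 : NormedField L := NormedField.induced L Ω (algebraMap L Ω) (algebraMap L Ω).injective
  have hnorm : ∀ x : L, ‖algebraMap L Ω x‖ = ‖x‖ := fun x => rfl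
  have h2L : ‖(2 : L)‖ < 1 := by
    rw [← hnorm, map_ofNat]
    exact h2n
  have h20 : (2 : L) ≠ 0 := two_ne_zero
  let inst2 : NontriviallyNormedField L :=
    { inst1 with non_trivial := ⟨2⁻¹, by
        rw [norm_inv]
        exact (one_lt_inv₀ (norm_pos_iff.mpr h20)).mpr h2L⟩ }
  have : IsUltrametricDist L :=
    IsUltrametricDist.isUltrametricDist_of_forall_norm_add_le_max_norm (fun x y => by
      rw [← hnorm, ← hnorm, ← hnorm, map_add]
      exact IsUltrametricDist.norm_add_le_max _ _)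
  have hdeg4 : (Polynomial.X * g).natDegree ≤ 4 := by
    have h5 := Polynomial.natDegree_mul_le (p := (Polynomial.X : Polynomial Ω)) (q := g)
    rw [Polynomial.natDegree_X] at h5
    omega
  have hinf := inf_points (L := L) h20 h2L (Polynomial.X * g) hdeg4 hR1 hε s0 w0 A1 A2 A3 A4 hw
    k1 k2 k3 k4 hw0 n2 nB nC nQ hs0 hw1
  exact dense_E hnorm h2L F hF hg c V U D p b a hc hp hb ha h1 h3 h4 hV hR hcond c' V' U' D' a'
    hc' hV' hU' hD' ha' hinf

theorem lift2 {K Ω : Type*} [Field K] [Field Ω] [Algebra K Ω] (L : IntermediateField K Ω)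
    (z : MvPolynomial (Fin 2) Ω) (hz : ∀ a ∈ z.coeffs, a ∈ L) :
    ∃ z' : MvPolynomial (Fin 2) L, map (algebraMap L Ω) z' = z := by
  have h : z ∈ Set.range (MvPolynomial.map (σ := Fin 2) (algebraMap L Ω)) := by
    rw [mem_range_map_iff_coeffs_subset]
    intro a ha
    exact ⟨⟨a, hz a ha⟩, rfl⟩
  exact h

/-- A finite extension containing given finitely many elements. -/
theorem exists_field2 {K Ω : Type*} [Field K] [Field Ω] [Algebra K Ω] [Algebra.IsAlgebraic K Ω]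
    {r : ℕ} (c V : Fin r → MvPolynomial (Fin 2) Ω) (U : MvPolynomial (Fin 2) Ω)
    (D a : Fin r → Ω) (T : Finset Ω) :
    ∃ L : IntermediateField K Ω, FiniteDimensional K L ∧ (∀ j, ∀ z ∈ (c j).coeffs, z ∈ L) ∧
      (∀ j, ∀ z ∈ (V j).coeffs, z ∈ L) ∧ (∀ z ∈ U.coeffs, z ∈ L) ∧ (∀ j, D j ∈ L) ∧
      (∀ j, a j ∈ L) ∧ ∀ z ∈ T, z ∈ L := by
  classical
  set S0 : Finset Ω := T ∪ Finset.univ.image D ∪ Finset.univ.image a ∪
    (Finset.univ.biUnion fun j => (c j).coeffs) ∪ (Finset.univ.biUnion fun j => (V j).coeffs) ∪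
    U.coeffs with hS0
  have hSfin : Finite (S0 : Set Ω) := inferInstance
  have mem : ∀ z, z ∈ S0 → z ∈ IntermediateField.adjoin K (S0 : Set Ω) :=
    fun z hz => IntermediateField.subset_adjoin K _ hz
  refine ⟨IntermediateField.adjoin K (S0 : Set Ω), IntermediateField.finiteDimensional_adjoin
    fun x _ => (Algebra.IsAlgebraic.isAlgebraic x).isIntegral, ?_, ?_, ?_, ?_, ?_, ?_⟩
  · intro j z hz
    have : z ∈ Finset.univ.biUnion fun j => (c j).coeffs :=
      Finset.mem_biUnion.mpr ⟨j, Finset.mem_univ j, hz⟩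
    apply mem
    simp only [hS0, Finset.mem_union]
    tauto
  · intro j z hz
    have : z ∈ Finset.univ.biUnion fun j => (V j).coeffs :=
      Finset.mem_biUnion.mpr ⟨j, Finset.mem_univ j, hz⟩
    apply mem
    simp only [hS0, Finset.mem_union]
    tauto
  · intro z hz
    apply mem
    simp only [hS0, Finset.mem_union]
    tauto
  · intro j
    have : D j ∈ Finset.univ.image D := Finset.mem_image_of_mem D (Finset.mem_univ j)
    apply mem
    simp only [hS0, Finset.mem_union]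
    tauto
  · intro j
    have : a j ∈ Finset.univ.image a := Finset.mem_image_of_mem a (Finset.mem_univ j)
    apply mem
    simp only [hS0, Finset.mem_union]
    tauto
  · intro z hz
    apply mem
    simp only [hS0, Finset.mem_union]
    tauto

/-- **Potential density**, for a form of degree six vanishing on the curve `c(s, w)`,
`w² = s g(s)`. -/
theorem potential_gen {K Ω : Type} [Field K] [NumberField K] [Field Ω] [Algebra K Ω]
    [IsAlgClosed Ω] [Algebra.IsAlgebraic K Ω] {n : ℕ}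
    (F : MvPolynomial (Fin (n + 1)) K) (hF : F.IsHomogeneous 6) (g : Polynomial Ω)
    (hg : g.eval 0 ≠ 0) (hdeg : g.natDegree ≤ 3) (c : Fin (n + 1) → MvPolynomial (Fin 2) Ω)
    (hc : ∀ s w : Ω, w ^ 2 = (Polynomial.X * g).eval s →
      aeval (fun j => eval ![s, w] (c j)) F = 0) (D : Fin (n + 1) → Ω)
    (h : GoodPoint F (fun j => eval ![0, 0] (c j)) (fun j => eval ![0, 0] (pderiv 1 (c j))) D) :
    ∃ L : IntermediateField K Ω, FiniteDimensional K L ∧
      CoverDense (map (algebraMap K L) F) := by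
  classical
  obtain ⟨⟨i0, hi0⟩, h1, h2, h3, h4⟩ := h
  obtain ⟨p, hp⟩ : ∃ p : Fin (n + 1) → Ω, p = fun j => eval ![0, 0] (c j) := ⟨_, rfl⟩
  obtain ⟨b, hb⟩ : ∃ b : Fin (n + 1) → Ω, b = fun j => eval ![0, 0] (pderiv 1 (c j)) := ⟨_, rfl⟩
  rw [← hp] at hi0 h1 h2 h3 h4
  rw [← hb] at h4
  have : CharZero Ω := charZero_of_injective_algebraMap (algebraMap K Ω).injective
  simp only [along_eq] at h1 h2 h3 h4
  have hDb : hs F p D b ≠ 0 := by
    intro h0
    apply h4
    have e1 := hs_add_smul F p D b 1 1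
    simp only [one_mul] at e1
    rw [hs_self, hs_self, hs_self, h0, h2] at e1
    have h20 : (2 : Ω) ≠ 0 := two_ne_zero
    apply mul_right_cancel₀ h20
    rw [e1]
    ring
  have haa : (lp F p (Pi.single i0 1)).coeff 1 ≠ 0 := by
    rw [lp_coeff_one, Finset.sum_eq_single i0]
    · simpa using hi0
    · intro j _ hj
      rw [Pi.single_eq_of_ne hj, zero_mul]
    · intro h; exact absurd (Finset.mem_univ _) h
  obtain ⟨V, U, hV, hV3⟩ := exists_data F hg c hc D p b _ hp hb haa h1 h2 hDb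
  -- the norm
  have : Fact (Nat.Prime 2) := ⟨Nat.prime_two⟩
  have : Algebra.IsAlgebraic ℚ Ω := Algebra.IsAlgebraic.trans ℚ K Ω
  let E : Ω →ₐ[ℚ] PadicAlgCl 2 := IsAlgClosed.lift
  let inst1 : NormedField Ω := NormedField.induced Ω (PadicAlgCl 2) E.toRingHom E.injective
  have hnorm : ∀ x : Ω, ‖x‖ = ‖E x‖ := fun x => rfl
  have h2n : ‖(2 : Ω)‖ = 1 / 2 := by
    rw [hnorm, map_ofNat]
    have := PadicAlgCl.norm_extends (p := 2) (2 : ℚ_[2])
    rw [show ((2 : ℚ_[2]) : PadicAlgCl 2) = 2 from map_ofNat _ 2] at this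
    rw [this]
    have := Padic.norm_p (p := 2)
    norm_num at this ⊢
    exact this
  let inst2 : NontriviallyNormedField Ω :=
    { inst1 with non_trivial := ⟨1 / 2, by rw [norm_div, h2n, norm_one]; norm_num⟩ }
  have : IsUltrametricDist Ω :=
    IsUltrametricDist.isUltrametricDist_of_forall_norm_add_le_max_norm (fun x y => by
      rw [hnorm, hnorm, hnorm, map_add]
      exact PadicAlgCl.isNonarchimedean 2 _ _)
  have h2 : ‖(2 : Ω)‖ < 1 := by rw [h2n]; norm_num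
  obtain ⟨R, ε, hR, hε, hcond⟩ := near_data F c V U D p _ hp haa h1 (by assumption) h3 hV3
  obtain ⟨R1, s0, hR1, hs1, hs2, hs3, m2, mB, mC, mQ⟩ := exists_s0 g hg hε
  obtain ⟨w0, hw0⟩ := IsAlgClosed.exists_pow_nat_eq ((Polynomial.X * g).eval s0)
    (n := 2) (by norm_num)
  have hw00 : w0 ≠ 0 := by
    rintro rfl
    apply hs1
    rw [← hw0]
    ring
  have hwn : ‖w0‖ < ε := by
    rw [← hw0, norm_pow] at hs3
    exact lt_of_pow_lt_pow_left₀ 2 hε.le hs3
  rw [← hw0] at mB mC mQ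
  -- the field
  obtain ⟨L, hfin, mc, mV, mU, mD, ma, ms⟩ := exists_field2 (K := K) c V U D
    (Pi.single i0 1 : Fin (n + 1) → Ω) {s0, w0,
    (Polynomial.hasseDeriv 1 (Polynomial.X * g)).eval s0,
    (Polynomial.hasseDeriv 2 (Polynomial.X * g)).eval s0,
    (Polynomial.hasseDeriv 3 (Polynomial.X * g)).eval s0,
    (Polynomial.hasseDeriv 4 (Polynomial.X * g)).eval s0}
  have e0 := ms s0 (by simp)
  have e1 := ms w0 (by simp)
  have e2 := ms ((Polynomial.hasseDeriv 1 (Polynomial.X * g)).eval s0) (by simp)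
  have e3 := ms ((Polynomial.hasseDeriv 2 (Polynomial.X * g)).eval s0) (by simp)
  have e4 := ms ((Polynomial.hasseDeriv 3 (Polynomial.X * g)).eval s0) (by simp)
  have e5 := ms ((Polynomial.hasseDeriv 4 (Polynomial.X * g)).eval s0) (by simp)
  choose c' hc' using fun j => lift2 L (c j) (mc j)
  choose V' hV' using fun j => lift2 L (V j) (mV j)
  obtain ⟨U', hU'⟩ := lift2 L U mU
  have : CharZero L := charZero_of_injective_algebraMap (algebraMap K L).injective
  refine ⟨L, hfin, ?_⟩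
  exact dense_abs (K := K) (L := L) (Ω := Ω) h2 F hF hg hdeg c V U D p b _ hc hp hb haa h1 h3 hDb
    hV hR hε hcond c' V' U' (fun j => ⟨D j, mD j⟩)
    (fun j => ⟨(Pi.single i0 1 : Fin (n + 1) → Ω) j, ma j⟩) hc' hV' hU' rfl rfl hR1
    ⟨s0, e0⟩ ⟨w0, e1⟩ ⟨_, e2⟩ ⟨_, e3⟩ ⟨_, e4⟩ ⟨_, e5⟩ hw0 rfl rfl rfl rfl
    (fun h => hw00 (congrArg Subtype.val h)) m2 mB mC mQ hs2 hwn

end Pool.Agent.L0h9.Rat
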