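import Pool.Agent.L0h9.Rat.Dens
import Pool.Agent.L0h9.Rat.Conic
import Pool.Agent.L0h9.Rat.Defs
import Pool.Agent.H952R2.Sextic.Parts

/-! Potential density. -/

namespace Pool.Agent.L0h9.Rat

open MvPolynomial Pool.Agent.H952R2 Pool.Agent.H952R2.Sextic Pool.Agent.H952R2.SexticDefs Pool.Agent.L0h9.Tri

section base

variable {A : Type*} [Field A] {R : Type*} [Field R] [Algebra A R] {S : Type*} [CommRing S]
  [Algebra A S] [Algebra R S] [IsScalarTower A R S] {ι : Type*}

theorem aeval_base1 (F : MvPolynomial ι A) (p : ι → S) :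
    aeval p (MvPolynomial.map (algebraMap A R) F) = aeval p F := by
  rw [aeval_def, eval₂_map, aeval_def, ← IsScalarTower.algebraMap_eq]

theorem lp_base1 (F : MvPolynomial ι A) (p x : ι → S) :
    lp (MvPolynomial.map (algebraMap A R) F) p x = lp F p x := by
  rw [Sextic.lp, Sextic.lp, aeval_def, eval₂_map, aeval_def]
  congr 1
  rw [IsScalarTower.algebraMap_eq A S (Polynomial S), IsScalarTower.algebraMap_eq R S (Polynomial S),
    RingHom.comp_assoc, ← IsScalarTower.algebraMap_eq]

end base

section closure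

variable {K : Type*} [Field K] {ι : Type*} [Fintype ι] {Ω : Type*} [Field Ω] [Algebra K Ω]
  [IsAlgClosed Ω] [CharZero Ω]

/-- The section over the algebraic closure. -/
theorem exists_section (F : MvPolynomial ι K) (c : ι → Polynomial Ω) (hc : aeval c F = 0)
    (t : Ω) (D p b a : ι → Ω) (hp : p = fun j => (c j).eval t)
    (hb : b = fun j => (Polynomial.derivative (c j)).eval t)
    (ha : (lp F p a).coeff 1 ≠ 0) (h1 : (lp F p D).coeff 1 = 0) (h2 : (lp F p D).coeff 2 = 0)
    (h4 : hs F p D b ≠ 0) :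
    ∃ (V : ι → Polynomial Ω) (U : Polynomial Ω), (lp F c V).coeff 1 = 0 ∧
      (lp F c V).coeff 2 = U ^ 2 ∧ hs F p D (fun j => (V j).eval t) ≠ 0 := by
  set ψ : Polynomial Ω →ₐ[K] Ω := (Polynomial.aeval t : Polynomial Ω →ₐ[Ω] Ω).restrictScalars K
    with hψ
  have ψe : ∀ z, ψ z = z.eval t := fun z => Polynomial.coe_aeval_eq_eval t ▸ rfl
  set Dt : ι → Polynomial Ω := Dp F c (fun j => Polynomial.C (a j)) (fun j => Polynomial.C (D j))
    with hDt
  set e : ι → Polynomial Ω := fun j => Polynomial.derivative (c j) with he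
  have hψc : (fun j => ψ (c j)) = p := by
    rw [hp]; funext j; exact ψe _
  have hψe : (fun j => ψ (e j)) = b := by
    rw [hb]; funext j; exact ψe _
  have hψD : (fun j => ψ (Dt j)) = fun j => (lp F p a).coeff 1 * D j := by
    have e1 := map_Dp ψ F c (fun j => Polynomial.C (a j)) (fun j => Polynomial.C (D j))
    have e2 : (fun j => ψ (Polynomial.C (a j))) = a := by
      funext j; rw [ψe, Polynomial.eval_C]
    have e3 : (fun j => ψ (Polynomial.C (D j))) = D := by
      funext j; rw [ψe, Polynomial.eval_C]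
    rw [e2, e3, hψc] at e1
    rw [hDt, e1]
    funext j
    rw [Dp, h1]
    ring
  have hA : ((lp F c Dt).coeff 2).eval t = 0 := by
    rw [← ψe, lp_coeff_map, hψc, hψD, lp_smul_coeff, h2, mul_zero]
  have hB : (hs F c Dt e).eval t ≠ 0 := by
    rw [← ψe, map_hs, hψc, hψD, hψe, hs_smul_left]
    exact mul_ne_zero ha h4
  obtain ⟨x, y, u, hy, hC⟩ := conic_sect ((lp F c Dt).coeff 2) (hs F c Dt e)
    ((lp F c e).coeff 2) t hA hB
  have het : (lp F c e).coeff 1 = 0 := by
    rw [lp_coeff_one]
    have := derivative_aeval F c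
    rw [hc, Polynomial.derivative_zero] at this
    rw [this]
    exact Finset.sum_congr rfl fun j _ => mul_comm _ _
  refine ⟨fun j => x * Dt j + y * e j, u, ?_, ?_, ?_⟩
  · rw [lp_coeff_one_add, hDt, Dp_coeff_one, het]
    ring
  · have h20 : (2 : Polynomial Ω) ≠ 0 := two_ne_zero
    apply mul_right_cancel₀ h20
    rw [← hs_self, hs_add_smul, hs_self, hs_self]
    rw [OnConic] at hC
    linear_combination 2 * hC
  · have e1 : (fun j => (x * Dt j + y * e j).eval t) =
        fun j => (x.eval t * (lp F p a).coeff 1) * D j + y.eval t * b j := by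
      funext j
      have e2 := congrFun hψD j
      have e3 := congrFun hψe j
      simp only [ψe] at e2 e3
      rw [Polynomial.eval_add, Polynomial.eval_mul, Polynomial.eval_mul, e2, e3]
      ring
    rw [e1, hs_comm, hs_add_left F p (fun j => (x.eval t * (lp F p a).coeff 1) * D j)
      (fun j => y.eval t * b j), hs_smul_left, hs_smul_left, hs_self, h2, hs_comm F p b D]
    rw [zero_mul, mul_zero, zero_add]
    exact mul_ne_zero hy h4

end closure

/-- A finite set of coefficients and of points is contained in a finite extension. -/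
theorem lift_poly {K Ω : Type*} [Field K] [Field Ω] [Algebra K Ω] (L : IntermediateField K Ω)
    (z : Polynomial Ω) (hz : ∀ a ∈ z.coeffs, a ∈ L) :
    ∃ z' : Polynomial L, z'.map (algebraMap L Ω) = z := by
  classical
  have : z ∈ Polynomial.lifts (algebraMap L Ω) := by
    rw [Polynomial.lifts_iff_coeff_lifts]
    intro n
    by_cases h0 : z.coeff n = 0
    · exact ⟨0, by rw [h0, map_zero]⟩
    · exact ⟨⟨z.coeff n, hz _ (Polynomial.coeff_mem_coeffs h0)⟩, rfl⟩
  exact (Polynomial.mem_lifts z).mp this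

/-- Density over a field `L` over which everything is defined. -/
theorem descend {K L Ω : Type*} [Field K] [Field L] [Field Ω] [Algebra K L] [Algebra L Ω]
    [Algebra K Ω] [IsScalarTower K L Ω] [IsAlgClosed Ω] [CharZero L] [Algebra.IsAlgebraic ℚ L]
    {r : ℕ} (F : MvPolynomial (Fin r) K) (hF : F.IsHomogeneous 6)
    (c V : Fin r → Polynomial Ω) (U : Polynomial Ω) (t : Ω) (D p b a : Fin r → Ω)
    (hc : aeval c F = 0) (hp : p = fun j => (c j).eval t)
    (hb : b = fun j => (Polynomial.derivative (c j)).eval t)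
    (ha : (lp F p a).coeff 1 ≠ 0) (h1 : (lp F p D).coeff 1 = 0) (h2 : (lp F p D).coeff 2 = 0)
    (h3 : (lp F p D).coeff 3 ≠ 0) (h4 : hs F p D b ≠ 0) (hV1 : (lp F c V).coeff 1 = 0)
    (hV2 : (lp F c V).coeff 2 = U ^ 2) (hV3 : hs F p D (fun j => (V j).eval t) ≠ 0)
    (c' V' : Fin r → Polynomial L) (U' : Polynomial L) (t' : L) (D' a' : Fin r → L)
    (hc' : ∀ j, (c' j).map (algebraMap L Ω) = c j)
    (hV' : ∀ j, (V' j).map (algebraMap L Ω) = V j) (hU' : U'.map (algebraMap L Ω) = U)
    (ht' : algebraMap L Ω t' = t) (hD' : (fun j => algebraMap L Ω (D' j)) = D)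
    (ha' : (fun j => algebraMap L Ω (a' j)) = a) :
    CoverDense (map (algebraMap K L) F) := by
  set F' := map (algebraMap K L) F with hF'
  set φ : L →ₐ[K] Ω := IsScalarTower.toAlgHom K L Ω with hφ
  have φe : ∀ z : L, φ z = algebraMap L Ω z := fun z => rfl
  have φi : Function.Injective φ := φ.toRingHom.injective
  set Φ : Polynomial L →ₐ[K] Polynomial Ω := Polynomial.mapAlgHom φ with hΦ
  have Φe : ∀ z : Polynomial L, Φ z = z.map (algebraMap L Ω) := fun z => rfl
  have Φi : Function.Injective Φ := Polynomial.map_injective _ (algebraMap L Ω).injective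
  have hΦc : (fun j => Φ (c' j)) = c := funext hc'
  have hΦV : (fun j => Φ (V' j)) = V := funext hV'
  have hφev : ∀ (q : Fin r → Polynomial L) (q' : Fin r → Polynomial Ω),
      (∀ j, (q j).map (algebraMap L Ω) = q' j) →
      (fun j => φ (ev q t' j)) = fun j => (q' j).eval t := by
    intro q q' hq
    funext j
    rw [← hq j, Polynomial.eval_map, ← ht', Polynomial.eval₂_at_apply, φe, ev,
      Polynomial.coe_aeval_eq_eval]
  have hφc : (fun j => φ (ev c' t' j)) = p := by rw [hφev c' c hc', hp]
  have hφb : (fun j => φ (ev (fun j => Polynomial.derivative (c' j)) t' j)) = b := by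
    rw [hφev _ (fun j => Polynomial.derivative (c j)) (fun j => by
      rw [← hc' j, Polynomial.derivative_map]), hb]
  have hφV : (fun j => φ (ev V' t' j)) = fun j => (V j).eval t := hφev V' V hV'
  have hφD : (fun j => φ (D' j)) = D := hD'
  have hφa : (fun j => φ (a' j)) = a := ha'
  have hcoef : ∀ (x : Fin r → L) (i : ℕ), φ ((lp F' (ev c' t') x).coeff i) =
      (lp F p (fun j => φ (x j))).coeff i := by
    intro x i
    rw [hF', lp_base1, lp_coeff_map, hφc]
  have hhs : ∀ (x y : Fin r → L), φ (hs F' (ev c' t') x y) =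
      hs F p (fun j => φ (x j)) (fun j => φ (y j)) := by
    intro x y
    rw [hF', hs_base, map_hs, hφc]
  have hsound : Sound F' ⟨c', a', V', U'⟩ := by
    refine ⟨?_, ?_, ?_⟩
    · change aeval c' F' = 0
      apply Φi
      rw [map_zero, hF', aeval_base1, MvPolynomial.comp_aeval_apply, hΦc, hc]
    · change (lp F' c' V').coeff 1 = 0
      apply Φi
      rw [map_zero, hF', lp_base1, lp_coeff_map, hΦc, hΦV, hV1]
    · change (lp F' c' V').coeff 2 = U' ^ 2
      apply Φi
      rw [map_pow, hF', lp_base1, lp_coeff_map, hΦc, hΦV, hV2, Φe, hU']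
  have hF6 : F'.IsHomogeneous 6 := hF.map _
  have hF'0 : F' ≠ 0 := by
    intro h0
    apply h3
    have e1 := hcoef D' 3
    rw [h0, Sextic.lp, map_zero, Polynomial.coeff_zero, map_zero, hφD] at e1
    exact e1.symm
  refine coverDense_of F' fun G hG => ?_
  have g1 : (lp F' (ev c' t') a').coeff 1 ≠ 0 := by
    intro h0
    have e1 := hcoef a' 1
    rw [h0, map_zero, hφa] at e1
    exact ha e1.symm
  have g2 : (lp F' (ev c' t') D').coeff 1 = 0 := φi (by rw [hcoef, map_zero, hφD]; exact h1)
  have g3 : (lp F' (ev c' t') D').coeff 2 = 0 := φi (by rw [hcoef, map_zero, hφD]; exact h2)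
  have g4 : (lp F' (ev c' t') D').coeff 3 ≠ 0 := by
    intro h0
    have e1 := hcoef D' 3
    rw [h0, map_zero, hφD] at e1
    exact h3 e1.symm
  have g5 : hs F' (ev c' t') D' (ev V' t') ≠ 0 := by
    intro h0
    have e1 := hhs D' (ev V' t')
    rw [h0, map_zero, hφV, hφD] at e1
    exact hV3 e1.symm
  have g6 : hs F' (ev c' t') D' (ev (fun j => Polynomial.derivative (c' j)) t') ≠ 0 := by
    intro h0
    have e1 := hhs D' (ev (fun j => Polynomial.derivative (c' j)) t')
    rw [h0, map_zero, hφb, hφD] at e1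
    exact h4 e1.symm
  have hN := density1 (M := Ω) hF6 hsound t' D' g1 g2 g3 g4 g5 g6
    (map (algebraMap L Ω) (G * F'))
    (by
      intro x w hw
      rw [aeval_eval] at hw
      have e1 : aeval (fun j => algebraMap L Ω (x j)) (map (algebraMap L Ω) (G * F')) =
          algebraMap L Ω (eval x (G * F')) := by
        rw [aeval_eval]
        exact eval_map_eq (algebraMap L Ω) (G * F') x
      rw [e1, map_mul]
      by_cases hw0 : w = 0
      · rw [← hw, hw0]
        simp
      · rw [hG x ⟨w, hw0, hw⟩, zero_mul, map_zero])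
  have hz : G * F' = 0 := by
    apply MvPolynomial.map_injective (algebraMap L Ω) (algebraMap L Ω).injective
    rw [hN, map_zero]
  exact (mul_eq_zero.mp hz).resolve_right hF'0

/-- A finite extension containing given finitely many elements. -/
theorem exists_field {K Ω : Type*} [Field K] [Field Ω] [Algebra K Ω] [Algebra.IsAlgebraic K Ω]
    {r : ℕ} (c V : Fin r → Polynomial Ω) (U : Polynomial Ω) (t : Ω) (D a : Fin r → Ω) :
    ∃ L : IntermediateField K Ω, FiniteDimensional K L ∧ (∀ j, ∀ z ∈ (c j).coeffs, z ∈ L) ∧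
      (∀ j, ∀ z ∈ (V j).coeffs, z ∈ L) ∧ (∀ z ∈ U.coeffs, z ∈ L) ∧ t ∈ L ∧ (∀ j, D j ∈ L) ∧
      (∀ j, a j ∈ L) := by
  classical
  set S0 : Finset Ω := {t} ∪ Finset.univ.image D ∪ Finset.univ.image a ∪
    (Finset.univ.biUnion fun j => (c j).coeffs) ∪ (Finset.univ.biUnion fun j => (V j).coeffs) ∪
    U.coeffs with hS0
  have hSfin : Finite (S0 : Set Ω) := inferInstance
  have mem : ∀ z, z ∈ S0 → z ∈ IntermediateField.adjoin K (S0 : Set Ω) :=
    fun z hz => IntermediateField.subset_adjoin K _ hz
  refine ⟨IntermediateField.adjoin K (S0 : Set Ω), IntermediateField.finiteDimensional_adjoin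
    fun x _ => (Algebra.IsAlgebraic.isAlgebraic x).isIntegral, ?_, ?_, ?_, ?_, ?_, ?_⟩
  · intro j z hz
    have : z ∈ Finset.univ.biUnion fun j => (c j).coeffs :=
      Finset.mem_biUnion.mpr ⟨j, Finset.mem_univ j, hz⟩
    apply mem
    simp only [hS0, Finset.mem_union]
    tauto
  · intro j z hz
    have : z ∈ Finset.univ.biUnion fun j => (V j).coeffs :=
      Finset.mem_biUnion.mpr ⟨j, Finset.mem_univ j, hz⟩
    apply mem
    simp only [hS0, Finset.mem_union]
    tauto
  · intro z hz
    apply mem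
    simp only [hS0, Finset.mem_union]
    tauto
  · apply mem
    simp only [hS0, Finset.mem_union, Finset.mem_singleton]
    tauto
  · intro j
    have : D j ∈ Finset.univ.image D := Finset.mem_image_of_mem D (Finset.mem_univ j)
    apply mem
    simp only [hS0, Finset.mem_union]
    tauto
  · intro j
    have : a j ∈ Finset.univ.image a := Finset.mem_image_of_mem a (Finset.mem_univ j)
    apply mem
    simp only [hS0, Finset.mem_union]
    tauto

theorem potential {K : Type} [Field K] [NumberField K] {n : ℕ}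
    (F : MvPolynomial (Fin (n + 1)) K) (hF : F.IsHomogeneous 6)
    (c : Fin (n + 1) → Polynomial (AlgebraicClosure K)) (h : GoodCurve F c) :
    PotentiallyDense F := by
  classical
  obtain ⟨hc, t, D, ⟨i0, hi0⟩, h1, h2, h3, h4⟩ := h
  obtain ⟨p, hp⟩ : ∃ p : Fin (n + 1) → AlgebraicClosure K, p = fun j => (c j).eval t := ⟨_, rfl⟩
  obtain ⟨b, hb⟩ : ∃ b : Fin (n + 1) → AlgebraicClosure K,
    b = fun j => (Polynomial.derivative (c j)).eval t := ⟨_, rfl⟩
  rw [← hp] at hi0 h1 h2 h3 h4
  rw [← hb] at h4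
  have : CharZero (AlgebraicClosure K) :=
    charZero_of_injective_algebraMap (algebraMap K (AlgebraicClosure K)).injective
  simp only [along_eq] at h1 h2 h3 h4
  have hDb : hs F p D b ≠ 0 := by
    intro h0
    apply h4
    have e1 := hs_add_smul F p D b 1 1
    simp only [one_mul] at e1
    rw [hs_self, hs_self, hs_self, h0, h2] at e1
    have h20 : (2 : AlgebraicClosure K) ≠ 0 := two_ne_zero
    apply mul_right_cancel₀ h20
    rw [e1]
    ring
  have haa : (lp F p (Pi.single i0 1)).coeff 1 ≠ 0 := by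
    rw [lp_coeff_one, Finset.sum_eq_single i0]
    · simpa using hi0
    · intro j _ hj
      rw [Pi.single_eq_of_ne hj, zero_mul]
    · intro h; exact absurd (Finset.mem_univ _) h
  obtain ⟨V, U, hV1, hV2, hV3⟩ := exists_section F c hc t D p b _ hp hb haa h1 h2 hDb
  obtain ⟨L, hfin, mc, mV, mU, mt, mD, ma⟩ := exists_field (K := K) c V U t D
    (Pi.single i0 1 : Fin (n + 1) → AlgebraicClosure K)
  choose c' hc' using fun j => lift_poly L (c j) (mc j)
  choose V' hV' using fun j => lift_poly L (V j) (mV j)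
  obtain ⟨U', hU'⟩ := lift_poly L U mU
  have : CharZero L := charZero_of_injective_algebraMap (algebraMap K L).injective
  have : Algebra.IsAlgebraic ℚ L := by
    have : FiniteDimensional ℚ L := FiniteDimensional.trans ℚ K L
    exact Algebra.IsAlgebraic.of_finite ℚ L
  exact ⟨L, hfin, descend F hF c V U t D p b _ hc hp hb haa h1 h2 h3 hDb hV1 hV2 hV3 c' V' U'
    ⟨t, mt⟩ (fun j => ⟨D j, mD j⟩) (fun j => ⟨(Pi.single i0 1 : Fin (n + 1) → AlgebraicClosure K) j,
      ma j⟩) hc' hV' hU' rfl rfl rfl⟩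

end Pool.Agent.L0h9.Rat
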