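import Pool.Agent.H952R2.Sextic.Density

/-! Tangent lines along a rational curve contained in the branch divisor: the parameters. -/

namespace Pool.Agent.L0h9.Rat

open MvPolynomial Pool.Agent.H952R2.Sextic

section defs

variable {K : Type*} [Field K] {ι : Type*} [Fintype ι] {R : Type*} [CommRing R] [Algebra K R]

/-- The value at `t` of a vector of polynomials. -/
noncomputable def ev (c : ι → Polynomial K) (t : R) : ι → R := fun j => Polynomial.aeval t (c j)

/-- `W = hs(y, v) - 2 u₀ η`. -/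
noncomputable def wt (F : MvPolynomial ι K) (p v y : ι → R) (u0 η : R) : R :=
  hs F p y v - 2 * (u0 * η)

/-- `Q = q(y) - η²`. -/
noncomputable def qd (F : MvPolynomial ι K) (p y : ι → R) (η : R) : R :=
  (lp F p y).coeff 2 - η ^ 2

/-- The second point of intersection of the quadric `q(y) = η²` with the line through its point
`(v, u₀)` in the direction `(y, η)`. -/
noncomputable def Sec (F : MvPolynomial ι K) (p v y : ι → R) (u0 η : R) : ι → R :=
  fun j => wt F p v y u0 η * y j + (-qd F p y η) * v j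

/-- Its last coordinate. -/
noncomputable def Lst (F : MvPolynomial ι K) (p v y : ι → R) (u0 η : R) : R :=
  wt F p v y u0 η * η - qd F p y η * u0

theorem Sec_coeff (h2 : IsUnit (2 : R)) (F : MvPolynomial ι K) (p v y : ι → R) (u0 η : R)
    (hp : aeval p F = 0) (hv1 : (lp F p v).coeff 1 = 0) (hv2 : (lp F p v).coeff 2 = u0 ^ 2)
    (hy : (lp F p y).coeff 1 = 0) :
    (lp F p (Sec F p v y u0 η)).coeff 0 = 0 ∧ (lp F p (Sec F p v y u0 η)).coeff 1 = 0 ∧
      (lp F p (Sec F p v y u0 η)).coeff 2 = Lst F p v y u0 η ^ 2 := by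
  refine ⟨?_, ?_, ?_⟩
  · rw [lp_coeff_zero, hp]
  · unfold Sec
    rw [lp_coeff_one_add, hy, hv1, mul_zero, mul_zero, add_zero]
  · rw [← h2.mul_left_inj, ← hs_self]
    unfold Sec
    rw [hs_add_smul, hs_self, hs_self, hv2, Lst]
    have h : hs F p y v = wt F p v y u0 η + 2 * (u0 * η) := by unfold wt; ring
    have h' : (lp F p y).coeff 2 = qd F p y η + η ^ 2 := by unfold qd; ring
    rw [h, h']
    ring

end defs

section natural

variable {K : Type*} [Field K] {ι : Type*} [Fintype ι] {R : Type*} [CommRing R] [Algebra K R]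
  {R' : Type*} [CommRing R'] [Algebra K R'] (φ : R →ₐ[K] R')

omit [Fintype ι] in
theorem map_ev (c : ι → Polynomial K) (t : R) : (fun j => φ (ev c t j)) = ev c (φ t) := by
  funext j
  simp only [ev]
  rw [← Polynomial.aeval_algHom_apply]

theorem map_wt (F : MvPolynomial ι K) (p v y : ι → R) (u0 η : R) :
    φ (wt F p v y u0 η) = wt F (fun j => φ (p j)) (fun j => φ (v j)) (fun j => φ (y j))
      (φ u0) (φ η) := by
  simp only [wt, map_sub, map_mul, map_hs, map_ofNat]

omit [Fintype ι] in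
theorem map_qd (F : MvPolynomial ι K) (p y : ι → R) (η : R) :
    φ (qd F p y η) = qd F (fun j => φ (p j)) (fun j => φ (y j)) (φ η) := by
  simp only [qd, map_sub, map_pow, lp_coeff_map]

theorem map_Sec (F : MvPolynomial ι K) (p v y : ι → R) (u0 η : R) :
    (fun j => φ (Sec F p v y u0 η j)) = Sec F (fun j => φ (p j)) (fun j => φ (v j))
      (fun j => φ (y j)) (φ u0) (φ η) := by
  funext j
  simp only [Sec, map_add, map_mul, map_neg, map_wt, map_qd]

theorem map_Lst (F : MvPolynomial ι K) (p v y : ι → R) (u0 η : R) :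
    φ (Lst F p v y u0 η) = Lst F (fun j => φ (p j)) (fun j => φ (v j)) (fun j => φ (y j))
      (φ u0) (φ η) := by
  simp only [Lst, map_sub, map_mul, map_wt, map_qd]

end natural

section main

variable {K : Type*} [Field K] {ι : Type*} [Fintype ι]

/-- The parameters: `l, t, η` and the vector `D`. -/
abbrev Prm1 (ι : Type*) := Fin 3 ⊕ ι

/-- The data: the curve, the auxiliary vector and the section. -/
structure Dat (K ι : Type*) [Field K] where
  c : ι → Polynomial K
  a : ι → K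
  V : ι → Polynomial K
  U : Polynomial K

/-- the tangent vector -/
noncomputable def yy {R : Type*} [CommRing R] [Algebra K R] (F : MvPolynomial ι K) (d : Dat K ι)
    (v : Prm1 ι → R) : ι → R :=
  Dp F (ev d.c (v (Sum.inl 1))) (cst R d.a) (fun j => v (Sum.inr j))

/-- total direction with the parameters in `R` -/
noncomputable def DD1 {R : Type*} [CommRing R] [Algebra K R] (F : MvPolynomial ι K) (d : Dat K ι)
    (v : Prm1 ι → R) : ι → R :=
  Sec F (ev d.c (v (Sum.inl 1))) (ev d.V (v (Sum.inl 1))) (yy F d v)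
    (Polynomial.aeval (v (Sum.inl 1)) d.U) (v (Sum.inl 2))

noncomputable def UU1 {R : Type*} [CommRing R] [Algebra K R] (F : MvPolynomial ι K) (d : Dat K ι)
    (v : Prm1 ι → R) : R :=
  Lst F (ev d.c (v (Sum.inl 1))) (ev d.V (v (Sum.inl 1))) (yy F d v)
    (Polynomial.aeval (v (Sum.inl 1)) d.U) (v (Sum.inl 2))

section

variable {R : Type*} [CommRing R] [Algebra K R] {R' : Type*} [CommRing R'] [Algebra K R']
  (φ : R →ₐ[K] R')

theorem map_yy (F : MvPolynomial ι K) (d : Dat K ι) (v : Prm1 ι → R) :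
    (fun j => φ (yy F d v j)) = yy F d (fun i => φ (v i)) := by
  unfold yy
  rw [map_Dp, map_ev, map_cst]

theorem map_DD1 (F : MvPolynomial ι K) (d : Dat K ι) (v : Prm1 ι → R) :
    (fun j => φ (DD1 F d v j)) = DD1 F d (fun i => φ (v i)) := by
  unfold DD1
  rw [map_Sec, map_ev, map_ev, map_yy, ← Polynomial.aeval_algHom_apply]

theorem map_UU1 (F : MvPolynomial ι K) (d : Dat K ι) (v : Prm1 ι → R) :
    φ (UU1 F d v) = UU1 F d (fun i => φ (v i)) := by
  unfold UU1
  rw [map_Lst, map_ev, map_ev, map_yy, ← Polynomial.aeval_algHom_apply]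

end

/-- The conditions on the data: the curve is in `{F = 0}`, and `(V, U)` is a section of the family
of the quadrics `q = u²`. -/
structure Sound (F : MvPolynomial ι K) (d : Dat K ι) : Prop where
  curve : aeval d.c F = 0
  tang : (lp F d.c d.V).coeff 1 = 0
  sect : (lp F d.c d.V).coeff 2 = d.U ^ 2

theorem Sound.at {R : Type*} [CommRing R] [Algebra K R] {F : MvPolynomial ι K} {d : Dat K ι}
    (h : Sound F d) (t : R) : aeval (ev d.c t) F = 0 ∧ (lp F (ev d.c t) (ev d.V t)).coeff 1 = 0 ∧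
      (lp F (ev d.c t) (ev d.V t)).coeff 2 = (Polynomial.aeval t d.U) ^ 2 := by
  refine ⟨?_, ?_, ?_⟩
  · have h1 := MvPolynomial.comp_aeval_apply (f := d.c)
      (Polynomial.aeval t : Polynomial K →ₐ[K] R) F
    rw [h.curve, map_zero] at h1
    exact h1.symm
  · have h1 := lp_coeff_map (Polynomial.aeval t : Polynomial K →ₐ[K] R) F d.c d.V 1
    rw [h.tang, map_zero] at h1
    exact h1.symm
  · have h1 := lp_coeff_map (Polynomial.aeval t : Polynomial K →ₐ[K] R) F d.c d.V 2
    rw [h.sect, map_pow] at h1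
    exact h1.symm

theorem DD1_coeff {R : Type*} [CommRing R] [Algebra K R] [CharZero K]
    {F : MvPolynomial ι K} {d : Dat K ι} (h : Sound F d) (v : Prm1 ι → R) :
    (lp F (ev d.c (v (Sum.inl 1))) (DD1 F d v)).coeff 0 = 0 ∧
    (lp F (ev d.c (v (Sum.inl 1))) (DD1 F d v)).coeff 1 = 0 ∧
    (lp F (ev d.c (v (Sum.inl 1))) (DD1 F d v)).coeff 2 = UU1 F d v ^ 2 := by
  have h2 : IsUnit (2 : R) := by
    have : IsUnit (2 : K) := (two_ne_zero).isUnit
    have := this.map (algebraMap K R)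
    rwa [map_ofNat] at this
  obtain ⟨h3, h4, h5⟩ := h.at (v (Sum.inl 1))
  exact Sec_coeff h2 F _ _ _ _ _ h3 h4 h5 (Dp_coeff_one F _ _ _)

theorem aeval_curve {R : Type*} [CommRing R] [Algebra K R] [CharZero K] {F : MvPolynomial ι K}
    (hF : F.IsHomogeneous 6) {d : Dat K ι} (h : Sound F d) (v : Prm1 ι → R) (l s : R) :
    aeval (fun j => l * (ev d.c (v (Sum.inl 1)) j + DD1 F d v j * s)) F =
      (l ^ 3 * s) ^ 2 * (UU1 F d v ^ 2 +
        (lp F (ev d.c (v (Sum.inl 1))) (DD1 F d v)).coeff 3 * s +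
        (lp F (ev d.c (v (Sum.inl 1))) (DD1 F d v)).coeff 4 * s ^ 2 +
        (lp F (ev d.c (v (Sum.inl 1))) (DD1 F d v)).coeff 5 * s ^ 3 +
        (lp F (ev d.c (v (Sum.inl 1))) (DD1 F d v)).coeff 6 * s ^ 4) := by
  rw [aeval_homog hF, ← lp_eval, Polynomial.eval_eq_sum_range' (n := 7)
    (Nat.lt_succ_of_le (lp_natDegree_le hF.totalDegree_le _ _))]
  obtain ⟨h0, h1, h2⟩ := DD1_coeff h v
  simp only [Finset.sum_range_succ, Finset.sum_range_zero, h0, h1, h2]
  ring

/-- generic coefficient -/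
noncomputable def genQ1 (F : MvPolynomial ι K) (d : Dat K ι) (i : ℕ) : MvPolynomial (Prm1 ι) K :=
  (lp F (ev d.c (X (Sum.inl 1) : MvPolynomial (Prm1 ι) K)) (DD1 F d X)).coeff i

noncomputable def genU1 (F : MvPolynomial ι K) (d : Dat K ι) : MvPolynomial (Prm1 ι) K :=
  UU1 F d X

theorem eval_genQ1 (F : MvPolynomial ι K) (d : Dat K ι)
    (i : ℕ) (v : Prm1 ι → K) :
    eval v (genQ1 F d i) = (lp F (ev d.c (v (Sum.inl 1))) (DD1 F d v)).coeff i := by
  have h := lp_coeff_map (aeval v : MvPolynomial (Prm1 ι) K →ₐ[K] K) F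
    (ev d.c (X (Sum.inl 1) : MvPolynomial (Prm1 ι) K)) (DD1 F d X) i
  rw [map_ev, map_DD1] at h
  simp only [aeval_X] at h
  rw [← aeval_eval, genQ1, h]

theorem eval_genU1 (F : MvPolynomial ι K) (d : Dat K ι) (v : Prm1 ι → K) :
    eval v (genU1 F d) = UU1 F d v := by
  have h := map_UU1 (aeval v : MvPolynomial (Prm1 ι) K →ₐ[K] K) F d X
  simp only [aeval_X] at h
  rw [← aeval_eval, genU1, h]

/-- The key vanishing statement. -/
theorem param_vanish1 [CharZero K] [Algebra.IsAlgebraic ℚ K] {M : Type*} [Field M] [Algebra K M]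
    {F : MvPolynomial ι K} (hF : F.IsHomogeneous 6) {d : Dat K ι} (h : Sound F d)
    (t1 : K) (D1 : ι → K) (ha : (lp F (ev d.c t1) d.a).coeff 1 ≠ 0)
    (hD1 : (lp F (ev d.c t1) D1).coeff 1 = 0) (hD2 : (lp F (ev d.c t1) D1).coeff 2 = 0)
    (hD3 : (lp F (ev d.c t1) D1).coeff 3 ≠ 0) (hW : hs F (ev d.c t1) D1 (ev d.V t1) ≠ 0)
    (N : MvPolynomial ι M)
    (hN : ∀ (x : ι → K) (w : K), w ^ 2 = aeval x F →
      aeval (fun j => algebraMap K M (x j)) N = 0) :
    ∀ (v : Prm1 ι → M) (s : M),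
      aeval (fun j => v (Sum.inl 0) * (ev d.c (v (Sum.inl 1)) j + DD1 F d v j * s)) N = 0 := by
  classical
  set κ := (lp F (ev d.c t1) d.a).coeff 1 with hκ
  have hac : cst K d.a = d.a := rfl
  -- the special points
  set vK : K → Prm1 ι → K := fun η => Sum.elim ![1, t1, η] D1 with hvK
  have hy : ∀ η, yy F d (vK η) = fun j => κ * D1 j := by
    intro η
    change Dp F (ev d.c t1) (cst K d.a) D1 = _
    funext j
    simp [Dp, hD1, hκ, hac]
  have hq : ∀ η, qd F (ev d.c t1) (yy F d (vK η)) η = -η ^ 2 := by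
    intro η
    rw [hy, qd, lp_smul_coeff, hD2]
    ring
  have hw : ∀ η, wt F (ev d.c t1) (ev d.V t1) (yy F d (vK η)) (Polynomial.aeval t1 d.U) η =
      κ * hs F (ev d.c t1) D1 (ev d.V t1) - 2 * (Polynomial.aeval t1 d.U * η) := by
    intro η
    rw [hy, wt, hs_smul_left]
  have hU : ∀ η, UU1 F d (vK η) = κ * hs F (ev d.c t1) D1 (ev d.V t1) * η -
      Polynomial.aeval t1 d.U * η ^ 2 := by
    intro η
    change Lst F (ev d.c t1) (ev d.V t1) (yy F d (vK η)) (Polynomial.aeval t1 d.U) η = _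
    rw [Lst, hw, hq]
    ring
  have hκW : κ * hs F (ev d.c t1) D1 (ev d.V t1) ≠ 0 := mul_ne_zero ha hW
  have hDD0 : DD1 F d (vK 0) = fun j => (κ * hs F (ev d.c t1) D1 (ev d.V t1) * κ) * D1 j := by
    change Sec F (ev d.c t1) (ev d.V t1) (yy F d (vK 0)) (Polynomial.aeval t1 d.U) 0 = _
    funext j
    rw [Sec, hw, hq, hy]
    ring
  have hq0 : eval (vK 0) (genQ1 F d 3) ≠ 0 := by
    rw [eval_genQ1, hDD0]
    change (lp F (ev d.c t1) _).coeff 3 ≠ 0
    rw [lp_smul_coeff]
    exact mul_ne_zero (pow_ne_zero _ (mul_ne_zero hκW ha)) hD3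
  have hU0 : eval (vK 0) (genU1 F d) = 0 := by rw [eval_genU1, hU]; ring
  have hUne : genU1 F d ≠ 0 := by
    intro h0
    have e1 := eval_genU1 F d (vK 1)
    have e2 := eval_genU1 F d (vK (-1))
    rw [h0, map_zero, hU] at e1 e2
    apply hκW
    have : 2 * (κ * hs F (ev d.c t1) D1 (ev d.V t1)) = 0 := by linear_combination e2 - e1
    exact (mul_eq_zero.mp this).resolve_left two_ne_zero
  -- apply the 2-adic theorem
  set P : Polynomial (MvPolynomial (Prm1 ι) M) :=
    lp N (fun j => X (Sum.inl 0) * ev d.c (X (Sum.inl 1) : MvPolynomial (Prm1 ι) M) j)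
      (fun j => X (Sum.inl 0) * DD1 F d X j) with hP
  have evP : ∀ (v : Prm1 ι → M) (s : M), Polynomial.eval s (P.map (eval v)) =
      aeval (fun j => v (Sum.inl 0) * (ev d.c (v (Sum.inl 1)) j + DD1 F d v j * s)) N := by
    intro v s
    have e1 := lp_map (aeval v : MvPolynomial (Prm1 ι) M →ₐ[M] M) N
      (fun j => X (Sum.inl 0) * ev d.c (X (Sum.inl 1) : MvPolynomial (Prm1 ι) M) j)
      (fun j => X (Sum.inl 0) * DD1 F d X j)
    have e2 : ((aeval v : MvPolynomial (Prm1 ι) M →ₐ[M] M) : MvPolynomial (Prm1 ι) M →+* M) =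
        eval v := RingHom.ext fun p => aeval_eval v p
    rw [e2] at e1
    rw [hP, e1, lp_eval]
    congr 2
    funext j
    have e3 := congrFun (map_ev ((aeval v : MvPolynomial (Prm1 ι) M →ₐ[M] M).restrictScalars K)
      d.c (X (Sum.inl 1))) j
    have e4 := congrFun (map_DD1 ((aeval v : MvPolynomial (Prm1 ι) M →ₐ[M] M).restrictScalars K)
      F d X) j
    simp only [AlgHom.coe_restrictScalars', aeval_X] at e3 e4
    simp only [map_mul, aeval_X, e3, e4]
    ring
  have hPz : P = 0 := by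
    refine thmG (genU1 F d) (genQ1 F d 3) (genQ1 F d 4) (genQ1 F d 5) (genQ1 F d 6) (vK 0) hU0
      hUne hq0 P ?_
    rintro t s ⟨w, hw⟩
    rw [evP]
    have h5 := aeval_curve hF h t (t (Sum.inl 0)) s
    simp only [eval_genU1, eval_genQ1] at hw
    rw [← hw] at h5
    have h6 := hN (fun j => t (Sum.inl 0) * (ev d.c (t (Sum.inl 1)) j + DD1 F d t j * s))
      (t (Sum.inl 0) ^ 3 * s * w) (by rw [h5]; ring)
    rw [← h6]
    congr 2
    funext j
    have e3 := congrFun (map_ev (Algebra.ofId K M) d.c (t (Sum.inl 1))) j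
    have e4 := congrFun (map_DD1 (Algebra.ofId K M) F d t) j
    simp only [Algebra.ofId_apply] at e3 e4
    simp only [map_mul, map_add, e3, e4]
  intro v s
  rw [← evP, hPz]
  simp

end main

end Pool.Agent.L0h9.Rat
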