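import Pool.Agent.L0h9.Rat.Fin

/-! An open condition for the existence of good asymptotic directions. -/

namespace Pool.Agent.L0h9.Rat

open MvPolynomial Pool.Agent.H952R2 Pool.Agent.H952R2.Sextic

section ring

variable {A : Type*} [CommRing A] {ι : Type*} [Fintype ι] {S : Type*} [CommRing S]

omit [Fintype ι] in
theorem lp_ring (φ : A →+* S) (F : MvPolynomial ι A) (p x : ι → A) :
    (lp F p x).map φ = lp (map φ F) (fun j => φ (p j)) (fun j => φ (x j)) := by
  let _ : Algebra A S := φ.toAlgebra
  have h1 := lp_map (Algebra.ofId A S) F p x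
  have h2 := lp_map_algebraMap (R := S) F (fun j => φ (p j)) (fun j => φ (x j))
  exact h1.trans h2.symm

omit [Fintype ι] in
theorem lp_ring_coeff (φ : A →+* S) (F : MvPolynomial ι A) (p x : ι → A) (i : ℕ) :
    φ ((lp F p x).coeff i) = (lp (map φ F) (fun j => φ (p j)) (fun j => φ (x j))).coeff i := by
  rw [← lp_ring, Polynomial.coeff_map]

theorem hs_ring (φ : A →+* S) (F : MvPolynomial ι A) (p x y : ι → A) :
    φ (hs F p x y) = hs (map φ F) (fun j => φ (p j)) (fun j => φ (x j)) (fun j => φ (y j)) := by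
  simp only [hs, map_sum, map_mul, pderiv_map]
  refine Finset.sum_congr rfl fun j _ => ?_
  congr 1
  refine Finset.sum_congr rfl fun k _ => ?_
  congr 1
  rw [aeval_def, aeval_def, eval₂_map, ← MvPolynomial.coe_eval₂Hom, ← RingHom.comp_apply,
    MvPolynomial.comp_eval₂Hom]
  rfl

/-- the vector `E` -/
noncomputable def vE (F : MvPolynomial ι A) (p a D : ι → A) : ι → A :=
  fun j => (lp F p a).coeff 1 * D j - (lp F p D).coeff 1 * a j

/-- the quadratic polynomial -/
noncomputable def hH (F : MvPolynomial ι A) (p a b D : ι → A) : Polynomial A :=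
  Polynomial.X ^ 2 + (Polynomial.C (hs F p (vE F p a D) b) * Polynomial.X +
    Polynomial.C ((lp F p (vE F p a D)).coeff 2 * (lp F p b).coeff 2))

/-- the cubic polynomial -/
noncomputable def tT (F : MvPolynomial ι A) (p a b D : ι → A) : Polynomial A :=
  (lp F (fun j => Polynomial.C (p j)) (fun j =>
    Polynomial.C ((lp F p b).coeff 2 * vE F p a D j) + Polynomial.C (b j) * Polynomial.X)).coeff 3

/-- the open condition -/
noncomputable def Psi (F : MvPolynomial ι A) (p a b D : ι → A) : A :=
  (lp F p a).coeff 1 * (lp F p b).coeff 2 *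
    (hs F p (vE F p a D) b ^ 2 - 4 * ((lp F p (vE F p a D)).coeff 2 * (lp F p b).coeff 2)) *
    (tT F p a b D %ₘ hH F p a b D).coeff 0

theorem hH_monic [Nontrivial A] (F : MvPolynomial ι A) (p a b D : ι → A) :
    (hH F p a b D).Monic := by
  refine Polynomial.monic_X_pow_add ?_
  refine lt_of_le_of_lt (Polynomial.degree_add_le _ _) (max_lt ?_ ?_)
  · refine lt_of_le_of_lt (Polynomial.degree_C_mul_X_le _) ?_
    norm_num
  · refine lt_of_le_of_lt Polynomial.degree_C_le ?_
    norm_num

omit [Fintype ι] in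
theorem map_vE (φ : A →+* S) (F : MvPolynomial ι A) (p a D : ι → A) :
    (fun j => φ (vE F p a D j)) =
      vE (map φ F) (fun j => φ (p j)) (fun j => φ (a j)) (fun j => φ (D j)) := by
  funext j
  simp only [vE, map_sub, map_mul, lp_ring_coeff]

theorem map_hH (φ : A →+* S) (F : MvPolynomial ι A) (p a b D : ι → A) :
    (hH F p a b D).map φ =
      hH (map φ F) (fun j => φ (p j)) (fun j => φ (a j)) (fun j => φ (b j)) (fun j => φ (D j)) := by
  have e1 := hs_ring φ F p (vE F p a D) b
  have e2 := lp_ring_coeff φ F p (vE F p a D) 2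
  have e3 := lp_ring_coeff φ F p b 2
  rw [map_vE] at e1 e2
  rw [hH, Polynomial.map_add, Polynomial.map_pow, Polynomial.map_X, Polynomial.map_add,
    Polynomial.map_mul, Polynomial.map_C, Polynomial.map_X, Polynomial.map_C, map_mul φ, e1, e2,
    e3, hH]

omit [Fintype ι] in
theorem map_tT (φ : A →+* S) (F : MvPolynomial ι A) (p a b D : ι → A) :
    (tT F p a b D).map φ =
      tT (map φ F) (fun j => φ (p j)) (fun j => φ (a j)) (fun j => φ (b j)) (fun j => φ (D j)) := by
  have h1 : ∀ {B : Type _} [CommRing B] (G : MvPolynomial ι B) (u v : ι → Polynomial B),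
      lp G u v = lp (map (Polynomial.C : B →+* Polynomial B) G) u v := by
    intro B _ G u v
    exact (lp_map_algebraMap (R := Polynomial B) G u v).symm
  rw [tT, h1, ← Polynomial.coe_mapRingHom, lp_ring_coeff, map_map]
  rw [tT]
  have h2 := (lp_map_algebraMap (R := Polynomial S) (map φ F)
    (fun j => Polynomial.C (φ (p j))) (fun j =>
    Polynomial.C ((lp (map φ F) (fun j => φ (p j)) (fun j => φ (b j))).coeff 2 *
      vE (map φ F) (fun j => φ (p j)) (fun j => φ (a j)) (fun j => φ (D j)) j) +
      Polynomial.C (φ (b j)) * Polynomial.X)).symm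
  have hcomp : (Polynomial.mapRingHom φ).comp (Polynomial.C : A →+* Polynomial A) =
      (algebraMap S (Polynomial S)).comp φ := RingHom.ext fun x => by
    rw [RingHom.comp_apply, RingHom.comp_apply, Polynomial.coe_mapRingHom, Polynomial.map_C]
    rfl
  have hv : (fun j => (Polynomial.mapRingHom φ) (Polynomial.C ((lp F p b).coeff 2 *
      vE F p a D j) + Polynomial.C (b j) * Polynomial.X)) = fun j =>
      Polynomial.C ((lp (map φ F) (fun j => φ (p j)) (fun j => φ (b j))).coeff 2 *
      vE (map φ F) (fun j => φ (p j)) (fun j => φ (a j)) (fun j => φ (D j)) j) +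
      Polynomial.C (φ (b j)) * Polynomial.X := by
    funext j
    have h3 := congrFun (map_vE φ F p a D) j
    have h4 := lp_ring_coeff φ F p b 2
    rw [Polynomial.coe_mapRingHom, Polynomial.map_add, Polynomial.map_mul, Polynomial.map_C,
      Polynomial.map_C, Polynomial.map_X, map_mul φ, h3, h4]
  have hp : (fun j => (Polynomial.mapRingHom φ) (Polynomial.C (p j))) =
      fun j => Polynomial.C (φ (p j)) := by
    funext j
    rw [Polynomial.coe_mapRingHom, Polynomial.map_C]
  rw [h2, map_map, hv, hp, hcomp]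

theorem map_Psi [Nontrivial A] (φ : A →+* S) (F : MvPolynomial ι A) (p a b D : ι → A) :
    φ (Psi F p a b D) =
      Psi (map φ F) (fun j => φ (p j)) (fun j => φ (a j)) (fun j => φ (b j)) (fun j => φ (D j)) := by
  have e1 := hs_ring φ F p (vE F p a D) b
  have e2 := lp_ring_coeff φ F p (vE F p a D) 2
  have e3 := lp_ring_coeff φ F p b 2
  have e4 := lp_ring_coeff φ F p a 1
  rw [map_vE] at e1 e2
  rw [Psi, Psi, map_mul φ, map_mul φ, map_mul φ, map_sub φ, map_pow φ, map_mul φ, map_mul φ,
    map_ofNat φ, e1, e2, e3, e4, ← map_tT, ← map_hH,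
    ← Polynomial.map_modByMonic _ (hH_monic F p a b D), Polynomial.coeff_map]

end ring

section field

variable {Ω : Type*} [Field Ω] {ι : Type*} [Fintype ι]

omit [Fintype ι] in
theorem tT_eval (F : MvPolynomial ι Ω) (p a b D : ι → Ω) (z : Ω) :
    (tT F p a b D).eval z =
      (lp F p (fun j => (lp F p b).coeff 2 * vE F p a D j + z * b j)).coeff 3 := by
  have h := lp_coeff_map (Polynomial.aeval z : Polynomial Ω →ₐ[Ω] Ω) F
    (fun j => Polynomial.C (p j)) (fun j =>
    Polynomial.C ((lp F p b).coeff 2 * vE F p a D j) + Polynomial.C (b j) * Polynomial.X) 3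
  rw [Polynomial.coe_aeval_eq_eval] at h
  rw [tT, h]
  congr 2
  · funext j; simp
  · funext j; simp; ring

theorem vE_one (F : MvPolynomial ι Ω) (p a D : ι → Ω) : (lp F p (vE F p a D)).coeff 1 = 0 :=
  Dp_coeff_one F p a D

/-- A good direction gives the open condition. -/
theorem Psi_ne_zero (F : MvPolynomial ι Ω) (p a b D : ι → Ω) (ha : (lp F p a).coeff 1 ≠ 0)
    (h1 : (lp F p D).coeff 1 = 0) (h2 : (lp F p D).coeff 2 = 0) (h3 : (lp F p D).coeff 3 ≠ 0)
    (h4 : hs F p D b ≠ 0) (hb : (lp F p b).coeff 2 ≠ 0) : Psi F p a b D ≠ 0 := by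
  set κ := (lp F p a).coeff 1 with hκ
  have hE : vE F p a D = fun j => κ * D j := by
    funext j
    rw [vE, h1]
    ring
  have hE2 : (lp F p (vE F p a D)).coeff 2 = 0 := by rw [hE, lp_smul_coeff, h2, mul_zero]
  have hEb : hs F p (vE F p a D) b ≠ 0 := by
    rw [hE, hs_smul_left]
    exact mul_ne_zero ha h4
  have hT0 : (tT F p a b D).coeff 0 ≠ 0 := by
    rw [Polynomial.coeff_zero_eq_eval_zero, tT_eval]
    have : (fun j => (lp F p b).coeff 2 * vE F p a D j + 0 * b j) =
        fun j => ((lp F p b).coeff 2 * κ) * D j := by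
      funext j
      rw [hE]
      ring
    rw [this, lp_smul_coeff]
    exact mul_ne_zero (pow_ne_zero _ (mul_ne_zero hb ha)) h3
  have hr : (tT F p a b D %ₘ hH F p a b D).coeff 0 = (tT F p a b D).coeff 0 := by
    have h5 := Polynomial.modByMonic_add_div (tT F p a b D) (hH F p a b D)
    have h6 : (hH F p a b D).coeff 0 = 0 := by
      rw [hH, hE2]
      simp
    conv_rhs => rw [← h5]
    rw [Polynomial.coeff_add, Polynomial.mul_coeff_zero, h6, zero_mul, add_zero]
  rw [Psi, hr, hE2, zero_mul, mul_zero, sub_zero]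
  exact mul_ne_zero (mul_ne_zero (mul_ne_zero ha hb) (pow_ne_zero 2 hEb)) hT0

/-- The open condition gives a good direction. -/
theorem Psi_good [IsAlgClosed Ω] [CharZero Ω] (F : MvPolynomial ι Ω) (p a b D : ι → Ω)
    (hb1 : (lp F p b).coeff 1 = 0) (h : Psi F p a b D ≠ 0) :
    (lp F p a).coeff 1 ≠ 0 ∧ ∃ x : ι → Ω, (lp F p x).coeff 1 = 0 ∧ (lp F p x).coeff 2 = 0 ∧
      (lp F p x).coeff 3 ≠ 0 ∧ hs F p x b ≠ 0 := by
  rw [Psi] at h
  have hr := right_ne_zero_of_mul h
  have hΔ := right_ne_zero_of_mul (left_ne_zero_of_mul h)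
  have hC := right_ne_zero_of_mul (left_ne_zero_of_mul (left_ne_zero_of_mul h))
  have hκ := left_ne_zero_of_mul (left_ne_zero_of_mul (left_ne_zero_of_mul h))
  refine ⟨hκ, ?_⟩
  set E := vE F p a D with hE
  set α := (lp F p E).coeff 2 with hα
  set β := hs F p E b with hβ
  set γ := (lp F p b).coeff 2 with hγ
  set T := tT F p a b D with hT
  set H := hH F p a b D with hH'
  have hHm : H.Monic := hH_monic F p a b D
  -- the roots
  obtain ⟨s, hss⟩ := IsAlgClosed.exists_pow_nat_eq (β ^ 2 - 4 * (α * γ)) (n := 2) (by norm_num)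
  have hs0 : s ≠ 0 := by
    rintro rfl
    apply hΔ
    rw [← hss]
    ring
  have hroot : ∀ z : Ω, 2 * z = -β + s ∨ 2 * z = -β - s → z ^ 2 + β * z + α * γ = 0 := by
    intro z hz
    have h40 : (4 : Ω) ≠ 0 := by norm_num
    apply mul_left_cancel₀ h40
    rcases hz with hz | hz
    · linear_combination (2 * z + β + s) * hz + hss
    · linear_combination (2 * z + β - s) * hz + hss
  have hHe : ∀ z : Ω, H.eval z = z ^ 2 + β * z + α * γ := by
    intro z
    rw [hH', hH]
    simp
    ring
  have key : ∃ z : Ω, (2 * z = -β + s ∨ 2 * z = -β - s) ∧ T.eval z ≠ 0 := by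
    by_contra hcon
    push Not at hcon
    have h20 : (2 : Ω) ≠ 0 := two_ne_zero
    set r := T %ₘ H with hrdef
    have hdeg : r.natDegree < 2 := by
      have h7 : H.natDegree = 2 := by
        rw [hH', hH]
        compute_degree!
      have := Polynomial.natDegree_modByMonic_lt T hHm (by
        intro h1
        rw [h1] at h7
        simp at h7)
      rwa [h7] at this
    have hre : ∀ z : Ω, (2 * z = -β + s ∨ 2 * z = -β - s) → r.coeff 0 + r.coeff 1 * z = 0 := by
      intro z hz
      have e1 : r.eval z = 0 := by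
        have h5 := Polynomial.modByMonic_add_div T H
        have h6 := congrArg (Polynomial.eval z) h5
        rw [Polynomial.eval_add, Polynomial.eval_mul, hHe, hroot z hz, zero_mul, add_zero,
          hcon z hz] at h6
        exact h6
      rw [Polynomial.eval_eq_sum_range' hdeg] at e1
      simpa [Finset.sum_range_succ] using e1
    have e1 := hre ((-β + s) / 2) (Or.inl (by field_simp))
    have e2 := hre ((-β - s) / 2) (Or.inr (by field_simp))
    have e3 : s * r.coeff 1 = 0 := by
      have : r.coeff 1 * ((-β + s) / 2) - r.coeff 1 * ((-β - s) / 2) = s * r.coeff 1 := by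
        field_simp
        ring
      rw [← this]
      linear_combination e1 - e2
    have e4 : r.coeff 1 = 0 := (mul_eq_zero.mp e3).resolve_left hs0
    rw [e4, zero_mul, add_zero] at e1
    exact hr e1
  obtain ⟨z, hz, hTz⟩ := key
  have hzz := hroot z hz
  have hE1 : (lp F p E).coeff 1 = 0 := vE_one F p a D
  refine ⟨fun j => γ * E j + z * b j, ?_, ?_, ?_, ?_⟩
  · rw [lp_coeff_one_add, hE1, hb1]
    ring
  · have h20 : (2 : Ω) ≠ 0 := two_ne_zero
    apply mul_right_cancel₀ h20
    rw [← hs_self, hs_add_smul, hs_self, hs_self, ← hα, ← hβ, ← hγ]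
    linear_combination 2 * γ * hzz
  · rw [← tT_eval]
    exact hTz
  · have e1 : hs F p (fun j => γ * E j + z * b j) b = γ * (β + 2 * z) := by
      rw [hs_add_left F p (fun j => γ * E j) (fun j => z * b j), hs_smul_left, hs_smul_left,
        hs_self, ← hβ, ← hγ]
      ring
    rw [e1]
    refine mul_ne_zero hC ?_
    rcases hz with hz | hz
    · have : β + 2 * z = s := by rw [hz]; ring
      rw [this]
      exact hs0
    · have : β + 2 * z = -s := by rw [hz]; ring
      rw [this]
      exact neg_ne_zero.mpr hs0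

end field

end Pool.Agent.L0h9.Rat
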